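import Pool.Agent.Y746.OM.Stm

set_option autoImplicit false

/-! Assembly, part 1: basic lemmas. -/

namespace Pool.Agent.Y746.OM

open Finset Filter Topology MeasureTheory
open H370 (zset mult NN Zf zz)

noncomputable section

lemma RS_cont (P : Finset ℕ) (Q : ℝ) (y : Finset ℕ → ℂ) (hP : ∀ p ∈ P, p.Prime) :
    Continuous (fun t : ℝ => RS P Q y ((t : ℂ) * Complex.I)) := by
  unfold RS
  refine continuous_finsetSum _ fun S hS => ?_
  have hq : qS S ≠ 0 := by
    unfold qS
    rw [Finset.prod_ne_zero_iff]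
    intro p hp
    have : S ⊆ P := by
      unfold FS at hS
      exact (Finset.mem_powerset.1 (Finset.mem_filter.1 hS).1)
    exact (hP p (this hp)).ne_zero
  refine continuous_const.mul ?_
  exact Continuous.const_cpow (by fun_prop) (Or.inl (by exact_mod_cast hq))

lemma W_cont (P : Finset ℕ) (Q : ℝ) (y : Finset ℕ → ℂ) (hP : ∀ p ∈ P, p.Prime) :
    Continuous (fun t : ℝ => ‖RS P Q y ((t : ℂ) * Complex.I)‖ ^ 2) :=
  ((RS_cont P Q y hP).norm).pow 2

/-- a shift of the variable changes the phases only -/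
lemma RS_shift (P : Finset ℕ) (Q : ℝ) (y : Finset ℕ → ℂ) (hP : ∀ p ∈ P, p.Prime) (t v : ℝ) :
    RS P Q y (((t - v : ℝ) : ℂ) * Complex.I) =
      RS P Q (fun S => y S * ((qS S : ℕ) : ℂ) ^ ((v : ℂ) * Complex.I)) ((t : ℂ) * Complex.I) := by
  unfold RS
  refine Finset.sum_congr rfl fun S hS => ?_
  have hq : qS S ≠ 0 := by
    unfold qS
    rw [Finset.prod_ne_zero_iff]
    intro p hp
    have : S ⊆ P := by
      unfold FS at hS
      exact (Finset.mem_powerset.1 (Finset.mem_filter.1 hS).1)
    exact (hP p (this hp)).ne_zero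
  rw [mul_assoc, ← Complex.cpow_add _ _ (by exact_mod_cast hq)]
  congr 2
  push_cast
  ring

lemma norm_qI (n : ℕ) (hn : n ≠ 0) (v : ℝ) : ‖(n : ℂ) ^ ((v : ℂ) * Complex.I)‖ = 1 := by
  rw [Complex.norm_natCast_cpow_of_pos (Nat.pos_of_ne_zero hn)]
  simp

/-- Fubini for continuous functions on rectangles -/
lemma fub {f : ℝ → ℝ → ℝ} (hf : Continuous (Function.uncurry f)) {a b c d : ℝ} (hab : a ≤ b)
    (hcd : c ≤ d) : ∫ t in a..b, ∫ v in c..d, f t v = ∫ v in c..d, ∫ t in a..b, f t v := by
  rw [intervalIntegral.integral_of_le hab, intervalIntegral.integral_of_le hcd]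
  simp_rw [intervalIntegral.integral_of_le hab, intervalIntegral.integral_of_le hcd]
  refine MeasureTheory.integral_integral_swap ?_
  have h1 : IntegrableOn (Function.uncurry f) (Set.Icc a b ×ˢ Set.Icc c d) (volume.prod volume) := by
    refine hf.continuousOn.integrableOn_compact (isCompact_Icc.prod isCompact_Icc)
  have h2 := h1.mono_set (Set.prod_mono Set.Ioc_subset_Icc_self Set.Ioc_subset_Icc_self)
  rw [IntegrableOn, ← Measure.prod_restrict] at h2
  exact h2

lemma int_cos (l t h : ℝ) (hl : 0 < l) :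
    ∫ v in (0 : ℝ)..h, Real.cos ((t + v) * l) =
      2 * Real.sin (h * l / 2) / l * Real.cos (t * l - (-(h * l / 2))) := by
  have hd : ∀ v ∈ Set.uIcc (0 : ℝ) h, HasDerivAt (fun v : ℝ => Real.sin ((t + v) * l) / l)
      (Real.cos ((t + v) * l)) v := by
    intro v _
    have h1 : HasDerivAt (fun v : ℝ => (t + v) * l) l v := by
      have := ((hasDerivAt_id' v).const_add t).mul_const l
      simpa using this
    have h2 := (h1.sin).div_const l
    refine h2.congr_deriv ?_
    field_simp
  rw [intervalIntegral.integral_eq_sub_of_hasDerivAt hd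
    (Continuous.intervalIntegrable (by fun_prop) _ _)]
  have e1 : Real.sin ((t + h) * l) - Real.sin ((t + 0) * l) =
      2 * Real.sin (h * l / 2) * Real.cos (t * l - (-(h * l / 2))) := by
    rw [Real.sin_sub_sin]
    congr 2
    · congr 1; ring
    · ring
  rw [← sub_div, e1]
  ring

/-- the main part of the explicit formula -/
def Dm (L B : ℝ) (X : ℕ) (t : ℝ) : ℝ :=
  2 / Real.sqrt (2 * Real.pi) * (L * GB B 1 -
    ∑ n ∈ Icc 2 X, ArithmeticFunction.vonMangoldt n / Real.sqrt n *
      GB B n * Real.cos (t * Real.log n))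

lemma Dm_cont (L B : ℝ) (X : ℕ) : Continuous (Dm L B X) := by
  unfold Dm
  fun_prop

lemma int_Dm (L B : ℝ) (X : ℕ) (t h : ℝ) :
    ∫ v in (0 : ℝ)..h, Dm L B X (t + v) = 2 / Real.sqrt (2 * Real.pi) * (h * L * GB B 1 -
      ∑ n ∈ Icc 2 X, ArithmeticFunction.vonMangoldt n / Real.sqrt n * GB B n *
        (2 * Real.sin (h * Real.log n / 2) / Real.log n) *
        Real.cos (t * Real.log n - (-(h * Real.log n / 2)))) := by
  unfold Dm
  rw [intervalIntegral.integral_const_mul, intervalIntegral.integral_sub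
    (Continuous.intervalIntegrable (by fun_prop) _ _)
    (Continuous.intervalIntegrable (by fun_prop) _ _), intervalIntegral.integral_const,
    intervalIntegral.integral_finsetSum (fun n _ =>
      Continuous.intervalIntegrable (by fun_prop) _ _)]
  congr 2
  · rw [sub_zero, smul_eq_mul]; ring
  · refine Finset.sum_congr rfl fun n hn => ?_
    have hn2 : 2 ≤ n := (Finset.mem_Icc.1 hn).1
    have hl : 0 < Real.log n := Real.log_pos (by exact_mod_cast (by omega : 1 < n))
    rw [intervalIntegral.integral_const_mul, int_cos _ _ _ hl]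
    ring

end

end Pool.Agent.Y746.OM
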