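import Pool.Agent.Y746.OM.Asm9
import Pool.Agent.H370R2.Count

set_option autoImplicit false

/-! The remainder term in the Riemann-von Mangoldt formula. -/

namespace Pool.Agent.Y746.OM

open Finset Filter Topology MeasureTheory
open H370 (zset mult NN Zf zz)

noncomputable section

/-- the main term in the Riemann-von Mangoldt formula -/
def mt (t : ℝ) : ℝ := t / (2 * Real.pi) * Real.log (t / (2 * Real.pi)) - t / (2 * Real.pi)

/-- the remainder term -/
def Er (t : ℝ) : ℝ := (NN riemannZeta 1 t : ℝ) - mt t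

lemma mt_step {t : ℝ} (ht : 10 ≤ t) :
    mt (t + 1) - mt t ≤ 1 / (2 * Real.pi) * Real.log (t / (2 * Real.pi)) + 1 := by
  have hpi := Real.pi_pos
  have hpi3 := Real.pi_gt_three
  have hpi4 := Real.pi_lt_d2
  have h2 : 0 < 2 * Real.pi := by positivity
  have ht0 : 0 < t := by linarith
  set k := 1 / (2 * Real.pi) with hk
  have hk0 : 0 < k := by positivity
  have hk1 : k ≤ 1 := by rw [hk, div_le_one h2]; linarith
  have e1 : ∀ x : ℝ, x / (2 * Real.pi) = k * x := fun x => by rw [hk]; ring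
  have hl : Real.log (k * (t + 1)) ≤ Real.log (k * t) + 1 / t := by
    have h3 : k * (t + 1) = k * t * (1 + 1 / t) := by field_simp
    rw [h3, Real.log_mul (by positivity) (by positivity)]
    have := Real.log_le_sub_one_of_pos (show 0 < 1 + 1 / t by positivity)
    linarith
  unfold mt
  rw [e1, e1]
  have h4 : k * (t + 1) * Real.log (k * (t + 1)) ≤ k * (t + 1) * (Real.log (k * t) + 1 / t) :=
    mul_le_mul_of_nonneg_left hl (by positivity)
  have h5 : k * (t + 1) * (1 / t) ≤ 1 * 2 := by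
    have : (t + 1) * (1 / t) ≤ 2 := by
      rw [mul_one_div, div_le_iff₀ ht0]; linarith
    calc k * (t + 1) * (1 / t) = k * ((t + 1) * (1 / t)) := by ring
      _ ≤ 1 * 2 := mul_le_mul hk1 this (by positivity) (by norm_num)
  have h6 : k * (t + 1) * (1 / t) = k + k / t := by field_simp
  have h7 : k / t ≤ 1 := by
    rw [div_le_one ht0]; linarith
  nlinarith

lemma Er_step {t c : ℝ} (ht : 10 ≤ t)
    (h : 1 / (2 * Real.pi) * Real.log (t / (2 * Real.pi)) + c ≤ (NN riemannZeta t (t + 1) : ℝ)) :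
    c - 1 ≤ Er (t + 1) - Er t := by
  have h1 := H370.NN_add H370.good_zeta (show (1 : ℝ) ≤ 1 by norm_num) (show (1 : ℝ) ≤ t by linarith)
    (show t ≤ t + 1 by linarith)
  have h2 := mt_step ht
  unfold Er
  have h3 : (NN riemannZeta 1 (t + 1) : ℝ) = NN riemannZeta 1 t + NN riemannZeta t (t + 1) := by
    rw [h1]; push_cast; ring
  rw [h3]
  linarith

/-- the theorem on the remainder term -/
def S_FIN3 : Prop := ∀ ε : ℝ, 0 < ε → ∃ c T0 : ℝ, 0 < c ∧ 10 ≤ T0 ∧
  ∀ T : ℝ, T0 ≤ T → ENNReal.ofReal (T ^ (1 - ε)) ≤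
    volume {t : ℝ | T ≤ t ∧ t ≤ 3 * T ∧
      c * Real.sqrt (Real.log t / Real.log (Real.log t)) ≤ |Er t|}

theorem fin3 (hfin : S_FIN2) : S_FIN3 := by
  intro ε hε
  obtain ⟨c, C, T1, hc, hC, hT1, h⟩ := hfin 1 (ε / 2) one_pos (by positivity)
  have hll : Tendsto (fun T : ℝ => Real.log (Real.log T)) atTop atTop :=
    Real.tendsto_log_atTop.comp Real.tendsto_log_atTop
  have ev1 := Real.tendsto_log_atTop.eventually
    (asym1 c 2 hc (by norm_num))
  have ev2 := hll.eventually_ge_atTop 1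
  have ev3 : ∀ᶠ T : ℝ in atTop, 2 < T ^ (ε / 2) :=
    (tendsto_rpow_atTop (by positivity)).eventually_gt_atTop 2
  obtain ⟨T5, hT5⟩ := eventually_atTop.1 (ev1.and (ev2.and ev3))
  refine ⟨c / 8, max T1 T5, by positivity, hT1.trans (le_max_left _ _), fun T hT => ?_⟩
  have hTT1 : T1 ≤ T := (le_max_left _ _).trans hT
  have hTT5 : T5 ≤ T := (le_max_right _ _).trans hT
  have hT10 : 10 ≤ T := hT1.trans hTT1
  have hT0 : 0 < T := by linarith
  obtain ⟨-, -, b3⟩ := hT5 T hTT5
  have h1 := (h T hTT1).1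
  set X : Set ℝ := {t : ℝ | T ≤ t ∧ t ≤ 3 * T ∧
      c / 8 * Real.sqrt (Real.log t / Real.log (Real.log t)) ≤ |Er t|} with hX
  have hsub : HiSet 1 c C T ⊆ X ∪ (fun t => t + 1) ⁻¹' X := by
    rintro t ⟨t1, t2, t3, -⟩
    obtain ⟨a1, a2, -⟩ := hT5 t (hTT5.trans t1)
    have ht10 : 10 ≤ t := by linarith
    have h3 := Er_step ht10 t3
    set R := Real.sqrt (Real.log t / Real.log (Real.log t)) with hR
    have hR0 : 0 ≤ R := Real.sqrt_nonneg _
    have h4 : 2 ≤ c * R := by
      have : 0 ≤ 2 * Real.log t ^ (1 / 3 : ℝ) * Real.log (Real.log t) ^ 3 := by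
        have : 0 ≤ Real.log t := Real.log_nonneg (by linarith)
        positivity
      linarith
    have h5 : c / 4 * R ≤ |Er t| ∨ c / 4 * R ≤ |Er (t + 1)| := by
      by_contra hcon
      push Not at hcon
      obtain ⟨q1, q2⟩ := hcon
      have q3 := le_abs_self (Er (t + 1))
      have q4 := neg_abs_le (Er t)
      linarith
    rcases h5 with h5 | h5
    · left
      refine ⟨t1, by linarith, le_trans ?_ h5⟩
      have : 0 ≤ c * R := by positivity
      linarith
    · right
      refine ⟨by linarith, by linarith, le_trans ?_ h5⟩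
      have := dev_le ht10 a2 (show t ≤ t + 1 by linarith) (show t + 1 ≤ 2 * t by linarith)
      calc c / 8 * Real.sqrt (Real.log (t + 1) / Real.log (Real.log (t + 1))) ≤
          c / 8 * (2 * R) := by gcongr
        _ = c / 4 * R := by ring
  have h2 : ENNReal.ofReal (T ^ (1 - ε / 2)) ≤ 2 * volume X := by
    refine h1.trans ((measure_mono hsub).trans ((measure_union_le _ _).trans ?_))
    rw [measure_preimage_add_right, two_mul]
  by_contra hcon
  push Not at hcon
  have h3 : ENNReal.ofReal (T ^ (1 - ε / 2)) ≤ ENNReal.ofReal (2 * T ^ (1 - ε)) := by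
    refine h2.trans ?_
    rw [ENNReal.ofReal_mul (by norm_num), ENNReal.ofReal_ofNat]
    exact mul_le_mul_right hcon.le _
  rw [ENNReal.ofReal_le_ofReal_iff (by positivity)] at h3
  have e : T ^ (1 - ε / 2) = T ^ (ε / 2) * T ^ (1 - ε) := by
    rw [← Real.rpow_add hT0]; congr 1; ring
  rw [e] at h3
  have := le_of_mul_le_mul_right h3 (by positivity)
  linarith

end

end Pool.Agent.Y746.OM
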