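import Pool.Agent.Y746.OM.Asm1

set_option autoImplicit false

/-! Assembly, part 2: the average of the main part. -/

namespace Pool.Agent.Y746.OM

open Finset Filter Topology MeasureTheory
open H370 (zset mult NN Zf zz)

noncomputable section

/-- the coefficients of the integrated prime sum -/
def cn (B h : ℝ) (n : ℕ) : ℝ := ArithmeticFunction.vonMangoldt n / Real.sqrt n * GB B n *
  (2 * Real.sin (h * Real.log n / 2) / Real.log n)

lemma cn_le {B : ℝ} (hG : ∀ n : ℕ, 0 ≤ GB B n ∧ GB B n ≤ 3) (h : ℝ) {n : ℕ} (hn : 2 ≤ n) :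
    |cn B h n| ≤ 6 := by
  unfold cn
  have hl : 0 < Real.log n := Real.log_pos (by exact_mod_cast (by omega : 1 < n))
  have h1 := ArithmeticFunction.vonMangoldt_le_log (n := n)
  have h0 : 0 ≤ ArithmeticFunction.vonMangoldt n := ArithmeticFunction.vonMangoldt_nonneg
  have hs : 1 ≤ Real.sqrt n := by
    rw [Real.one_le_sqrt]; exact_mod_cast (by omega : 1 ≤ n)
  rw [abs_mul, abs_mul, abs_div, abs_div, abs_mul, abs_of_nonneg h0, abs_of_pos hl,
    abs_of_nonneg (hG n).1, abs_of_pos (by linarith : 0 < Real.sqrt n), abs_two]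
  have hsin := Real.abs_sin_le_one (h * Real.log n / 2)
  calc ArithmeticFunction.vonMangoldt n / Real.sqrt n * GB B n *
      (2 * |Real.sin (h * Real.log n / 2)| / Real.log n) ≤
      Real.log n / 1 * 3 * (2 * 1 / Real.log n) := by
        have := (hG n).1
        have := (hG n).2
        gcongr
    _ = 6 := by field_simp; norm_num

lemma cn_prime {B h : ℝ} {p : ℕ} (hp : p.Prime) :
    cn B h p = 1 / Real.sqrt p * GB B p * (2 * Real.sin (h * Real.log p / 2)) := by
  unfold cn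
  have hl : 0 < Real.log p := Real.log_pos (by exact_mod_cast hp.one_lt)
  rw [ArithmeticFunction.vonMangoldt_apply_prime hp]
  field_simp

lemma N0_nonneg (P : Finset ℕ) (r : ℕ → ℝ) (Q : ℝ) : 0 ≤ N0 P r Q :=
  Finset.sum_nonneg fun S _ => Finset.prod_nonneg fun p _ => by positivity

lemma N1_nonneg (P : Finset ℕ) (r : ℕ → ℝ) (Q : ℝ) (p : ℕ) : 0 ≤ N1 P r Q p :=
  Finset.sum_nonneg fun S _ => Finset.prod_nonneg fun p _ => by positivity

open Classical in
theorem avgJ (hPR : S_PR) (P : Finset ℕ) (r φ : ℕ → ℝ) (Q : ℝ) (hP : ∀ p ∈ P, p.Prime)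
    (hr : ∀ p ∈ P, 0 ≤ r p) (hQ : 1 ≤ Q) {A B' : ℝ} (hAB : A ≤ B') (L B h : ℝ) (X : ℕ)
    (hG : ∀ n : ℕ, 0 ≤ GB B n ∧ GB B n ≤ 3) (hPX : ∀ p ∈ P, p ≤ X) :
    |(∫ t in A..B', ‖RS P Q (yc r φ) ((t : ℂ) * Complex.I)‖ ^ 2 *
        ∫ v in (0 : ℝ)..h, Dm L B X (t + v)) - 2 / Real.sqrt (2 * Real.pi) *
      (h * L * GB B 1 * (∫ t in A..B', ‖RS P Q (yc r φ) ((t : ℂ) * Complex.I)‖ ^ 2) -
        (B' - A) * ∑ p ∈ P, 1 / Real.sqrt p * GB B p * (2 * Real.sin (h * Real.log p / 2)) *
          (r p * Real.cos (φ p + h * Real.log p / 2) * N1 P r Q p))| ≤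
      2 / Real.sqrt (2 * Real.pi) * (12 * (X : ℝ) ^ 2 * Q ^ 2 * N0 P r Q) := by
  set W : ℝ → ℝ := fun t => ‖RS P Q (yc r φ) ((t : ℂ) * Complex.I)‖ ^ 2 with hW
  have hWc : Continuous W := W_cont P Q _ hP
  have hN0 := N0_nonneg P r Q
  obtain ⟨-, hpr⟩ := hPR P r φ Q A B' hP hr hQ hAB
  have e0 : ∀ t : ℝ, W t * ∫ v in (0 : ℝ)..h, Dm L B X (t + v) =
      2 / Real.sqrt (2 * Real.pi) * (h * L * GB B 1 * W t - ∑ n ∈ Icc 2 X,
        cn B h n * (W t * Real.cos (t * Real.log n - (-(h * Real.log n / 2))))) := by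
    intro t
    rw [int_Dm]
    have : ∑ n ∈ Icc 2 X, cn B h n * (W t * Real.cos (t * Real.log n - (-(h * Real.log n / 2)))) =
        W t * ∑ n ∈ Icc 2 X, ArithmeticFunction.vonMangoldt n / Real.sqrt n * GB B n *
        (2 * Real.sin (h * Real.log n / 2) / Real.log n) *
        Real.cos (t * Real.log n - (-(h * Real.log n / 2))) := by
      rw [Finset.mul_sum]
      refine Finset.sum_congr rfl fun n _ => ?_
      unfold cn
      ring
    rw [this]
    ring
  have e1 : ∫ t in A..B', W t * ∫ v in (0 : ℝ)..h, Dm L B X (t + v) =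
      2 / Real.sqrt (2 * Real.pi) * (h * L * GB B 1 * (∫ t in A..B', W t) - ∑ n ∈ Icc 2 X,
        cn B h n * ∫ t in A..B', W t * Real.cos (t * Real.log n - (-(h * Real.log n / 2)))) := by
    simp_rw [e0]
    rw [intervalIntegral.integral_const_mul, intervalIntegral.integral_sub
      (Continuous.intervalIntegrable (by fun_prop) _ _)
      (Continuous.intervalIntegrable (by fun_prop) _ _), intervalIntegral.integral_const_mul,
      intervalIntegral.integral_finsetSum (fun n _ =>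
        Continuous.intervalIntegrable (by fun_prop) _ _)]
    congr 2
    refine Finset.sum_congr rfl fun n _ => ?_
    rw [intervalIntegral.integral_const_mul]
  rw [e1, ← mul_sub, abs_mul, abs_of_nonneg (by positivity : 0 ≤ 2 / Real.sqrt (2 * Real.pi))]
  apply mul_le_mul_of_nonneg_left _ (by positivity)
  -- the resonant terms
  have hsub : P ⊆ Icc 2 X := by
    intro p hp
    rw [Finset.mem_Icc]
    exact ⟨(hP p hp).two_le, hPX p hp⟩
  have e2 : (B' - A) * ∑ p ∈ P, 1 / Real.sqrt p * GB B p * (2 * Real.sin (h * Real.log p / 2)) *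
          (r p * Real.cos (φ p + h * Real.log p / 2) * N1 P r Q p) =
      ∑ n ∈ Icc 2 X, cn B h n * (if n ∈ P then (B' - A) *
        (r n * Real.cos (φ n - (-(h * Real.log n / 2))) * N1 P r Q n) else 0) := by
    rw [← Finset.sum_subset hsub (fun n _ hn => by rw [if_neg hn, mul_zero]), Finset.mul_sum]
    refine Finset.sum_congr rfl fun p hp => ?_
    rw [if_pos hp, cn_prime (hP p hp), sub_neg_eq_add]
    ring
  have e3 : h * L * GB B 1 * (∫ t in A..B', W t) - ∑ n ∈ Icc 2 X,
        cn B h n * (∫ t in A..B', W t * Real.cos (t * Real.log n - (-(h * Real.log n / 2)))) -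
      (h * L * GB B 1 * (∫ t in A..B', W t) - (B' - A) * ∑ p ∈ P, 1 / Real.sqrt p * GB B p *
        (2 * Real.sin (h * Real.log p / 2)) *
          (r p * Real.cos (φ p + h * Real.log p / 2) * N1 P r Q p)) =
      - ∑ n ∈ Icc 2 X, cn B h n * ((∫ t in A..B', W t *
        Real.cos (t * Real.log n - (-(h * Real.log n / 2)))) - (if n ∈ P then (B' - A) *
        (r n * Real.cos (φ n - (-(h * Real.log n / 2))) * N1 P r Q n) else 0)) := by
    rw [e2]
    simp_rw [mul_sub, Finset.sum_sub_distrib]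
    ring
  rw [e3, abs_neg]
  refine (Finset.abs_sum_le_sum_abs _ _).trans ?_
  have hterm : ∀ n ∈ Icc 2 X, |cn B h n * ((∫ t in A..B', W t *
        Real.cos (t * Real.log n - (-(h * Real.log n / 2)))) - (if n ∈ P then (B' - A) *
        (r n * Real.cos (φ n - (-(h * Real.log n / 2))) * N1 P r Q n) else 0))| ≤
      12 * X * Q ^ 2 * N0 P r Q := by
    intro n hn
    rw [Finset.mem_Icc] at hn
    rw [abs_mul]
    by_cases hpp : IsPrimePow n
    · have h1 := hpr n (-(h * Real.log n / 2)) hpp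
      have h2 := cn_le hG h hn.1
      have hnX : (n : ℝ) ≤ X := by exact_mod_cast hn.2
      calc |cn B h n| * |_| ≤ 6 * (2 * n * Q ^ 2 * N0 P r Q) :=
            mul_le_mul h2 h1 (abs_nonneg _) (by norm_num)
        _ ≤ 6 * (2 * X * Q ^ 2 * N0 P r Q) := by gcongr
        _ = _ := by ring
    · have h1 : ArithmeticFunction.vonMangoldt n = 0 := by
        by_contra hc
        exact hpp (ArithmeticFunction.vonMangoldt_ne_zero_iff.1 hc)
      have h2 : cn B h n = 0 := by
        unfold cn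
        rw [h1]; simp
      rw [h2, abs_zero, zero_mul]
      positivity
  refine (Finset.sum_le_sum hterm).trans ?_
  rw [Finset.sum_const, nsmul_eq_mul, Nat.card_Icc]
  have h1 : ((X + 1 - 2 : ℕ) : ℝ) ≤ X := by exact_mod_cast (by omega : X + 1 - 2 ≤ X)
  calc ((X + 1 - 2 : ℕ) : ℝ) * (12 * X * Q ^ 2 * N0 P r Q) ≤ X * (12 * X * Q ^ 2 * N0 P r Q) := by
        gcongr
    _ = _ := by ring

end

end Pool.Agent.Y746.OM
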