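import Pool.Agent.Y746.OM.Asm2
import Pool.Agent.H370R2.DirGood

set_option autoImplicit false

/-! Assembly, part 3: comparison of averages, asymptotics. -/

namespace Pool.Agent.Y746.OM

open Finset Filter Topology MeasureTheory
open H370 (zset mult NN Zf zz)

noncomputable section

/-- comparison of two averages -/
lemma cmpI {W F D Z : ℝ → ℝ} (hW : Continuous W) (hF : Continuous F) (hD : Continuous D)
    (hZ : Continuous Z) (hW0 : ∀ t, 0 ≤ W t) {A B h K1 K2 Bd : ℝ} (hAB : A ≤ B) (hh : 0 ≤ h)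
    (hK2 : 0 ≤ K2) (hFD : ∀ t, A ≤ t → t ≤ B + h → |F t - D t| ≤ K1 + K2 * Z t)
    (hBd : ∀ v, 0 ≤ v → v ≤ h → ∫ t in A..B, W t * Z (t + v) ≤ Bd) :
    |(∫ t in A..B, W t * ∫ v in (0 : ℝ)..h, F (t + v)) -
      ∫ t in A..B, W t * ∫ v in (0 : ℝ)..h, D (t + v)| ≤
      K1 * h * (∫ t in A..B, W t) + K2 * (h * Bd) := by
  have hFc : Continuous fun t : ℝ => ∫ v in (0 : ℝ)..h, F (t + v) :=
    intervalIntegral.continuous_parametric_intervalIntegral_of_continuous' (by fun_prop) _ _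
  have hDc : Continuous fun t : ℝ => ∫ v in (0 : ℝ)..h, D (t + v) :=
    intervalIntegral.continuous_parametric_intervalIntegral_of_continuous' (by fun_prop) _ _
  have hZc : Continuous fun t : ℝ => ∫ v in (0 : ℝ)..h, Z (t + v) :=
    intervalIntegral.continuous_parametric_intervalIntegral_of_continuous' (by fun_prop) _ _
  have hWF : Continuous fun t : ℝ => W t * ∫ v in (0 : ℝ)..h, F (t + v) := hW.mul hFc
  have hWD : Continuous fun t : ℝ => W t * ∫ v in (0 : ℝ)..h, D (t + v) := hW.mul hDc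
  have hWZ : Continuous fun t : ℝ => W t * ∫ v in (0 : ℝ)..h, Z (t + v) := hW.mul hZc
  rw [← intervalIntegral.integral_sub (hWF.intervalIntegrable _ _)
    (hWD.intervalIntegrable _ _)]
  have hpt : ∀ t, A ≤ t → t ≤ B → |(∫ v in (0 : ℝ)..h, F (t + v)) - ∫ v in (0 : ℝ)..h, D (t + v)| ≤
      K1 * h + K2 * ∫ v in (0 : ℝ)..h, Z (t + v) := by
    intro t h1 h2
    rw [← intervalIntegral.integral_sub (Continuous.intervalIntegrable (by fun_prop) _ _)
      (Continuous.intervalIntegrable (by fun_prop) _ _)]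
    refine (intervalIntegral.abs_integral_le_integral_abs hh).trans ?_
    have e : K1 * h + K2 * ∫ v in (0 : ℝ)..h, Z (t + v) =
        ∫ v in (0 : ℝ)..h, (K1 + K2 * Z (t + v)) := by
      rw [intervalIntegral.integral_add (Continuous.intervalIntegrable (by fun_prop) _ _)
        (Continuous.intervalIntegrable (by fun_prop) _ _), intervalIntegral.integral_const,
        intervalIntegral.integral_const_mul, sub_zero, smul_eq_mul]
      ring
    rw [e]
    refine intervalIntegral.integral_mono_on hh (Continuous.intervalIntegrable (by fun_prop) _ _)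
      (Continuous.intervalIntegrable (by fun_prop) _ _) fun v hv => ?_
    exact hFD _ (by linarith [hv.1]) (by linarith [hv.2])
  refine (intervalIntegral.abs_integral_le_integral_abs hAB).trans ?_
  calc ∫ t in A..B, |(W t * ∫ v in (0 : ℝ)..h, F (t + v)) - W t * ∫ v in (0 : ℝ)..h, D (t + v)| ≤
      ∫ t in A..B, (K1 * h * W t + K2 * (W t * ∫ v in (0 : ℝ)..h, Z (t + v))) := by
        refine intervalIntegral.integral_mono_on hAB
          ((hWF.sub hWD).abs.intervalIntegrable _ _)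
          (((continuous_const.mul hW).add (continuous_const.mul hWZ)).intervalIntegrable _ _)
          fun t ht => ?_
        rw [← mul_sub, abs_mul, abs_of_nonneg (hW0 t)]
        have := mul_le_mul_of_nonneg_left (hpt t ht.1 ht.2) (hW0 t)
        refine this.trans (le_of_eq ?_)
        ring
    _ = K1 * h * (∫ t in A..B, W t) + K2 * ∫ t in A..B, W t * ∫ v in (0 : ℝ)..h, Z (t + v) := by
        have c1 : Continuous fun t : ℝ => K1 * h * W t := continuous_const.mul hW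
        have c2 : Continuous fun t : ℝ => K2 * (W t * ∫ v in (0 : ℝ)..h, Z (t + v)) :=
          continuous_const.mul hWZ
        rw [intervalIntegral.integral_add (c1.intervalIntegrable _ _) (c2.intervalIntegrable _ _),
          intervalIntegral.integral_const_mul, intervalIntegral.integral_const_mul]
    _ ≤ K1 * h * (∫ t in A..B, W t) + K2 * (h * Bd) := by
        gcongr
        have e1 : ∫ t in A..B, W t * ∫ v in (0 : ℝ)..h, Z (t + v) =
            ∫ t in A..B, ∫ v in (0 : ℝ)..h, W t * Z (t + v) := by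
          refine intervalIntegral.integral_congr fun t _ => ?_
          rw [intervalIntegral.integral_const_mul]
        rw [e1, fub (by fun_prop) hAB hh]
        have hc : Continuous fun v : ℝ => ∫ t in A..B, W t * Z (t + v) :=
          intervalIntegral.continuous_parametric_intervalIntegral_of_continuous' (by fun_prop) _ _
        calc ∫ v in (0 : ℝ)..h, ∫ t in A..B, W t * Z (t + v) ≤ ∫ v in (0 : ℝ)..h, Bd := by
              refine intervalIntegral.integral_mono_on hh (hc.intervalIntegrable _ _)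
                (continuous_const.intervalIntegrable _ _) fun v hv => hBd v hv.1 hv.2
          _ = h * Bd := by
              rw [intervalIntegral.integral_const, sub_zero, smul_eq_mul]

/-- a point where a weighted average is exceeded -/
lemma ex_pt {W G : ℝ → ℝ} (hW : Continuous W) (hG : Continuous G) (hW0 : ∀ t, 0 ≤ W t) {A B c : ℝ}
    (hAB : A ≤ B) (h : c * (∫ t in A..B, W t) < ∫ t in A..B, W t * G t) :
    ∃ t, A ≤ t ∧ t ≤ B ∧ c < G t := by
  by_contra hcon
  push Not at hcon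
  have : ∫ t in A..B, W t * G t ≤ ∫ t in A..B, c * W t := by
    refine intervalIntegral.integral_mono_on hAB ((hW.mul hG).intervalIntegrable _ _)
      ((continuous_const.mul hW).intervalIntegrable _ _) fun t ht => ?_
    rw [mul_comm c]
    exact mul_le_mul_of_nonneg_left (hcon t ht.1 ht.2) (hW0 t)
  rw [intervalIntegral.integral_const_mul] at this
  linarith

/-- the weighted sum over the zeros off the line -/
def ZZ (T t : ℝ) : ℝ := ∑ s ∈ (Zf riemannZeta T (2 * T)).filter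
        (fun s => (Real.log T) ^ (-(1 / 3) : ℝ) ≤ |s.re - 1 / 2|),
        (mult riemannZeta s : ℝ) * Real.exp (-(s.im - t) ^ 2 / 2)

lemma ZZ_cont (T : ℝ) : Continuous (ZZ T) := by
  unfold ZZ; fun_prop

lemma ZZ_nonneg (T t : ℝ) : 0 ≤ ZZ T t :=
  Finset.sum_nonneg fun s _ => by positivity

lemma norm_yc {P : Finset ℕ} (r φ : ℕ → ℝ) (hr : ∀ p ∈ P, 0 ≤ r p) {S : Finset ℕ} (hS : S ⊆ P) :
    ‖yc r φ S‖ = ∏ p ∈ S, r p := by
  unfold yc
  rw [norm_prod]
  refine Finset.prod_congr rfl fun p hp => ?_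
  rw [norm_mul, Complex.norm_real, Real.norm_of_nonneg (hr p (hS hp)), Complex.norm_exp_ofReal_mul_I,
    mul_one]

lemma FS_sub {P : Finset ℕ} {Q : ℝ} {S : Finset ℕ} (hS : S ∈ FS P Q) : S ⊆ P := by
  unfold FS at hS
  exact (Finset.mem_powerset.1 (Finset.mem_filter.1 hS).1)

lemma farW {c C T : ℝ} (hT : 0 ≤ T)
    (hF : ∀ (P : Finset ℕ) (r : ℕ → ℝ) (Q : ℝ) (y : Finset ℕ → ℂ),
      (∀ p ∈ P, p.Prime) → (∀ p ∈ P, 0 ≤ r p) → 1 ≤ Q → Q ≤ T ^ c →
      (∀ S ∈ FS P Q, ‖y S‖ ≤ ∏ p ∈ S, r p) →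
      ∫ t in T..(2 * T), ‖RS P Q y ((t : ℂ) * Complex.I)‖ ^ 2 * ZZ T t ≤ C * EP P r)
    {P : Finset ℕ} {r φ : ℕ → ℝ} {Q : ℝ} (hP : ∀ p ∈ P, p.Prime) (hr : ∀ p ∈ P, 0 ≤ r p)
    (hQ : 1 ≤ Q) (hQT : Q ≤ T ^ c) {A B v : ℝ} (h1 : T ≤ A + v) (h2 : A ≤ B) (h3 : B + v ≤ 2 * T) :
    ∫ t in A..B, ‖RS P Q (yc r φ) ((t : ℂ) * Complex.I)‖ ^ 2 * ZZ T (t + v) ≤ C * EP P r := by
  set y' : Finset ℕ → ℂ := fun S => yc r φ S * ((qS S : ℕ) : ℂ) ^ ((v : ℂ) * Complex.I) with hy'
  have hy1 : ∀ S ∈ FS P Q, ‖y' S‖ ≤ ∏ p ∈ S, r p := by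
    intro S hS
    have hSP := FS_sub hS
    have hq : qS S ≠ 0 := by
      unfold qS
      rw [Finset.prod_ne_zero_iff]
      intro p hp
      exact (hP p (hSP hp)).ne_zero
    rw [hy', norm_mul, norm_qI _ hq, mul_one, norm_yc r φ hr hSP]
  have h4 := hF P r Q y' hP hr hQ hQT hy1
  refine le_trans ?_ h4
  have hc : Continuous fun t : ℝ => ‖RS P Q y' ((t : ℂ) * Complex.I)‖ ^ 2 * ZZ T t :=
    (W_cont P Q y' hP).mul (ZZ_cont T)
  have e1 : ∫ t in A..B, ‖RS P Q (yc r φ) ((t : ℂ) * Complex.I)‖ ^ 2 * ZZ T (t + v) =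
      ∫ t in (A + v)..(B + v), ‖RS P Q y' ((t : ℂ) * Complex.I)‖ ^ 2 * ZZ T t := by
    rw [← intervalIntegral.integral_comp_add_right (fun t : ℝ =>
      ‖RS P Q y' ((t : ℂ) * Complex.I)‖ ^ 2 * ZZ T t) v]
    refine intervalIntegral.integral_congr fun t _ => ?_
    have := RS_shift P Q (yc r φ) hP (t + v) v
    rw [add_sub_cancel_right] at this
    rw [this]
  rw [e1]
  exact intervalIntegral.integral_mono_interval h1 (by linarith) h3
    (Eventually.of_forall fun t => mul_nonneg (by positivity) (ZZ_nonneg T t))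
    (hc.intervalIntegrable _ _)

lemma asym1 (c C : ℝ) (hc : 0 < c) (hC : 0 < C) : ∀ᶠ x : ℝ in atTop,
    C + C * x ^ (1 / 3 : ℝ) * (Real.log x) ^ 3 ≤ c * Real.sqrt (x / Real.log x) := by
  have h1 : (fun x : ℝ => Real.log x ^ (4 : ℝ)) =o[atTop] fun x => x ^ (1 / 6 : ℝ) :=
    isLittleO_log_rpow_rpow_atTop 4 (by norm_num)
  have h2 := h1.bound (show (0 : ℝ) < c / (2 * C) by positivity)
  have h3 := Real.tendsto_log_atTop.eventually_ge_atTop 1
  filter_upwards [h2, h3, eventually_ge_atTop 1] with x hx hl hx1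
  have hx0 : 0 < x := by linarith
  rw [Real.norm_of_nonneg (by positivity), Real.norm_of_nonneg (by positivity)] at hx
  have e4 : Real.log x ^ (4 : ℝ) = Real.log x ^ 4 := by
    rw [← Real.rpow_natCast]; norm_num
  rw [e4] at hx
  set l := Real.log x with hl'
  have hl0 : 0 < l := by linarith
  have hs : Real.sqrt x / l ≤ Real.sqrt (x / l) := by
    rw [Real.sqrt_div hx0.le]
    apply div_le_div_of_nonneg_left (Real.sqrt_nonneg _) (Real.sqrt_pos.2 hl0)
    rw [Real.sqrt_le_left hl0.le]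
    nlinarith
  have h5 : (1 : ℝ) ≤ x ^ (1 / 3 : ℝ) * l ^ 3 := by
    have a1 : (1 : ℝ) ≤ x ^ (1 / 3 : ℝ) := Real.one_le_rpow hx1 (by norm_num)
    have a2 : (1 : ℝ) ≤ l ^ 3 := one_le_pow₀ hl
    nlinarith
  have h6 : x ^ (1 / 3 : ℝ) * x ^ (1 / 6 : ℝ) = Real.sqrt x := by
    rw [← Real.rpow_add hx0, Real.sqrt_eq_rpow]; norm_num
  calc C + C * x ^ (1 / 3 : ℝ) * l ^ 3 ≤ 2 * C * (x ^ (1 / 3 : ℝ) * l ^ 3) := by nlinarith
    _ = 2 * C * x ^ (1 / 3 : ℝ) * l ^ 4 / l := by field_simp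
    _ ≤ 2 * C * x ^ (1 / 3 : ℝ) * (c / (2 * C) * x ^ (1 / 6 : ℝ)) / l := by gcongr
    _ = c * (x ^ (1 / 3 : ℝ) * x ^ (1 / 6 : ℝ) / l) := by field_simp
    _ = c * (Real.sqrt x / l) := by rw [h6]
    _ ≤ _ := mul_le_mul_of_nonneg_left hs hc.le

lemma isLittleO_rpow_rpow_half : (fun x : ℝ => x ^ (1 / 2 : ℝ)) =o[atTop]
    fun x => x ^ (2 / 3 : ℝ) := by
  rw [Asymptotics.isLittleO_iff_tendsto' (by
    filter_upwards [eventually_gt_atTop 0] with x hx h0
    exact absurd h0 (by positivity))]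
  have h1 : Tendsto (fun x : ℝ => x ^ (-(1 / 6) : ℝ)) atTop (𝓝 0) :=
    tendsto_rpow_neg_atTop (by norm_num)
  refine h1.congr' ?_
  filter_upwards [eventually_gt_atTop 0] with x hx
  rw [← Real.rpow_sub hx]
  norm_num

lemma asym2 (K c C C1 : ℝ) (hK : 0 < K) (hc : 0 < c) (hC : 0 < C) (hC1 : 0 < C1) :
    ∀ᶠ x : ℝ in atTop,
    K * x ^ 5 * x ^ C * Real.exp (-(c * x ^ (2 / 3 : ℝ))) * Real.exp (C1 * Real.sqrt x) ≤ 1 := by
  have h1 : (fun x : ℝ => Real.log x ^ (1 : ℝ)) =o[atTop] fun x => x ^ (2 / 3 : ℝ) :=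
    isLittleO_log_rpow_rpow_atTop 1 (by norm_num)
  have h2 := h1.bound (show (0 : ℝ) < c / (3 * (5 + C)) by positivity)
  have h3 : (fun x : ℝ => x ^ (1 / 2 : ℝ)) =o[atTop] fun x => x ^ (2 / 3 : ℝ) :=
    isLittleO_rpow_rpow_half
  have h4 := h3.bound (show (0 : ℝ) < c / (3 * C1) by positivity)
  have h5 : Tendsto (fun x : ℝ => x ^ (2 / 3 : ℝ)) atTop atTop := tendsto_rpow_atTop (by norm_num)
  have h6 := h5.eventually_ge_atTop (3 * |Real.log K| / c)
  filter_upwards [h2, h4, h6, eventually_ge_atTop 1] with x hx hy hz hx1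
  have hx0 : 0 < x := by linarith
  have hl0 : 0 ≤ Real.log x := Real.log_nonneg hx1
  rw [Real.rpow_one, Real.norm_of_nonneg hl0, Real.norm_of_nonneg (by positivity)] at hx
  rw [Real.norm_of_nonneg (by positivity), Real.norm_of_nonneg (by positivity),
    ← Real.sqrt_eq_rpow] at hy
  have e1 : K * x ^ 5 * x ^ C * Real.exp (-(c * x ^ (2 / 3 : ℝ))) * Real.exp (C1 * Real.sqrt x) =
      Real.exp (Real.log K + (5 + C) * Real.log x - c * x ^ (2 / 3 : ℝ) + C1 * Real.sqrt x) := by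
    have a1 : K = Real.exp (Real.log K) := (Real.exp_log hK).symm
    have a2 : x ^ 5 * x ^ C = Real.exp ((5 + C) * Real.log x) := by
      rw [← Real.rpow_natCast x 5, ← Real.rpow_add hx0, Real.rpow_def_of_pos hx0]
      congr 1; push_cast; ring
    calc K * x ^ 5 * x ^ C * Real.exp (-(c * x ^ (2 / 3 : ℝ))) * Real.exp (C1 * Real.sqrt x) =
        K * (x ^ 5 * x ^ C) * Real.exp (-(c * x ^ (2 / 3 : ℝ))) * Real.exp (C1 * Real.sqrt x) := by
          ring
      _ = Real.exp (Real.log K) * Real.exp ((5 + C) * Real.log x) *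
          Real.exp (-(c * x ^ (2 / 3 : ℝ))) * Real.exp (C1 * Real.sqrt x) := by rw [a2, ← a1]
      _ = _ := by
          rw [← Real.exp_add, ← Real.exp_add, ← Real.exp_add]
          congr 1
  rw [e1, Real.exp_le_one_iff]
  have b1 : (5 + C) * Real.log x ≤ c / 3 * x ^ (2 / 3 : ℝ) := by
    calc (5 + C) * Real.log x ≤ (5 + C) * (c / (3 * (5 + C)) * x ^ (2 / 3 : ℝ)) := by gcongr
      _ = _ := by field_simp
  have b2 : C1 * Real.sqrt x ≤ c / 3 * x ^ (2 / 3 : ℝ) := by
    calc C1 * Real.sqrt x ≤ C1 * (c / (3 * C1) * x ^ (2 / 3 : ℝ)) := by gcongr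
      _ = _ := by field_simp
  have b3 : Real.log K ≤ c / 3 * x ^ (2 / 3 : ℝ) := by
    refine (le_abs_self _).trans ?_
    rw [div_le_iff₀ hc] at hz
    linarith
  linarith

end

end Pool.Agent.Y746.OM
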