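import Pool.Agent.Y746.OM.Asm3

set_option autoImplicit false

/-! Assembly, part 4: the weighted average of the sums over zeros. -/

namespace Pool.Agent.Y746.OM

open Finset Filter Topology MeasureTheory
open H370 (zset mult NN Zf zz)

noncomputable section

/-- the sum over the ordinates of the zeros -/
def FF (U1 U2 B t : ℝ) : ℝ :=
  ∑ s ∈ Zf riemannZeta U1 U2, (mult riemannZeta s : ℝ) * KR B (s.im - t)

lemma FF_cont {U1 U2 B : ℝ} (hK : Continuous (KR B)) : Continuous (FF U1 U2 B) := by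
  unfold FF
  fun_prop

open Classical in
/-- the phases -/
def ph (h ε : ℝ) (p : ℕ) : ℝ :=
  if 0 ≤ ε * Real.sin (h * Real.log p / 2) then Real.pi - h * Real.log p / 2
  else - (h * Real.log p / 2)

lemma ph_spec {h ε : ℝ} (hε : ε = 1 ∨ ε = -1) (p : ℕ) :
    Real.sin (h * Real.log p / 2) * Real.cos (ph h ε p + h * Real.log p / 2) =
      -(ε * |Real.sin (h * Real.log p / 2)|) := by
  have hε2 : ε * ε = 1 := by rcases hε with h | h <;> rw [h] <;> norm_num
  have habs : |Real.sin (h * Real.log p / 2)| = |ε * Real.sin (h * Real.log p / 2)| := by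
    rw [abs_mul]
    rcases hε with h | h <;> rw [h] <;> norm_num
  unfold ph
  split_ifs with hc
  · rw [sub_add_cancel, Real.cos_pi, habs, abs_of_nonneg hc]
    linear_combination (Real.sin (h * Real.log p / 2)) * hε2
  · rw [neg_add_cancel, Real.cos_zero, habs, abs_of_neg (not_le.1 hc)]
    linear_combination (-Real.sin (h * Real.log p / 2)) * hε2

lemma N0_ge_one {P : Finset ℕ} {r : ℕ → ℝ} {Q : ℝ} (hQ : 1 ≤ Q) : 1 ≤ N0 P r Q := by
  unfold N0
  have h0 : (∅ : Finset ℕ) ∈ FS P Q := by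
    unfold FS
    rw [Finset.mem_filter]
    refine ⟨Finset.empty_mem_powerset P, ?_⟩
    unfold qS
    simpa using hQ
  have := Finset.single_le_sum (f := fun S : Finset ℕ => ∏ p ∈ S, r p ^ 2)
    (fun S _ => Finset.prod_nonneg fun p _ => by positivity) h0
  simpa using this

lemma IW_le {IW len N Q2 T : ℝ} (h1 : IW - len * N ≤ 2 * Q2 * N) (h2 : len ≤ T) (h3 : 2 * Q2 ≤ T)
    (h4 : 0 ≤ N) : IW ≤ 2 * T * N := by
  have a1 := mul_le_mul_of_nonneg_right h2 h4
  have a2 := mul_le_mul_of_nonneg_right h3 h4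
  linarith

/-- the numerical part -/
lemma key_num {ε II J IW κL pre MM SP N0v len T c1 R K1 K2 h Bd X2 G S : ℝ}
    (hε : ε = 1 ∨ ε = -1) (hcomp : |II - J| ≤ K1 * h * IW + K2 * (h * Bd))
    (hJ : |J - pre * (MM * IW - len * SP)| ≤ pre * (12 * X2 * N0v))
    (hκ : κL = pre * MM) (hSP : ε * SP ≤ -(1 / 5) * S) (hS : c1 * R * N0v ≤ S)
    (hpre1 : 3 / 4 ≤ pre) (hpre2 : pre ≤ 1) (hlen : T / 2 ≤ len) (hT : 0 < T)
    (hN : 1 ≤ N0v) (hIW : IW ≤ 2 * T * N0v) (hX : 12 * X2 ≤ T) (hc1 : 0 < c1) (hR : 0 ≤ R)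
    (hIW0 : 0 ≤ IW) (hK1 : 0 ≤ K1) (hh : 0 < h)
    (hBd : K2 * (h * Bd) ≤ T * N0v)
    (hfin : 2 * h * K1 + 2 < c1 / 50 * R) (hG : G = 0) :
    c1 / 100 * R * IW < ε * (II - κL * IW) := by
  have hN0 : 0 < N0v := by linarith
  have hTN : 0 < T * N0v := by positivity
  -- the main term
  have h1 : pre * (len * (1 / 5 * S)) ≤ ε * (pre * (MM * IW - len * SP)) - ε * (κL * IW) := by
    rw [hκ]
    have : ε * (pre * (MM * IW - len * SP)) - ε * (pre * MM * IW) = pre * (len * (-(ε * SP))) := by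
      ring
    rw [this]
    have hl : 0 ≤ len := by linarith
    have : 1 / 5 * S ≤ -(ε * SP) := by linarith
    exact mul_le_mul_of_nonneg_left (mul_le_mul_of_nonneg_left this hl) (by linarith)
  have hS0 : 0 ≤ S := le_trans (by positivity) hS
  have h2 : 3 / 40 * (c1 * R) * (T * N0v) ≤ pre * (len * (1 / 5 * S)) := by
    calc 3 / 40 * (c1 * R) * (T * N0v) = 3 / 4 * (T / 2 * (1 / 5 * (c1 * R * N0v))) := by ring
      _ ≤ pre * (len * (1 / 5 * S)) := by
          have hl : 0 ≤ len := by linarith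
          gcongr
  have h3 : -(K1 * h * IW + K2 * (h * Bd)) ≤ ε * (II - J) := by
    have := abs_le.1 hcomp
    rcases hε with h | h <;> rw [h] <;> linarith [this.1, this.2]
  have h4 : -(pre * (12 * X2 * N0v)) ≤ ε * (J - pre * (MM * IW - len * SP)) := by
    have := abs_le.1 hJ
    rcases hε with h | h <;> rw [h] <;> linarith [this.1, this.2]
  have h5 : pre * (12 * X2 * N0v) ≤ T * N0v := by
    have a1 : 12 * X2 * N0v ≤ T * N0v := mul_le_mul_of_nonneg_right hX hN0.le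
    calc pre * (12 * X2 * N0v) ≤ pre * (T * N0v) := by gcongr
      _ ≤ 1 * (T * N0v) := by gcongr
      _ = _ := one_mul _
  have h6 : K1 * h * IW ≤ 2 * h * K1 * (T * N0v) := by
    calc K1 * h * IW ≤ K1 * h * (2 * T * N0v) := by gcongr
      _ = _ := by ring
  have h7 : c1 / 100 * R * IW ≤ c1 / 50 * R * (T * N0v) := by
    calc c1 / 100 * R * IW ≤ c1 / 100 * R * (2 * T * N0v) := by gcongr
      _ = _ := by ring
  have h8 : (2 * h * K1 + 2) * (T * N0v) < c1 / 50 * R * (T * N0v) :=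
    mul_lt_mul_of_pos_right hfin hTN
  have h9 : 0 ≤ c1 * R * (T * N0v) := by positivity
  have e : ε * (II - κL * IW) = ε * (II - J) + ε * (J - pre * (MM * IW - len * SP)) +
      (ε * (pre * (MM * IW - len * SP)) - ε * (κL * IW)) := by ring
  rw [e]
  linarith

lemma kap_eq {G1 h L s : ℝ} (hs : s * s = 2 * Real.pi) (hs0 : 0 < s) :
    2 * s * G1 * (h / (2 * Real.pi) * L) = 2 / s * (h * L * G1) := by
  rw [← hs]
  field_simp

lemma hX_aux {X Q T L : ℝ} (h1 : L ^ 2 ≤ X) (hL : 3 ≤ L) (h : 12 * X ^ 2 * Q ^ 2 ≤ T) :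
    2 * Q ^ 2 ≤ T := by
  have h1 : (1 : ℝ) ≤ X := by nlinarith
  have h2 : (1 : ℝ) ≤ (X : ℝ) ^ 2 := one_le_pow₀ h1
  nlinarith [sq_nonneg Q]

lemma G_aux {G x : ℝ} (h1 : 1 / 10 ≤ G) (h2 : 0 ≤ x) : -(2 * G * x) ≤ -(1 / 5) * x := by
  nlinarith

lemma fin_aux {h C2 C3 a c1 R : ℝ} (hh : 0 < h) (hC2 : 0 < C2) (hC3 : 0 < C3) (ha : 0 ≤ a)
    (hb : (2 * h * (C2 + C3) + 2) + (2 * h * (C2 + C3) + 2) * a ≤ c1 / 100 * R) :
    2 * h * (C2 + C3 * a) + 2 < c1 / 50 * R := by
  have b1 : 0 ≤ h * C3 := by positivity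
  have b2 : 0 ≤ h * C2 := by positivity
  have b3 : 0 ≤ h * C3 * a := by positivity
  have b4 : 0 ≤ h * C2 * a := by positivity
  nlinarith

theorem core (hF : S_F) (hKER : S_KER) (hEX : S_EX) (hNL : S_NL) (hPR : S_PR) (hRK : S_RK)
    (h : ℝ) (hh : 0 < h) : ∃ c0 T0 : ℝ, 0 < c0 ∧ 10 ≤ T0 ∧ ∀ T : ℝ, T0 ≤ T →
    ∃ U1 U2 : ℝ, T ≤ U1 ∧ U1 ≤ T + 1 ∧ 2 * T - 1 ≤ U2 ∧ U2 ≤ 2 * T ∧
    ∀ ε : ℝ, (ε = 1 ∨ ε = -1) → ∃ t : ℝ, T + 2 * Real.log T ≤ t ∧
      t ≤ 2 * T - 2 * Real.log T - h ∧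
      c0 * Real.sqrt (Real.log T / Real.log (Real.log T)) ≤
        ε * ((∫ v in (0 : ℝ)..h, FF U1 U2 (8 * Real.log (Real.log T)) (t + v)) -
          (∫ x : ℝ, KR (8 * Real.log (Real.log T)) x) * (h / (2 * Real.pi) * Real.log T)) := by
  obtain ⟨c, C, T1, hc, hc1, hC, hT1, hF⟩ := hF
  obtain ⟨CK, hCK, hKER⟩ := hKER
  obtain ⟨C2, T2, hC2, hT2, hEX⟩ := hEX
  obtain ⟨C3, T3, hC3, hT3, hNL⟩ := hNL
  obtain ⟨c1, C1, T4, hc10, hC1, hT4, hRK⟩ := hRK h c hh hc
  have hll : Tendsto (fun T : ℝ => Real.log (Real.log T)) atTop atTop :=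
    Real.tendsto_log_atTop.comp Real.tendsto_log_atTop
  -- the asymptotic conditions
  have ev1 := Real.tendsto_log_atTop.eventually
    (asym1 (c1 / 100) (2 * h * (C2 + C3) + 2) (by positivity) (by positivity))
  have ev2 := Real.tendsto_log_atTop.eventually
    (asym2 (h * C3 * C) c C C1 (by positivity) hc hC hC1)
  have ev3 : ∀ᶠ T : ℝ in atTop, 4 * Real.log T + h ≤ T / 2 := by
    have h1 := Real.isLittleO_log_id_atTop.bound (show (0 : ℝ) < 1 / 16 by norm_num)
    filter_upwards [h1, eventually_ge_atTop (4 * h), eventually_ge_atTop 1] with T a1 a2 a3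
    have a4 := Real.log_nonneg a3
    simp only [id_eq] at a1
    rw [Real.norm_of_nonneg a4, Real.norm_of_nonneg (by linarith)] at a1
    linarith
  have ev4 : ∀ᶠ T : ℝ in atTop, 12 * (T ^ (1 / 8 : ℝ)) ^ 2 * (T ^ c) ^ 2 ≤ T := by
    have h1 : Tendsto (fun T : ℝ => T ^ (1 / 2 : ℝ)) atTop atTop := tendsto_rpow_atTop (by norm_num)
    filter_upwards [h1.eventually_ge_atTop 12, eventually_ge_atTop 1] with T a1 a2
    have hT0 : 0 < T := by linarith
    calc 12 * (T ^ (1 / 8 : ℝ)) ^ 2 * (T ^ c) ^ 2 ≤ T ^ (1 / 2 : ℝ) * (T ^ (1 / 8 : ℝ)) ^ 2 * (T ^ c) ^ 2 := by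
          gcongr
      _ = T ^ (1 / 2 + (1 / 8) * 2 + c * 2) := by
          rw [← Real.rpow_natCast (T ^ (1 / 8 : ℝ)), ← Real.rpow_natCast (T ^ c),
            ← Real.rpow_mul hT0.le, ← Real.rpow_mul hT0.le, ← Real.rpow_add hT0,
            ← Real.rpow_add hT0]
          norm_num
      _ ≤ T ^ (1 : ℝ) := Real.rpow_le_rpow_of_exponent_le a2 (by linarith)
      _ = T := Real.rpow_one T
  have ev5 : ∀ᶠ T : ℝ in atTop, (Real.log T) ^ 2 ≤ ((⌊T ^ (1 / 8 : ℝ)⌋₊ : ℕ) : ℝ) := by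
    have h1 : (fun x : ℝ => Real.log x ^ (2 : ℝ)) =o[atTop] fun x => x ^ (1 / 8 : ℝ) :=
      isLittleO_log_rpow_rpow_atTop 2 (by norm_num)
    have h2 := h1.bound (show (0 : ℝ) < 1 / 2 by norm_num)
    have h3 : Tendsto (fun T : ℝ => T ^ (1 / 8 : ℝ)) atTop atTop := tendsto_rpow_atTop (by norm_num)
    filter_upwards [h2, h3.eventually_ge_atTop 2, eventually_ge_atTop 1] with T a1 a2 a3
    have a4 := Real.log_nonneg a3
    rw [Real.norm_of_nonneg (by positivity), Real.norm_of_nonneg (by positivity)] at a1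
    have e4 : Real.log T ^ (2 : ℝ) = Real.log T ^ 2 := by
      rw [← Real.rpow_natCast]; norm_num
    rw [e4] at a1
    have := Nat.sub_one_lt_floor (T ^ (1 / 8 : ℝ))
    linarith
  have ev6 := hll.eventually_ge_atTop 1
  have ev7 := Real.tendsto_log_atTop.eventually_ge_atTop 3
  obtain ⟨T5, hT5⟩ := eventually_atTop.1 (ev1.and (ev2.and (ev3.and (ev4.and (ev5.and (ev6.and ev7))))))
  refine ⟨c1 / 100, max (max (max T1 T2) (max T3 T4)) T5, by positivity,
    hT1.trans ((le_max_left _ _).trans ((le_max_left _ _).trans (le_max_left _ _))),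
    fun T hT => ?_⟩
  obtain ⟨b1, b2, b3, b4, b5, b6, b7⟩ := hT5 T ((le_max_right _ _).trans hT)
  have hTT := (le_max_left _ _).trans hT
  have hTa := (le_max_left _ _).trans hTT
  have hTb := (le_max_right _ _).trans hTT
  have hTT1 : T1 ≤ T := (le_max_left _ _).trans hTa
  have hTT2 : T2 ≤ T := (le_max_right _ _).trans hTa
  have hTT3 : T3 ≤ T := (le_max_left _ _).trans hTb
  have hTT4 : T4 ≤ T := (le_max_right _ _).trans hTb
  have hT10 : 10 ≤ T := hT1.trans hTT1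
  have hT0 : 0 < T := by linarith
  obtain ⟨U1, U2, hU1, hU1', hU2, hU2', hEX⟩ := hEX T hTT2
  refine ⟨U1, U2, hU1, hU1', hU2, hU2', fun ε hε => ?_⟩
  set L := Real.log T with hL
  set LL := Real.log L with hLL
  set B := 8 * LL with hB
  have hB1 : 1 ≤ B := by linarith
  obtain ⟨P, r, hP, hr, hRK1, hRK2⟩ := hRK T hTT4
  set Q := T ^ c with hQ
  have hQ1 : 1 ≤ Q := Real.one_le_rpow (by linarith) hc.le
  have hQ0 : 0 < Q := by linarith
  obtain ⟨k1, k2, k3, k4, -, -, -, k8, k9, k10, k11⟩ := hKER B hB1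
  have hPp : ∀ p ∈ P, p.Prime := fun p hp => (hP p hp).1
  have hpi := Real.pi_pos
  have hspi : 0 < Real.sqrt (2 * Real.pi) := by positivity
  have hs3 : Real.sqrt (2 * Real.pi) ≤ 8 / 3 := by
    rw [Real.sqrt_le_left (by norm_num)]
    have := Real.pi_lt_d2
    norm_num
    linarith
  have hs2 : 2 ≤ Real.sqrt (2 * Real.pi) := by
    apply Real.le_sqrt_of_sq_le
    have := Real.pi_gt_three
    linarith
  have hG : ∀ n : ℕ, 0 ≤ GB B n ∧ GB B n ≤ 3 := fun n => ⟨(k9 n).1, (k9 n).2.trans (by linarith)⟩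
  set φ := ph h ε with hφ
  set W : ℝ → ℝ := fun t => ‖RS P Q (yc r φ) ((t : ℂ) * Complex.I)‖ ^ 2 with hW
  have hWc : Continuous W := W_cont P Q _ hPp
  have hW0 : ∀ t, 0 ≤ W t := fun t => by positivity
  set A := T + 2 * L with hA
  set B' := 2 * T - 2 * L - h with hB'
  set X := ⌊T ^ (1 / 8 : ℝ)⌋₊ with hX
  have hL3 : 3 ≤ L := b7
  have hAB : A ≤ B' := by linarith
  have hlen1 : T / 2 ≤ B' - A := by linarith
  have hlen2 : B' - A ≤ T := by linarith
  have hPX : ∀ p ∈ P, p ≤ X := by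
    intro p hp
    have := (hP p hp).2.2
    exact_mod_cast this.trans b5
  have hN01 : 1 ≤ N0 P r Q := N0_ge_one hQ1
  have hXle : (X : ℝ) ≤ T ^ (1 / 8 : ℝ) := Nat.floor_le (by positivity)
  have hX2 : 12 * (X : ℝ) ^ 2 * Q ^ 2 ≤ T := by
    calc 12 * (X : ℝ) ^ 2 * Q ^ 2 ≤ 12 * (T ^ (1 / 8 : ℝ)) ^ 2 * Q ^ 2 := by gcongr
      _ ≤ T := b4
  have hQ2 : 2 * Q ^ 2 ≤ T := hX_aux b5 hL3 hX2
  -- the mean of the weight
  have hmean := (hPR P r φ Q A B' hPp hr hQ1 hAB).1
  rw [abs_le] at hmean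
  have hIW2 : (∫ t in A..B', W t) ≤ 2 * T * N0 P r Q := by
    refine IW_le (Q2 := Q ^ 2) ?_ hlen2 hQ2 (by linarith)
    exact hmean.2
  have hIW0 : 0 ≤ ∫ t in A..B', W t := intervalIntegral.integral_nonneg hAB fun t _ => hW0 t
  -- the comparison
  have hFFc := FF_cont (U1 := U1) (U2 := U2) k3
  have hcomp := cmpI (W := W) (F := FF U1 U2 B) (D := Dm L B X) (Z := ZZ T) hWc hFFc (Dm_cont L B X)
    (ZZ_cont T) hW0 (A := A) (B := B') (h := h) (K1 := C2 + C3 * L ^ (1 / 3 : ℝ) * LL ^ 3)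
    (K2 := C3 * L ^ 5) (Bd := C * T * L ^ C * Real.exp (-(c * L ^ (2 / 3 : ℝ))) * EP P r)
    hAB hh.le (by positivity) (by
      intro t ht1 ht2
      have a1 := hEX B t hB1 le_rfl (by linarith) (by linarith)
      have a2 := hNL T hTT3 U1 U2 hU1 (by linarith) hU2' t
      rw [abs_le] at a1 a2 ⊢
      change -_ ≤ FF U1 U2 B t - Dm L B X t ∧ FF U1 U2 B t - Dm L B X t ≤ _
      have e1 : FF U1 U2 B t = ∑ s ∈ Zf riemannZeta U1 U2, (mult riemannZeta s : ℝ) *
        KR B (s.im - t) := rfl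
      have e2 : Dm L B X t = 2 / Real.sqrt (2 * Real.pi) * (L * GB B 1 -
        ∑ n ∈ Icc 2 X, ArithmeticFunction.vonMangoldt n / Real.sqrt n *
          GB B n * Real.cos (t * Real.log n)) := rfl
      have e3 : ZZ T t = ∑ s ∈ (Zf riemannZeta T (2 * T)).filter
        (fun s => L ^ (-(1 / 3) : ℝ) ≤ |s.re - 1 / 2|),
        (mult riemannZeta s : ℝ) * Real.exp (-(s.im - t) ^ 2 / 2) := rfl
      rw [e1, e2, e3]
      constructor
      · linarith [a1.1, a2.2]
      · linarith [a1.2, a2.1])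
    (by
      intro v hv0 hvh
      have a1 := farW (c := c) (C := C * T * L ^ C * Real.exp (-(c * L ^ (2 / 3 : ℝ)))) hT0.le
        (fun P r Q y h1 h2 h3 h4 h5 => hF T hTT1 P r Q y h1 h2 h3 h4 h5) (φ := φ) hPp hr hQ1
        (le_of_eq hQ) (A := A) (B := B') (v := v) (by linarith) hAB (by linarith)
      exact a1)
  -- the main part
  have hJ := avgJ hPR P r φ Q hPp hr hQ1 hAB L B h X hG hPX
  -- the sum over the primes
  set S := ∑ p ∈ P, |Real.sin (h * Real.log p / 2)| / Real.sqrt p * r p * N1 P r Q p with hS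
  have hSum : ε * ∑ p ∈ P, 1 / Real.sqrt p * GB B p * (2 * Real.sin (h * Real.log p / 2)) *
          (r p * Real.cos (φ p + h * Real.log p / 2) * N1 P r Q p) ≤ -(1 / 5) * S := by
    rw [hS, Finset.mul_sum, Finset.mul_sum]
    refine Finset.sum_le_sum fun p hp => ?_
    have hp1 := (hP p hp).2.1
    have hp2 := (hP p hp).2.2
    have hp0 : (0 : ℝ) < p := by linarith
    have g1 : 1 ≤ Real.log p := by
      rw [Real.le_log_iff_exp_le hp0]
      linarith [Real.exp_one_lt_d9]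
    have g2 : Real.log p ≤ B / 4 := by
      have := Real.log_le_log hp0 hp2
      rw [Real.log_pow] at this
      push_cast at this
      linarith
    have g3 := k11 p g1 g2
    have g4 := ph_spec (h := h) hε p
    have hε2 : ε * ε = 1 := by rcases hε with h | h <;> rw [h] <;> norm_num
    have g5 : ε * (1 / Real.sqrt p * GB B p * (2 * Real.sin (h * Real.log p / 2)) *
          (r p * Real.cos (φ p + h * Real.log p / 2) * N1 P r Q p)) =
        -(2 * GB B p * (|Real.sin (h * Real.log p / 2)| / Real.sqrt p * r p * N1 P r Q p)) := by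
      calc _ = ε * (1 / Real.sqrt p * GB B p * 2 * r p * N1 P r Q p *
            (Real.sin (h * Real.log p / 2) * Real.cos (φ p + h * Real.log p / 2))) := by ring
        _ = ε * (1 / Real.sqrt p * GB B p * 2 * r p * N1 P r Q p *
            (-(ε * |Real.sin (h * Real.log p / 2)|))) := by rw [hφ, g4]
        _ = -(ε * ε) * (2 * GB B p * (|Real.sin (h * Real.log p / 2)| / Real.sqrt p * r p *
            N1 P r Q p)) := by ring
        _ = _ := by rw [hε2]; ring
    rw [g5]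
    have g6 : 0 ≤ |Real.sin (h * Real.log p / 2)| / Real.sqrt p * r p * N1 P r Q p := by
      have := hr p hp
      have := N1_nonneg P r Q p
      positivity
    exact G_aux g3 g6
  have hS1 : c1 * Real.sqrt (L / LL) * N0 P r Q ≤ S := hRK1
  -- conclusion
  set IW := ∫ t in A..B', W t with hIW
  set II := ∫ t in A..B', W t * ∫ v in (0 : ℝ)..h, FF U1 U2 B (t + v) with hII
  set κ := ∫ x : ℝ, KR B x with hκ
  set R := Real.sqrt (L / LL) with hR
  have hR0 : 0 ≤ R := Real.sqrt_nonneg _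
  have hκe : κ * (h / (2 * Real.pi) * L) = 2 / Real.sqrt (2 * Real.pi) * (h * L * GB B 1) := by
    rw [k8]
    exact kap_eq (Real.mul_self_sqrt (by positivity)) hspi
  have hkey : c1 / 100 * R * IW < ε * (II - κ * (h / (2 * Real.pi) * L) * IW) := by
    have hEP0 : 0 ≤ EP P r := by
      unfold EP
      refine Finset.prod_nonneg fun p hp => ?_
      have := hr p hp
      positivity
    have hfin : 2 * h * (C2 + C3 * L ^ (1 / 3 : ℝ) * LL ^ 3) + 2 < c1 / 50 * R := by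
      rw [mul_assoc C3]
      refine fin_aux hh hC2 hC3 (a := L ^ (1 / 3 : ℝ) * LL ^ 3) (by positivity) ?_
      rw [← mul_assoc]
      exact b1
    have hBd : C3 * L ^ 5 * (h * (C * T * L ^ C * Real.exp (-(c * L ^ (2 / 3 : ℝ))) * EP P r)) ≤
        T * N0 P r Q := by
      calc _ ≤ C3 * L ^ 5 * (h * (C * T * L ^ C * Real.exp (-(c * L ^ (2 / 3 : ℝ))) *
            (Real.exp (C1 * Real.sqrt L) * N0 P r Q))) := by gcongr
        _ = (h * C3 * C * L ^ 5 * L ^ C * Real.exp (-(c * L ^ (2 / 3 : ℝ))) *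
            Real.exp (C1 * Real.sqrt L)) * (T * N0 P r Q) := by ring
        _ ≤ 1 * (T * N0 P r Q) := by gcongr
        _ = _ := one_mul _
    exact key_num (G := 0) (X2 := (X : ℝ) ^ 2 * Q ^ 2) hε hcomp (by
      refine hJ.trans (le_of_eq ?_)
      ring) hκe hSum hS1 (by
        rw [div_le_div_iff₀ (by norm_num) hspi]
        linarith) (by
        rw [div_le_one hspi]
        exact hs2) hlen1 hT0 hN01 hIW2 (by linarith) hc10 hR0 hIW0 (by positivity) hh hBd hfin rfl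
  have hcG : Continuous fun t : ℝ => ε * ((∫ v in (0 : ℝ)..h, FF U1 U2 B (t + v)) -
      κ * (h / (2 * Real.pi) * L)) := by
    have : Continuous fun t : ℝ => ∫ v in (0 : ℝ)..h, FF U1 U2 B (t + v) :=
      intervalIntegral.continuous_parametric_intervalIntegral_of_continuous' (by fun_prop) _ _
    fun_prop
  have hIc : Continuous fun t : ℝ => ∫ v in (0 : ℝ)..h, FF U1 U2 B (t + v) :=
      intervalIntegral.continuous_parametric_intervalIntegral_of_continuous' (by fun_prop) _ _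
  obtain ⟨t, ht1, ht2, ht3⟩ := ex_pt (W := W) (G := fun t => ε * ((∫ v in (0 : ℝ)..h,
      FF U1 U2 B (t + v)) - κ * (h / (2 * Real.pi) * L))) hWc hcG hW0 hAB
      (c := c1 / 100 * R) (by
        have e : ∫ t in A..B', W t * (ε * ((∫ v in (0 : ℝ)..h, FF U1 U2 B (t + v)) -
            κ * (h / (2 * Real.pi) * L))) = ε * (II - κ * (h / (2 * Real.pi) * L) * IW) := by
          have e1 : ∀ t : ℝ, W t * (ε * ((∫ v in (0 : ℝ)..h, FF U1 U2 B (t + v)) -
            κ * (h / (2 * Real.pi) * L))) = ε * ((W t * ∫ v in (0 : ℝ)..h, FF U1 U2 B (t + v)) -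
            κ * (h / (2 * Real.pi) * L) * W t) := fun t => by ring
          have c1 : Continuous fun t : ℝ => W t * ∫ v in (0 : ℝ)..h, FF U1 U2 B (t + v) :=
            hWc.mul hIc
          have c2 : Continuous fun t : ℝ => κ * (h / (2 * Real.pi) * L) * W t :=
            continuous_const.mul hWc
          simp_rw [e1]
          rw [intervalIntegral.integral_const_mul, intervalIntegral.integral_sub
            (c1.intervalIntegrable _ _) (c2.intervalIntegrable _ _),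
            intervalIntegral.integral_const_mul]
        rw [e]
        exact hkey)
  exact ⟨t, ht1, ht2, ht3.le⟩

end

end Pool.Agent.Y746.OM
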