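import Pool.Agent.Y746.OM.Asm4

set_option autoImplicit false

/-! Assembly, part 5: the theorem. -/

namespace Pool.Agent.Y746.OM

open Finset Filter Topology MeasureTheory
open H370 (zset mult NN Zf zz)

noncomputable section

lemma dev_le {T τ : ℝ} (hT : 10 ≤ T) (hLL : 1 ≤ Real.log (Real.log T)) (h1 : T ≤ τ) (h2 : τ ≤ 2 * T) :
    Real.sqrt (Real.log τ / Real.log (Real.log τ)) ≤
      2 * Real.sqrt (Real.log T / Real.log (Real.log T)) := by
  have hT0 : 0 < T := by linarith
  have hL0 : 0 < Real.log T := Real.log_pos (by linarith)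
  have a1 : Real.log τ ≤ 2 * Real.log T := by
    have : Real.log τ ≤ Real.log (T ^ 2) := Real.log_le_log (by linarith) (by nlinarith)
    rw [Real.log_pow] at this
    exact_mod_cast this
  have a2 : Real.log T ≤ Real.log τ := Real.log_le_log hT0 h1
  have a3 : Real.log (Real.log T) ≤ Real.log (Real.log τ) := Real.log_le_log hL0 a2
  rw [show 2 * Real.sqrt (Real.log T / Real.log (Real.log T)) =
    Real.sqrt (4 * (Real.log T / Real.log (Real.log T))) by
      rw [Real.sqrt_mul (by norm_num), show (4 : ℝ) = 2 ^ 2 by norm_num, Real.sqrt_sq (by norm_num)]]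
  apply Real.sqrt_le_sqrt
  calc Real.log τ / Real.log (Real.log τ) ≤ 2 * Real.log T / Real.log (Real.log T) := by
        gcongr
    _ ≤ 4 * (Real.log T / Real.log (Real.log T)) := by
        rw [mul_div_assoc]
        have : 0 ≤ Real.log T / Real.log (Real.log T) := by positivity
        linarith

theorem fin (hF : S_F) (hKER : S_KER) (hEX : S_EX) (hNL : S_NL) (hPR : S_PR) (hRK : S_RK)
    (hCNT : S_CNT) : S_FIN := by
  intro h hh
  obtain ⟨c0, T1, hc0, hT1, hcore⟩ := core hF hKER hEX hNL hPR hRK h hh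
  obtain ⟨C4, T2, hC4, hT2, hcnt⟩ := hCNT h hh
  obtain ⟨CK, hCK, hKER⟩ := hKER
  have hpi := Real.pi_pos
  have hpi3 := Real.pi_gt_three
  have hll : Tendsto (fun T : ℝ => Real.log (Real.log T)) atTop atTop :=
    Real.tendsto_log_atTop.comp Real.tendsto_log_atTop
  have ev1 := Real.tendsto_log_atTop.eventually
    (asym1 (c0 / 4) (C4 + 13 * h) (by positivity) (by positivity))
  have ev2 : ∀ᶠ T : ℝ in atTop, 2 * (c0 / 100) * Real.sqrt (Real.log T) ≤
      h / (2 * Real.pi) * (Real.log T - 2) := by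
    have h1 : Tendsto (fun x : ℝ => Real.sqrt x) atTop atTop := Real.tendsto_sqrt_atTop
    have h2 := h1.eventually_ge_atTop (2 * (2 * (c0 / 100)) / (h / (2 * Real.pi)))
    have h3 : ∀ᶠ x : ℝ in atTop, 2 * (c0 / 100) * Real.sqrt x ≤ h / (2 * Real.pi) * (x - 2) := by
      filter_upwards [h2, eventually_ge_atTop 4] with x hx hx4
      have hk : 0 < h / (2 * Real.pi) := by positivity
      rw [div_le_iff₀ hk] at hx
      have e : Real.sqrt x * Real.sqrt x = x := Real.mul_self_sqrt (by linarith)
      have hs : 0 ≤ Real.sqrt x := Real.sqrt_nonneg x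
      have a1 := mul_le_mul_of_nonneg_right hx hs
      have a2 : Real.sqrt x * (h / (2 * Real.pi)) * Real.sqrt x = h / (2 * Real.pi) * x := by
        rw [mul_comm (Real.sqrt x) (h / (2 * Real.pi)), mul_assoc, e]
      rw [a2] at a1
      nlinarith
    exact Real.tendsto_log_atTop.eventually h3
  have ev3 := hll.eventually_ge_atTop 1
  have ev4 := Real.tendsto_log_atTop.eventually (eventually_ge_atTop 10)
  have ev5 : ∀ᶠ T : ℝ in atTop, 8 * Real.log (Real.log T) ≤ Real.log T := by
    have h1 := Real.isLittleO_log_id_atTop.bound (show (0 : ℝ) < 1 / 8 by norm_num)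
    have h2 := Real.tendsto_log_atTop.eventually h1
    filter_upwards [h2, ev3, ev4] with T a1 a2 a3
    simp only [id_eq] at a1
    rw [Real.norm_of_nonneg (by linarith), Real.norm_of_nonneg (by linarith)] at a1
    linarith
  obtain ⟨T5, hT5⟩ := eventually_atTop.1 (ev1.and (ev2.and (ev3.and (ev4.and ev5))))
  refine ⟨c0 / 100, max (max T1 T2) T5, by positivity,
    hT1.trans ((le_max_left _ _).trans (le_max_left _ _)), fun T hT => ?_⟩
  obtain ⟨b1, b2, b3, b4, b5⟩ := hT5 T ((le_max_right _ _).trans hT)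
  have hTT := (le_max_left _ _).trans hT
  have hTT1 : T1 ≤ T := (le_max_left _ _).trans hTT
  have hTT2 : T2 ≤ T := (le_max_right _ _).trans hTT
  have hT10 : 10 ≤ T := hT1.trans hTT1
  have hT0 : 0 < T := by linarith
  obtain ⟨U1, U2, hU1, hU1', hU2, hU2', hcore⟩ := hcore T hTT1
  set L := Real.log T with hL
  set LL := Real.log L with hLL
  set B := 8 * LL with hB
  obtain ⟨-, k2, -, -, -, -, -, k8, k9, k10, -⟩ := hKER B (by linarith)
  set κ := ∫ x : ℝ, KR B x with hκ
  set R := Real.sqrt (L / LL) with hR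
  have hR0 : 0 ≤ R := Real.sqrt_nonneg _
  have hRL : R ≤ Real.sqrt L := by
    apply Real.sqrt_le_sqrt
    rw [div_le_iff₀ (by linarith)]
    nlinarith
  have hκ0 : 0 ≤ κ := integral_nonneg fun x => (k2 x).1
  have hκ13 : κ ≤ 13 := by
    rw [k8]
    have h1 := (k9 1).2
    have e : Real.sqrt (2 * Real.pi) * Real.sqrt (2 * Real.pi) = 2 * Real.pi :=
      Real.mul_self_sqrt (by positivity)
    have h3 := Real.pi_lt_d2
    calc 2 * Real.sqrt (2 * Real.pi) * GB B 1 ≤ 2 * Real.sqrt (2 * Real.pi) *
          Real.sqrt (2 * Real.pi) := by gcongr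
      _ = 2 * (2 * Real.pi) := by rw [mul_assoc, e]
      _ ≤ 13 := by linarith
  have hbig : C4 + 13 * h ≤ c0 / 4 * R := by
    have : 0 ≤ (C4 + 13 * h) * L ^ (1 / 3 : ℝ) * LL ^ 3 := by
      have : 0 ≤ LL := by linarith
      positivity
    linarith
  have hh2 : 0 < h / (2 * Real.pi) := by positivity
  have hh3 : h / (2 * Real.pi) ≤ h / 2 := by
    apply div_le_div_of_nonneg_left hh.le (by norm_num) (by linarith)
  constructor
  · by_contra hcon
    push Not at hcon
    obtain ⟨t, ht1, ht2, ht3⟩ := hcore 1 (Or.inl rfl)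
    rw [one_mul] at ht3
    have hM0 : 0 ≤ h / (2 * Real.pi) * L + 2 * (c0 / 100) * R := by positivity
    have h1 := (hcnt T hTT2 U1 U2 hU1 hU1' hU2 hU2' B (by linarith) b5 t
      (h / (2 * Real.pi) * L + 2 * (c0 / 100) * R) ht1 ht2 hM0).1 (by
        intro τ h1 h2
        refine (hcon τ h1 h2).le.trans ?_
        have a1 := dev_le hT10 b3 h1 h2
        have a2 : Real.log (τ / (2 * Real.pi)) ≤ L := by
          apply Real.log_le_log (div_pos (by linarith) (by positivity))
          rw [div_le_iff₀ (by positivity)]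
          nlinarith
        have a3 := mul_le_mul_of_nonneg_left a2 hh2.le
        have a4 := mul_le_mul_of_nonneg_left a1 (show 0 ≤ c0 / 100 by positivity)
        have a5 : c0 / 100 * (2 * Real.sqrt (Real.log T / Real.log (Real.log T))) =
          2 * (c0 / 100) * R := by rw [hR]; ring
        rw [a5] at a4
        exact add_le_add a3 a4)
    change ∫ v in (0 : ℝ)..h, FF U1 U2 B (t + v) ≤ κ * _ + C4 at h1
    have h2 : κ * (2 * (c0 / 100) * R) ≤ 13 * (2 * (c0 / 100) * R) :=
      mul_le_mul_of_nonneg_right hκ13 (by positivity)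
    have h3 : c0 * R ≤ 13 * (2 * (c0 / 100) * R) + C4 := by linarith
    have h4 : 0 < c0 * R := by nlinarith
    linarith
  · by_contra hcon
    push Not at hcon
    obtain ⟨t, ht1, ht2, ht3⟩ := hcore (-1) (Or.inr rfl)
    have hM0 : 0 ≤ h / (2 * Real.pi) * (L - 2) - 2 * (c0 / 100) * R := by
      have := mul_le_mul_of_nonneg_left hRL (show 0 ≤ 2 * (c0 / 100) by positivity)
      linarith
    have h1 := (hcnt T hTT2 U1 U2 hU1 hU1' hU2 hU2' B (by linarith) b5 t
      (h / (2 * Real.pi) * (L - 2) - 2 * (c0 / 100) * R) ht1 ht2 hM0).2 (by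
        intro τ h1 h2
        refine le_trans ?_ (hcon τ h1 h2).le
        have a1 := dev_le hT10 b3 h1 h2
        have a2 : L - 2 ≤ Real.log (τ / (2 * Real.pi)) := by
          rw [Real.log_div (by linarith) (by positivity)]
          have b1 : L ≤ Real.log τ := Real.log_le_log hT0 h1
          have b2 : Real.log (2 * Real.pi) ≤ 2 := by
            rw [Real.log_le_iff_le_exp (by positivity)]
            have := Real.pi_lt_d2
            have e2 : Real.exp 2 = Real.exp 1 * Real.exp 1 := by rw [← Real.exp_add]; norm_num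
            have e1 := Real.exp_one_gt_d9
            rw [e2]
            nlinarith
          linarith
        have a3 := mul_le_mul_of_nonneg_left a2 hh2.le
        have a4 := mul_le_mul_of_nonneg_left a1 (show 0 ≤ c0 / 100 by positivity)
        have a5 : c0 / 100 * (2 * Real.sqrt (Real.log T / Real.log (Real.log T))) =
          2 * (c0 / 100) * R := by rw [hR]; ring
        rw [a5] at a4
        exact sub_le_sub a3 a4)
    change κ * _ - C4 ≤ ∫ v in (0 : ℝ)..h, FF U1 U2 B (t + v) at h1
    have h2 : κ * (2 * (c0 / 100) * R) ≤ 13 * (2 * (c0 / 100) * R) :=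
      mul_le_mul_of_nonneg_right hκ13 (by positivity)
    have h5 : κ * (h / (2 * Real.pi) * 2) ≤ 13 * (h / 2 * 2) :=
      mul_le_mul hκ13 (by linarith) (by positivity) (by norm_num)
    have h3 : c0 * R ≤ 13 * (2 * (c0 / 100) * R) + 13 * (h / 2 * 2) + C4 := by linarith
    have h4 : 0 < c0 * R := by nlinarith
    linarith

end

end Pool.Agent.Y746.OM
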