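import Pool.Agent.Y258.OM.G3a
import Pool.Agent.Y755.HPl

set_option autoImplicit false

/-! Project OM, job OM-G3: the mean square of `1 - ζ M` against the resonator. -/

namespace Pool.Agent.Y746.OM.G3L

open Finset MeasureTheory
open Pool.Agent.Y746.OM Pool.Agent.Y258.OM
open Pool.Agent.Y755 (qd qd_nonneg qd_cont hp_win zeta_cont)

lemma zeta_sub_far (N : ℕ) (hN : 1 ≤ N) : ∃ C : ℝ, ∀ z : ℂ, 2 ≤ z.re →
    ‖riemannZeta z - (∑ n ∈ Icc 1 N, (n : ℂ) ^ (-z))‖ * (N:ℝ) ^ z.re ≤ C := by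
  refine ⟨(N:ℝ) ^ 2 * ∑' n : ℕ, 1 / (n:ℝ) ^ 2, fun z hz => ?_⟩
  have hN0 : (0:ℝ) < N := by exact_mod_cast hN
  have h1 : HasSum (fun n : ℕ => (n:ℂ) ^ (-z)) (riemannZeta z) := by
    have h2 := zeta_eq_tsum_one_div_nat_cpow (s := z) (by linarith)
    have h3 : Summable (fun n : ℕ => 1 / (n:ℂ) ^ z) := Complex.summable_one_div_nat_cpow.mpr (by linarith)
    have h4 := h3.hasSum
    rw [← h2] at h4
    refine h4.congr_fun fun n => ?_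
    rw [one_div, Complex.cpow_neg]
  have h2 : HasSum (fun n : ℕ => if n ∈ Icc 1 N then (n:ℂ) ^ (-z) else 0) (∑ n ∈ Icc 1 N, (n : ℂ) ^ (-z)) := by
    have h5 : HasSum (fun n : ℕ => if n ∈ Icc 1 N then (n:ℂ) ^ (-z) else 0)
        (∑ n ∈ Icc 1 N, if n ∈ Icc 1 N then (n:ℂ) ^ (-z) else 0) :=
      hasSum_sum_of_ne_finset_zero (fun n hn => if_neg hn)
    rwa [sum_congr rfl (fun n hn => if_pos hn)] at h5
  have h3 := h1.sub h2
  have hs : Summable (fun n : ℕ => (N:ℝ) ^ 2 * (1 / (n:ℝ) ^ 2) * (N:ℝ) ^ (-z.re)) :=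
    ((Real.summable_one_div_nat_pow.mpr (by norm_num : 1 < 2)).mul_left _).mul_right _
  have h4 : ‖riemannZeta z - (∑ n ∈ Icc 1 N, (n : ℂ) ^ (-z))‖ ≤ ∑' n : ℕ, (N:ℝ) ^ 2 * (1 / (n:ℝ) ^ 2) * (N:ℝ) ^ (-z.re) := by
    refine h3.norm_le_of_bounded hs.hasSum fun n => ?_
    by_cases hn : n ∈ Icc 1 N
    · rw [if_pos hn, sub_self, norm_zero]; positivity
    · rw [if_neg hn, sub_zero]
      rcases Nat.eq_zero_or_pos n with h0 | h0
      · subst h0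
        rw [Nat.cast_zero, Complex.zero_cpow (by
          intro h
          have := congrArg Complex.re h
          simp at this; linarith)]
        simp
      · have hnN : N < n := by
          rw [mem_Icc] at hn; omega
        have hn0 : (0:ℝ) < n := by exact_mod_cast h0
        rw [Complex.norm_natCast_cpow_of_pos h0, Complex.neg_re]
        have e1 : (n:ℝ) ^ (-z.re) = (n:ℝ) ^ (-(z.re - 2)) * (1 / (n:ℝ) ^ 2) := by
          rw [one_div, ← Real.rpow_natCast, ← Real.rpow_neg hn0.le, ← Real.rpow_add hn0]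
          congr 1; push_cast; ring
        have e2 : (N:ℝ) ^ (-z.re) = (N:ℝ) ^ (-(z.re - 2)) * (1 / (N:ℝ) ^ 2) := by
          rw [one_div, ← Real.rpow_natCast, ← Real.rpow_neg hN0.le, ← Real.rpow_add hN0]
          congr 1; push_cast; ring
        rw [e1, e2]
        have h5 : (n:ℝ) ^ (-(z.re - 2)) ≤ (N:ℝ) ^ (-(z.re - 2)) :=
          Real.rpow_le_rpow_of_nonpos hN0 (by exact_mod_cast hnN.le) (by linarith)
        calc (n:ℝ) ^ (-(z.re - 2)) * (1 / (n:ℝ) ^ 2) ≤ (N:ℝ) ^ (-(z.re - 2)) * (1 / (n:ℝ) ^ 2) := by gcongr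
          _ = _ := by field_simp
  rw [tsum_mul_right, tsum_mul_left] at h4
  have h6 : (N:ℝ) ^ (-z.re) * (N:ℝ) ^ z.re = 1 := by
    rw [← Real.rpow_add hN0]; simp
  calc ‖riemannZeta z - (∑ n ∈ Icc 1 N, (n : ℂ) ^ (-z))‖ * (N:ℝ) ^ z.re ≤
      (N:ℝ) ^ 2 * (∑' n : ℕ, 1 / (n:ℝ) ^ 2) * (N:ℝ) ^ (-z.re) * (N:ℝ) ^ z.re := by gcongr
    _ = _ := by rw [mul_assoc, h6, mul_one]


/-! ### the functions on vertical lines -/

lemma DD_diff (g : ℕ → ℂ) (N : ℕ) : Differentiable ℂ (DD g N) := by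
  have h : DD g N = fun s => ∑ n ∈ Icc 1 N, g n * (n : ℂ) ^ (-s) := rfl
  rw [h]
  refine Differentiable.fun_sum fun n hn => ?_
  rw [mem_Icc] at hn
  refine Differentiable.const_mul ?_ _
  intro s
  refine DifferentiableAt.const_cpow (by fun_prop) (Or.inl ?_)
  exact_mod_cast (by omega : n ≠ 0)

lemma DD_norm_le {g : ℕ → ℂ} (hg : ∀ k, ‖g k‖ ≤ 1) (N : ℕ) {s : ℂ} (hs : 0 ≤ s.re) :
    ‖DD g N s‖ ≤ N := by
  unfold DD
  refine (norm_sum_le _ _).trans ?_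
  have h : ∀ n ∈ Icc 1 N, ‖g n * (n : ℂ) ^ (-s)‖ ≤ 1 := by
    intro n hn
    rw [mem_Icc] at hn
    rw [norm_mul, Complex.norm_natCast_cpow_of_pos hn.1]
    exact mul_le_one₀ (hg n) (by positivity)
      (Real.rpow_le_one_of_one_le_of_nonpos (by exact_mod_cast hn.1) (by simpa using hs))
  refine (sum_le_card_nsmul _ _ _ h).trans ?_
  rw [Nat.card_Icc]
  simp

/-- The resonator, shifted. -/
noncomputable def RA (P : Finset ℕ) (Q δ : ℝ) (y : Finset ℕ → ℂ) (z : ℂ) : ℂ :=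
  ∑ S ∈ FS P Q, (y S * ((qS S : ℕ) : ℂ) ^ ((1 / 2 + δ : ℝ) : ℂ)) * ((qS S : ℕ) : ℂ) ^ (-z)

/-- The coefficients on the critical line. -/
noncomputable def yd (δ : ℝ) (y : Finset ℕ → ℂ) (S : Finset ℕ) : ℂ :=
  y S * ((qS S : ℕ) : ℂ) ^ ((δ : ℝ) : ℂ)

section res

variable {P : Finset ℕ} {r : ℕ → ℝ} {Q δ : ℝ} {y : Finset ℕ → ℂ}

lemma RA_diff (hP : ∀ p ∈ P, p.Prime) : Differentiable ℂ (RA P Q δ y) := by
  have h : RA P Q δ y = fun z => ∑ S ∈ FS P Q,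
    (y S * ((qS S : ℕ) : ℂ) ^ ((1 / 2 + δ : ℝ) : ℂ)) * ((qS S : ℕ) : ℂ) ^ (-z) := rfl
  rw [h]
  refine Differentiable.fun_sum fun S hS => ?_
  refine Differentiable.const_mul ?_ _
  intro s
  refine DifferentiableAt.const_cpow (by fun_prop) (Or.inl ?_)
  exact_mod_cast (FS_pos hP hS).ne'

lemma RA_bound (hP : ∀ p ∈ P, p.Prime) (z : ℂ) (hz : 1 / 2 ≤ z.re) :
    ‖RA P Q δ y z‖ ≤ ∑ S ∈ FS P Q, ‖y S * ((qS S : ℕ) : ℂ) ^ ((1 / 2 + δ : ℝ) : ℂ)‖ := by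
  unfold RA
  refine (norm_sum_le _ _).trans (sum_le_sum fun S hS => ?_)
  have hq := FS_pos hP hS
  rw [norm_mul, Complex.norm_natCast_cpow_of_pos hq]
  refine mul_le_of_le_one_right (norm_nonneg _) ?_
  refine Real.rpow_le_one_of_one_le_of_nonpos (by exact_mod_cast hq) ?_
  rw [Complex.neg_re]
  linarith

lemma RA_line1 (hP : ∀ p ∈ P, p.Prime) (v : ℝ) :
    RA P Q δ y (((1 / 2 + δ : ℝ) : ℂ) + (v : ℂ) * Complex.I) = RS P Q y ((v : ℂ) * Complex.I) := by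
  unfold RA RS
  refine sum_congr rfl fun S hS => ?_
  have hq : ((qS S : ℕ) : ℂ) ≠ 0 := by exact_mod_cast (FS_pos hP hS).ne'
  rw [mul_assoc, ← Complex.cpow_add _ _ hq]
  congr 2
  ring

lemma RA_line0 (hP : ∀ p ∈ P, p.Prime) (v : ℝ) :
    RA P Q δ y (((1 / 2 : ℝ) : ℂ) + (v : ℂ) * Complex.I) =
      RS P Q (yd δ y) ((v : ℂ) * Complex.I) := by
  unfold RA RS yd
  refine sum_congr rfl fun S hS => ?_
  have hq : ((qS S : ℕ) : ℂ) ≠ 0 := by exact_mod_cast (FS_pos hP hS).ne'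
  rw [mul_assoc, mul_assoc, ← Complex.cpow_add _ _ hq, ← Complex.cpow_add _ _ hq]
  congr 2
  push_cast
  ring

lemma yd_bound {K : ℝ} (hP : ∀ p ∈ P, p.Prime) (hr : ∀ p ∈ P, 0 ≤ r p) (_hQ : 1 ≤ Q) (hK : 0 ≤ K)
    (hδ : 0 ≤ δ) (hy : ∀ S ∈ FS P Q, ‖y S‖ ≤ K * ∏ p ∈ S, r p) :
    ∀ S ∈ FS P Q, ‖yd δ y S‖ ≤ (K * Q ^ δ) * ∏ p ∈ S, r p := by
  intro S hS
  have hq := FS_pos hP hS
  unfold yd
  rw [norm_mul, Complex.norm_natCast_cpow_of_pos hq, Complex.ofReal_re]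
  have h1 : ((qS S : ℕ) : ℝ) ^ δ ≤ Q ^ δ := Real.rpow_le_rpow (by positivity) (FS_le hS) hδ
  have h2 : 0 ≤ ∏ p ∈ S, r p := prod_nonneg fun p hp => hr p (FS_sub hS hp)
  calc ‖y S‖ * ((qS S : ℕ) : ℝ) ^ δ ≤ (K * ∏ p ∈ S, r p) * Q ^ δ :=
        mul_le_mul (hy S hS) h1 (by positivity) (mul_nonneg hK h2)
    _ = _ := by ring

lemma RS_cont (hP : ∀ p ∈ P, p.Prime) : Continuous fun v : ℝ => RS P Q y ((v : ℂ) * Complex.I) := by
  unfold RS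
  refine continuous_finsetSum _ fun S hS => ?_
  refine continuous_const.mul ?_
  refine Continuous.const_cpow (by fun_prop) (Or.inl ?_)
  exact_mod_cast (FS_pos hP hS).ne'

lemma RS_bound {K : ℝ} (hP : ∀ p ∈ P, p.Prime) (hr : ∀ p ∈ P, 0 ≤ r p) (hQ : 1 ≤ Q) (hK : 0 ≤ K)
    (hy : ∀ S ∈ FS P Q, ‖y S‖ ≤ K * ∏ p ∈ S, r p) (v : ℝ) :
    ‖RS P Q y ((v : ℂ) * Complex.I)‖ ^ 2 ≤ K ^ 2 * (Q * EP P r) := by
  have h1 : ‖RS P Q y ((v : ℂ) * Complex.I)‖ ≤ K * ∑ S ∈ FS P Q, ∏ p ∈ S, r p := by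
    unfold RS
    rw [mul_sum]
    refine (norm_sum_le _ _).trans (sum_le_sum fun S hS => ?_)
    rw [norm_mul, Complex.norm_natCast_cpow_of_pos (FS_pos hP hS)]
    simpa using hy S hS
  refine (pow_le_pow_left₀ (norm_nonneg _) h1 2).trans ?_
  rw [mul_pow]
  exact mul_le_mul_of_nonneg_left (sum_FS hP hr hQ) (sq_nonneg _)

end res

lemma DD_cont (g : ℕ → ℂ) (N : ℕ) (σ : ℝ) :
    Continuous fun v : ℝ => DD g N ((σ : ℂ) + (v : ℂ) * Complex.I) :=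
  (DD_diff g N).continuous.comp (by fun_prop)

/-! ### powers of `T` -/

section powers

variable {T c Q δ : ℝ} {N : ℕ}

lemma pow_bd (hT : 1 ≤ T) (hc : 0 < c) (hc1 : c ≤ 1 / 400) (hQ : 1 ≤ Q) (hQT : Q ≤ T ^ c)
    (hN : (N : ℝ) ≤ T ^ (4 * c)) : Q ^ 2 * ((N ^ 2 : ℕ) : ℝ) ^ 5 ≤ T ^ (1 / 2 : ℝ) := by
  have hT0 : 0 < T := by linarith
  have h1 : Q ^ 2 ≤ (T ^ c) ^ 2 := pow_le_pow_left₀ (by linarith) hQT 2
  have h2 : ((N ^ 2 : ℕ) : ℝ) ^ 5 ≤ ((T ^ (4 * c)) ^ 2) ^ 5 := by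
    push_cast
    exact pow_le_pow_left₀ (by positivity) (pow_le_pow_left₀ (by positivity) hN 2) 5
  calc Q ^ 2 * ((N ^ 2 : ℕ) : ℝ) ^ 5 ≤ (T ^ c) ^ 2 * ((T ^ (4 * c)) ^ 2) ^ 5 :=
        mul_le_mul h1 h2 (by positivity) (by positivity)
    _ = T ^ (42 * c) := by
        rw [← Real.rpow_natCast (T ^ c), ← Real.rpow_natCast (T ^ (4 * c)), ← Real.rpow_mul hT0.le,
          ← Real.rpow_mul hT0.le, ← Real.rpow_natCast (T ^ _), ← Real.rpow_mul hT0.le,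
          ← Real.rpow_add hT0]
        congr 1
        push_cast
        ring
    _ ≤ T ^ (1 / 2 : ℝ) := Real.rpow_le_rpow_of_exponent_le hT (by linarith)

lemma pow_bd2 (hT : 1 ≤ T) (hc : 0 < c) (hc1 : c ≤ 1 / 400) (hQ : 1 ≤ Q) (hQT : Q ≤ T ^ c)
    (hN : (N : ℝ) ≤ T ^ (4 * c)) : Q * (N : ℝ) ^ 4 ≤ T := by
  have hT0 : 0 < T := by linarith
  calc Q * (N : ℝ) ^ 4 ≤ T ^ c * (T ^ (4 * c)) ^ 4 :=
        mul_le_mul hQT (pow_le_pow_left₀ (by positivity) hN 4) (by positivity) (by positivity)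
    _ = T ^ (17 * c) := by
        rw [← Real.rpow_natCast (T ^ (4 * c)), ← Real.rpow_mul hT0.le, ← Real.rpow_add hT0]
        congr 1
        push_cast
        ring
    _ ≤ T ^ (1 : ℝ) := Real.rpow_le_rpow_of_exponent_le hT (by linarith)
    _ = T := Real.rpow_one T

lemma ratio (hT : 1 ≤ T) (hc : 0 < c) (hQ : 1 ≤ Q) (hQT : Q ≤ T ^ c)
    (hN : T ^ (4 * c) / 2 ≤ (N : ℝ)) (hδ : 0 ≤ δ) (hδ1 : δ ≤ 1 / 16) :
    ((N : ℝ) / Q) ^ (-(2 * δ)) ≤ 2 * T ^ (-(c * δ)) := by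
  have hT0 : 0 < T := by linarith
  have h1 : T ^ (3 * c) / 2 ≤ (N : ℝ) / Q := by
    rw [le_div_iff₀ (by linarith)]
    calc T ^ (3 * c) / 2 * Q ≤ T ^ (3 * c) / 2 * T ^ c := by gcongr
      _ = T ^ (4 * c) / 2 := by
        rw [div_mul_eq_mul_div, ← Real.rpow_add hT0]
        congr 2
        ring
      _ ≤ _ := hN
  have h2 : 0 < T ^ (3 * c) / 2 := by positivity
  calc ((N : ℝ) / Q) ^ (-(2 * δ)) ≤ (T ^ (3 * c) / 2) ^ (-(2 * δ)) :=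
        Real.rpow_le_rpow_of_nonpos h2 h1 (by linarith)
    _ = 2 ^ (2 * δ) * T ^ (-(6 * c * δ)) := by
        rw [Real.div_rpow (by positivity) (by norm_num), ← Real.rpow_mul hT0.le,
          Real.rpow_neg (by norm_num : (0 : ℝ) ≤ 2), div_inv_eq_mul, mul_comm]
        congr 2
        ring
    _ ≤ 2 ^ (1 : ℝ) * T ^ (-(c * δ)) := by
        refine mul_le_mul (Real.rpow_le_rpow_of_exponent_le (by norm_num) (by linarith))
          (Real.rpow_le_rpow_of_exponent_le hT ?_) (by positivity) (by positivity)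
        nlinarith [mul_nonneg hc.le hδ]
    _ = _ := by rw [Real.rpow_one]

lemma log_bd (hT : 3 ≤ T) (hc : 0 < c) (hc1 : c ≤ 1 / 400) (hN1 : 1 ≤ N)
    (hN : (N : ℝ) ≤ T ^ (4 * c)) : (1 + Real.log ((N ^ 2 : ℕ) : ℝ)) ^ 4 ≤ 16 * Real.log T ^ 4 := by
  have hT0 : 0 < T := by linarith
  have hL : 1 ≤ Real.log T := by
    rw [Real.le_log_iff_exp_le hT0]
    linarith [Real.exp_one_lt_d9]
  have hN0 : (1 : ℝ) ≤ N := by exact_mod_cast hN1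
  have h1 : Real.log ((N ^ 2 : ℕ) : ℝ) ≤ Real.log T := by
    push_cast
    rw [Real.log_pow]
    have h2 := Real.log_le_log (by linarith) hN
    rw [Real.log_rpow hT0] at h2
    push_cast
    nlinarith
  have h3 : 0 ≤ Real.log ((N ^ 2 : ℕ) : ℝ) := Real.log_nonneg (by
    push_cast
    nlinarith)
  calc (1 + Real.log ((N ^ 2 : ℕ) : ℝ)) ^ 4 ≤ (2 * Real.log T) ^ 4 :=
        pow_le_pow_left₀ (by linarith) (by linarith) 4
    _ = _ := by ring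

end powers

/-! ### the integral over the critical line -/

lemma cv_zero (N : ℕ) : cv N 0 = 0 := by
  have h := cv_norm N 0
  unfold dv at h
  simp only [Nat.divisors_zero, card_empty, Nat.cast_zero] at h
  exact norm_le_zero_iff.1 h

/-- Lower-bounding the exponent: the mean square of `D M` against the resonator. -/
lemma DM_line (hA : S_A) {P : Finset ℕ} {r : ℕ → ℝ} {Q K T c : ℝ} {y : Finset ℕ → ℂ} {N : ℕ}
    (hP : ∀ p ∈ P, p.Prime) (hr : ∀ p ∈ P, 0 ≤ r p) (hQ : 1 ≤ Q) (hK : 0 ≤ K)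
    (hy : ∀ S ∈ FS P Q, ‖y S‖ ≤ K * ∏ p ∈ S, r p) (hT : 3 ≤ T) (hc : 0 < c) (hc1 : c ≤ 1 / 400)
    (hQT : Q ≤ T ^ c) (hN1 : 1 ≤ N) (hN : (N : ℝ) ≤ T ^ (4 * c)) :
    ∫ v in (T / 4)..(8 * T), ‖DD (cv N) (N ^ 2) (((1 / 2 : ℝ) : ℂ) + (v : ℂ) * Complex.I)‖ ^ 2 *
      ‖RS P Q y ((v : ℂ) * Complex.I)‖ ^ 2 ≤ 128 * T * Real.log T ^ 4 * (K ^ 2 * EP P r) := by
  have hEP := EP_one_le hr
  have hL : 1 ≤ Real.log T := by
    rw [Real.le_log_iff_exp_le (by linarith)]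
    linarith [Real.exp_one_lt_d9]
  have h1 := hA P r Q K y hP hr hQ hK hy 0 (N ^ 2) (cv N) (Nat.one_le_pow _ _ hN1) (cv_norm N)
    (fun k hk => by rw [Nat.le_zero.1 hk]; exact cv_zero N) (1 / 2) (T / 4) (8 * T) le_rfl
    (by linarith)
  refine h1.trans ?_
  have h2 : ∑ k ∈ (Icc 1 (N ^ 2)).filter (fun k : ℕ => ((0 : ℕ) : ℝ) < (k : ℝ) * Q),
      dv k ^ 2 * (k : ℝ) ^ (-(2 * (1 / 2 : ℝ))) ≤ 16 * Real.log T ^ 4 := by
    refine le_trans ?_ ((dv_sum (N ^ 2) (Nat.one_le_pow _ _ hN1)).trans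
      (log_bd hT hc hc1 hN1 hN))
    refine le_trans (sum_le_sum_of_subset_of_nonneg (filter_subset _ _) fun k _ _ => ?_)
      (le_of_eq (sum_congr rfl fun k _ => ?_))
    · positivity
    · have e : -(2 * (1 / 2 : ℝ)) = -1 := by norm_num
      rw [e, Real.rpow_neg_one]
      rfl
  have h3 := pow_bd (by linarith : 1 ≤ T) hc hc1 hQ hQT hN
  have h4 : T ^ (1 / 2 : ℝ) ≤ T := by
    calc T ^ (1 / 2 : ℝ) ≤ T ^ (1 : ℝ) :=
          Real.rpow_le_rpow_of_exponent_le (by linarith) (by norm_num)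
      _ = T := Real.rpow_one T
  have hL4 : 1 ≤ Real.log T ^ 4 := one_le_pow₀ hL
  have h5 : (8 * T - T / 4) * (∑ k ∈ (Icc 1 (N ^ 2)).filter
      (fun k : ℕ => ((0 : ℕ) : ℝ) < (k : ℝ) * Q), dv k ^ 2 * (k : ℝ) ^ (-(2 * (1 / 2 : ℝ)))) ≤
      (8 * T - T / 4) * (16 * Real.log T ^ 4) := mul_le_mul_of_nonneg_left h2 (by linarith)
  have h6 : T ≤ T * Real.log T ^ 4 := le_mul_of_one_le_right (by linarith) hL4
  have h7 : (8 * T - T / 4) * (∑ k ∈ (Icc 1 (N ^ 2)).filter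
      (fun k : ℕ => ((0 : ℕ) : ℝ) < (k : ℝ) * Q), dv k ^ 2 * (k : ℝ) ^ (-(2 * (1 / 2 : ℝ)))) +
      4 * Q ^ 2 * ((N ^ 2 : ℕ) : ℝ) ^ 5 ≤ 128 * T * Real.log T ^ 4 := by
    nlinarith
  calc _ ≤ K ^ 2 * EP P r * (128 * T * Real.log T ^ 4) :=
        mul_le_mul_of_nonneg_left h7 (by positivity)
    _ = _ := by ring

/-- The mean square of `(ζ - D) M` on the critical line against the resonator. -/
lemma line_bd (hA : S_A) {P : Finset ℕ} {r : ℕ → ℝ} {Q K T c C₁ : ℝ} {y : Finset ℕ → ℂ} {N : ℕ}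
    (hP : ∀ p ∈ P, p.Prime) (hr : ∀ p ∈ P, 0 ≤ r p) (hQ : 1 ≤ Q) (hK : 0 ≤ K)
    (hy : ∀ S ∈ FS P Q, ‖y S‖ ≤ K * ∏ p ∈ S, r p) (hT : 3 ≤ T) (hc : 0 < c) (hc1 : c ≤ 1 / 400)
    (hQT : Q ≤ T ^ c) (hN1 : 1 ≤ N) (hN : (N : ℝ) ≤ T ^ (4 * c))
    (h : ∫ v in (T / 4)..(8 * T), ‖riemannZeta (((1 / 2 : ℝ) : ℂ) + (v : ℂ) * Complex.I)‖ ^ 2 *
      ‖DD mu N (((1 / 2 : ℝ) : ℂ) + (v : ℂ) * Complex.I)‖ ^ 2 *
      ‖RS P Q y ((v : ℂ) * Complex.I)‖ ^ 2 ≤ C₁ * T * (Real.log T) ^ 4 * (K ^ 2 * EP P r)) :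
    ∫ v in (T / 4)..(8 * T), ‖riemannZeta (((1 / 2 : ℝ) : ℂ) + (v : ℂ) * Complex.I) *
      DD mu N (((1 / 2 : ℝ) : ℂ) + (v : ℂ) * Complex.I) -
      DD (fun _ => 1) N (((1 / 2 : ℝ) : ℂ) + (v : ℂ) * Complex.I) *
        DD mu N (((1 / 2 : ℝ) : ℂ) + (v : ℂ) * Complex.I)‖ ^ 2 *
      ‖RS P Q y ((v : ℂ) * Complex.I)‖ ^ 2 ≤
    (2 * C₁ + 256) * T * (Real.log T) ^ 4 * (K ^ 2 * EP P r) := by
  have h1 := DM_line hA hP hr hQ hK hy hT hc hc1 hQT hN1 hN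
  have c0 : Continuous fun v : ℝ => riemannZeta (((1 / 2 : ℝ) : ℂ) + (v : ℂ) * Complex.I) :=
    zeta_cont (by norm_num)
  have c1 := DD_cont mu N (1 / 2)
  have c2 := DD_cont (fun _ => 1) N (1 / 2)
  have c3 := DD_cont (cv N) (N ^ 2) (1 / 2)
  have c4 := RS_cont (Q := Q) (y := y) hP
  have d1 : Continuous fun v : ℝ => 2 * (‖riemannZeta (((1 / 2 : ℝ) : ℂ) +
      (v : ℂ) * Complex.I)‖ ^ 2 * ‖DD mu N (((1 / 2 : ℝ) : ℂ) + (v : ℂ) * Complex.I)‖ ^ 2 *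
      ‖RS P Q y ((v : ℂ) * Complex.I)‖ ^ 2) :=
    continuous_const.mul (((c0.norm.pow 2).mul (c1.norm.pow 2)).mul (c4.norm.pow 2))
  have d2 : Continuous fun v : ℝ => 2 * (‖DD (cv N) (N ^ 2) (((1 / 2 : ℝ) : ℂ) +
      (v : ℂ) * Complex.I)‖ ^ 2 * ‖RS P Q y ((v : ℂ) * Complex.I)‖ ^ 2) :=
    continuous_const.mul ((c3.norm.pow 2).mul (c4.norm.pow 2))
  have h2 : ∫ v in (T / 4)..(8 * T), ‖riemannZeta (((1 / 2 : ℝ) : ℂ) + (v : ℂ) * Complex.I) *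
      DD mu N (((1 / 2 : ℝ) : ℂ) + (v : ℂ) * Complex.I) -
      DD (fun _ => 1) N (((1 / 2 : ℝ) : ℂ) + (v : ℂ) * Complex.I) *
        DD mu N (((1 / 2 : ℝ) : ℂ) + (v : ℂ) * Complex.I)‖ ^ 2 *
      ‖RS P Q y ((v : ℂ) * Complex.I)‖ ^ 2 ≤ ∫ v in (T / 4)..(8 * T),
      (2 * (‖riemannZeta (((1 / 2 : ℝ) : ℂ) + (v : ℂ) * Complex.I)‖ ^ 2 *
      ‖DD mu N (((1 / 2 : ℝ) : ℂ) + (v : ℂ) * Complex.I)‖ ^ 2 *
      ‖RS P Q y ((v : ℂ) * Complex.I)‖ ^ 2) + 2 * (‖DD (cv N) (N ^ 2) (((1 / 2 : ℝ) : ℂ) +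
      (v : ℂ) * Complex.I)‖ ^ 2 * ‖RS P Q y ((v : ℂ) * Complex.I)‖ ^ 2)) := by
    refine intervalIntegral.integral_mono_on (by linarith) ?_ ?_ fun v _ => ?_
    · exact (((((c0.mul c1).sub (c2.mul c1)).norm.pow 2).mul
        (c4.norm.pow 2))).intervalIntegrable _ _
    · exact (d1.add d2).intervalIntegrable _ _
    · rw [DD_mul]
      set a := riemannZeta (((1 / 2 : ℝ) : ℂ) + (v : ℂ) * Complex.I) *
        DD mu N (((1 / 2 : ℝ) : ℂ) + (v : ℂ) * Complex.I) with ha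
      set b := DD (cv N) (N ^ 2) (((1 / 2 : ℝ) : ℂ) + (v : ℂ) * Complex.I)
      have e1 : ‖riemannZeta (((1 / 2 : ℝ) : ℂ) + (v : ℂ) * Complex.I)‖ ^ 2 *
        ‖DD mu N (((1 / 2 : ℝ) : ℂ) + (v : ℂ) * Complex.I)‖ ^ 2 = ‖a‖ ^ 2 := by
        rw [ha, norm_mul, mul_pow]
      rw [e1]
      have e2 : ‖a - b‖ ^ 2 ≤ 2 * ‖a‖ ^ 2 + 2 * ‖b‖ ^ 2 := by
        have := pow_le_pow_left₀ (norm_nonneg _) (norm_sub_le a b) 2
        nlinarith [sq_nonneg (‖a‖ - ‖b‖)]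
      have e3 := mul_le_mul_of_nonneg_right e2 (sq_nonneg ‖RS P Q y ((v : ℂ) * Complex.I)‖)
      refine e3.trans (le_of_eq ?_)
      ring
  rw [intervalIntegral.integral_add (d1.intervalIntegrable _ _) (d2.intervalIntegrable _ _),
    intervalIntegral.integral_const_mul, intervalIntegral.integral_const_mul] at h2
  refine h2.trans ?_
  linarith

/-! ### the far part -/

lemma far_bd (hA : S_A) {P : Finset ℕ} {r : ℕ → ℝ} {Q K T c δ : ℝ} {y : Finset ℕ → ℂ} {N : ℕ}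
    (hP : ∀ p ∈ P, p.Prime) (hr : ∀ p ∈ P, 0 ≤ r p) (hQ : 1 ≤ Q) (hK : 0 ≤ K)
    (hy : ∀ S ∈ FS P Q, ‖y S‖ ≤ K * ∏ p ∈ S, r p) (hT : 3 ≤ T) (hc : 0 < c) (hc1 : c ≤ 1 / 400)
    (hQT : Q ≤ T ^ c) (hN1 : 1 ≤ N) (hN : (N : ℝ) ≤ T ^ (4 * c)) (hN2 : T ^ (4 * c) / 2 ≤ N)
    (hδ : 0 ≤ δ) (hδ1 : δ ≤ 1 / 16) :
    ∫ v in (T / 2)..(4 * T), ‖DD (gt N) (N ^ 2) (((1 / 2 + δ : ℝ) : ℂ) + (v : ℂ) * Complex.I)‖ ^ 2 *
      ‖RS P Q y ((v : ℂ) * Complex.I)‖ ^ 2 ≤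
      116 * T * Real.log T ^ 4 * T ^ (-(c * δ)) * (K ^ 2 * EP P r) := by
  have hEP := EP_one_le hr
  have hT0 : 0 < T := by linarith
  have hL : 1 ≤ Real.log T := by
    rw [Real.le_log_iff_exp_le (by linarith)]
    linarith [Real.exp_one_lt_d9]
  have h1 := hA P r Q K y hP hr hQ hK hy N (N ^ 2) (gt N) (Nat.one_le_pow _ _ hN1) (gt_norm N)
    (gt_low N) (1 / 2 + δ) (T / 2) (4 * T) (by linarith) (by linarith)
  refine h1.trans ?_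
  have hN0 : (1 : ℝ) ≤ N := by exact_mod_cast hN1
  have hr1 := ratio (by linarith : 1 ≤ T) hc hQ hQT hN2 hδ hδ1
  have hrn : 0 ≤ ((N : ℝ) / Q) ^ (-(2 * δ)) := by positivity
  have h2 : ∑ k ∈ (Icc 1 (N ^ 2)).filter (fun k : ℕ => (N : ℝ) < (k : ℝ) * Q),
      dv k ^ 2 * (k : ℝ) ^ (-(2 * (1 / 2 + δ))) ≤
      ((N : ℝ) / Q) ^ (-(2 * δ)) * (16 * Real.log T ^ 4) := by
    refine le_trans ?_ (mul_le_mul_of_nonneg_left ((dv_sum (N ^ 2)
      (Nat.one_le_pow _ _ hN1)).trans (log_bd hT hc hc1 hN1 hN)) hrn)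
    rw [mul_sum]
    refine le_trans (sum_le_sum fun k hk => ?_) (sum_le_sum_of_subset_of_nonneg
      (filter_subset (fun k : ℕ => (N : ℝ) < (k : ℝ) * Q) _) fun k _ _ => ?_)
    · rw [mem_filter, mem_Icc] at hk
      have hk0 : (0 : ℝ) < k := by exact_mod_cast hk.1.1
      have e1 : (k : ℝ) ^ (-(2 * (1 / 2 + δ))) = (k : ℝ) ^ (-(2 * δ)) * (k : ℝ)⁻¹ := by
        rw [← Real.rpow_neg_one (k : ℝ), ← Real.rpow_add hk0]
        congr 1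
        ring
      have e2 : (k : ℝ) ^ (-(2 * δ)) ≤ ((N : ℝ) / Q) ^ (-(2 * δ)) := by
        refine Real.rpow_le_rpow_of_nonpos (by positivity) ?_ (by linarith)
        rw [div_le_iff₀ (by linarith)]
        exact hk.2.le
      rw [e1]
      calc dv k ^ 2 * ((k : ℝ) ^ (-(2 * δ)) * (k : ℝ)⁻¹) ≤
          dv k ^ 2 * (((N : ℝ) / Q) ^ (-(2 * δ)) * (k : ℝ)⁻¹) := by gcongr
        _ = _ := by ring
    · positivity
  have h3 := pow_bd (by linarith : 1 ≤ T) hc hc1 hQ hQT hN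
  have h4 : T ^ (1 / 2 : ℝ) ≤ T * T ^ (-(c * δ)) := by
    calc T ^ (1 / 2 : ℝ) ≤ T ^ (1 + -(c * δ)) := by
          refine Real.rpow_le_rpow_of_exponent_le (by linarith) ?_
          nlinarith
      _ = T * T ^ (-(c * δ)) := by rw [Real.rpow_add hT0, Real.rpow_one]
  have hL4 : 1 ≤ Real.log T ^ 4 := one_le_pow₀ hL
  have h5 : (4 * T - T / 2) * (∑ k ∈ (Icc 1 (N ^ 2)).filter
      (fun k : ℕ => (N : ℝ) < (k : ℝ) * Q), dv k ^ 2 * (k : ℝ) ^ (-(2 * (1 / 2 + δ)))) ≤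
      (4 * T - T / 2) * ((2 * T ^ (-(c * δ))) * (16 * Real.log T ^ 4)) := by
    refine mul_le_mul_of_nonneg_left (h2.trans ?_) (by linarith)
    exact mul_le_mul_of_nonneg_right hr1 (by positivity)
  have h6 : T * T ^ (-(c * δ)) ≤ T * T ^ (-(c * δ)) * Real.log T ^ 4 :=
    le_mul_of_one_le_right (by positivity) hL4
  have h7 : (4 * T - T / 2) * (∑ k ∈ (Icc 1 (N ^ 2)).filter
      (fun k : ℕ => (N : ℝ) < (k : ℝ) * Q), dv k ^ 2 * (k : ℝ) ^ (-(2 * (1 / 2 + δ)))) +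
      4 * Q ^ 2 * ((N ^ 2 : ℕ) : ℝ) ^ 5 ≤ 116 * (T * T ^ (-(c * δ)) * Real.log T ^ 4) := by
    nlinarith
  calc _ ≤ K ^ 2 * EP P r * (116 * (T * T ^ (-(c * δ)) * Real.log T ^ 4)) :=
        mul_le_mul_of_nonneg_left h7 (by positivity)
    _ = _ := by ring

/-! ### the theorem -/

lemma fac_bd {N : ℕ} (hN1 : 1 ≤ N) {δ : ℝ} (hδ0 : 0 < δ) (hδ1 : δ ≤ 1 / 16) :
    ((N : ℝ) ^ (2 * δ)) / 36 ≤ ((1 - 8 * δ) * (N : ℝ) ^ δ / (1 + δ) ^ 16) ^ 2 := by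
  have hN0 : (1 : ℝ) ≤ N := by exact_mod_cast hN1
  have d1 : (N : ℝ) ^ (2 * δ) = ((N : ℝ) ^ δ) ^ 2 := by
    rw [← Real.rpow_natCast ((N : ℝ) ^ δ), ← Real.rpow_mul (by positivity)]
    congr 1
    push_cast
    ring
  have d2 : (1 + δ) ^ 16 ≤ 3 := by
    have := Real.add_one_le_exp δ
    calc (1 + δ) ^ 16 ≤ (Real.exp δ) ^ 16 := pow_le_pow_left₀ (by linarith) (by linarith) 16
      _ = Real.exp (16 * δ) := by rw [← Real.exp_nat_mul]; norm_num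
      _ ≤ Real.exp 1 := Real.exp_le_exp.mpr (by linarith)
      _ ≤ 3 := by linarith [Real.exp_one_lt_d9]
  have d3 : (N : ℝ) ^ δ / 6 ≤ (1 - 8 * δ) * (N : ℝ) ^ δ / (1 + δ) ^ 16 := by
    rw [div_le_div_iff₀ (by norm_num) (by positivity)]
    have : 0 < (N : ℝ) ^ δ := by positivity
    nlinarith
  calc (N : ℝ) ^ (2 * δ) / 36 = ((N : ℝ) ^ δ / 6) ^ 2 := by rw [d1]; ring
    _ ≤ _ := pow_le_pow_left₀ (by positivity) d3 2

lemma tiny_bd {T δ U W : ℝ} (hT : 100 ≤ T) (hU : U ^ 2 = T) (hδ0 : 0 < δ)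
    (hδ : 1 / Real.log T ≤ δ) (hL : 1 ≤ Real.log T) (hW : 0 ≤ W) :
    (4 * T - T / 2) * (2 * (2 * (625 * T * W) * (1 + (T / 2) ^ 2)) * (1 + (4 * T - T / 2) ^ 2)) *
      (Real.pi * (1 / δ) * (U ^ 28)⁻¹) ≤ 455000 * (T * Real.log T ^ 4 * W) := by
  have hT0 : 0 < T := by linarith
  have e1 : U ^ 28 = T ^ 14 := by rw [← hU]; ring
  have e2 : 4 * T - T / 2 = 7 / 2 * T := by ring
  have c1 : 1 / δ ≤ Real.log T := by
    rw [div_le_iff₀ hδ0]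
    rw [div_le_iff₀ (by linarith)] at hδ
    linarith
  have c2 : Real.pi ≤ 4 := Real.pi_le_four
  have c3 : 1 + (T / 2) ^ 2 ≤ T ^ 2 := by nlinarith
  have c4 : 1 + (7 / 2 * T) ^ 2 ≤ 13 * T ^ 2 := by nlinarith
  have c5 : T ^ 6 * (T ^ 14)⁻¹ ≤ 1 := by
    rw [← div_eq_mul_inv, div_le_one (by positivity)]
    exact pow_le_pow_right₀ (by linarith) (by norm_num)
  rw [e1, e2]
  calc 7 / 2 * T * (2 * (2 * (625 * T * W) * (1 + (T / 2) ^ 2)) * (1 + (7 / 2 * T) ^ 2)) *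
      (Real.pi * (1 / δ) * (T ^ 14)⁻¹) ≤
      7 / 2 * T * (2 * (2 * (625 * T * W) * T ^ 2) * (13 * T ^ 2)) *
        (4 * Real.log T * (T ^ 14)⁻¹) := by gcongr
    _ = 455000 * (W * Real.log T) * (T ^ 6 * (T ^ 14)⁻¹) := by ring
    _ ≤ 455000 * (W * Real.log T) * 1 := by gcongr
    _ ≤ 455000 * (T * Real.log T ^ 4 * W) := by
      have f1 : Real.log T ≤ Real.log T ^ 4 := le_self_pow₀ hL (by norm_num)
      have f2 : Real.log T ^ 4 ≤ T * Real.log T ^ 4 :=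
        le_mul_of_one_le_left (by positivity) (by linarith)
      have f3 : W * Real.log T ≤ W * (T * Real.log T ^ 4) :=
        mul_le_mul_of_nonneg_left (f1.trans f2) hW
      linarith

set_option maxHeartbeats 4000000 in
theorem t_G3 (hA : S_A) (hTW : S_TW) : S_G3 := by
  obtain ⟨η, C₁, T₁, hη, hη1, hC₁, hT₁, hTW'⟩ := hTW
  obtain ⟨c, hη4⟩ : ∃ c : ℝ, η = 4 * c := ⟨η / 4, by ring⟩
  have hc0 : 0 < c := by linarith
  have hc1 : c ≤ 1 / 400 := by linarith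
  set C₂ : ℝ := 2 * C₁ + 256 + 455000 with hC₂
  have hC₂0 : 0 < C₂ := by positivity
  refine ⟨η, c, 232 + 144 * C₂, max T₁ 100, hη, hη1, hc0, by linarith, by positivity,
    le_trans (by norm_num) (le_max_right _ _), ?_⟩
  intro T hT δ hδ hδ1 P r Q K y hP hr hQ hQT hK hy
  have hT100 : 100 ≤ T := (le_max_right _ _).trans hT
  have hTT : T₁ ≤ T := (le_max_left _ _).trans hT
  have hT0 : 0 < T := by linarith
  have hL : 1 ≤ Real.log T := by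
    rw [Real.le_log_iff_exp_le hT0]
    linarith [Real.exp_one_lt_d9]
  have hδ0 : 0 < δ := lt_of_lt_of_le (by positivity) hδ
  have hEP := EP_one_le hr
  have hTη : 1 ≤ T ^ η := Real.one_le_rpow (by linarith) hη.le
  set N : ℕ := ⌊T ^ η⌋₊ with hNd
  have hN1 : 1 ≤ N := Nat.le_floor (by simpa using hTη)
  have hNη : (N : ℝ) ≤ T ^ η := Nat.floor_le (by positivity)
  have hN : (N : ℝ) ≤ T ^ (4 * c) := by rw [← hη4]; exact hNη
  have hN0 : (1 : ℝ) ≤ N := by exact_mod_cast hN1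
  have hN2 : T ^ (4 * c) / 2 ≤ N := by
    have h1 := Nat.lt_floor_add_one (T ^ η)
    rw [← hη4]
    linarith
  have hT1 : (1 : ℝ) ≤ T := by linarith
  have hT3 : (3 : ℝ) ≤ T := by linarith
  have hQη : Q ≤ T ^ η := hQT.trans (Real.rpow_le_rpow_of_exponent_le hT1 (by linarith))
  set U : ℝ := Real.sqrt T with hUd
  have hU2 : U ^ 2 = T := Real.sq_sqrt hT0.le
  have hU10 : 10 ≤ U := by
    rw [hUd]
    apply Real.le_sqrt_of_sq_le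
    linarith
  have hUT : 10 * U ≤ T := by nlinarith
  -- the functions
  set A : ℂ → ℂ := fun z => DD mu N z * RA P Q δ y z with hAd
  set D : ℂ → ℂ := fun z => DD (fun _ => 1) N z * A z with hDd
  have hAdf : Differentiable ℂ A := (DD_diff mu N).mul (RA_diff hP)
  have hDdf : Differentiable ℂ D := (DD_diff _ N).mul hAdf
  set CR : ℝ := ∑ S ∈ FS P Q, ‖y S * ((qS S : ℕ) : ℂ) ^ ((1 / 2 + δ : ℝ) : ℂ)‖ with hCR
  have hCR0 : 0 ≤ CR := sum_nonneg fun _ _ => norm_nonneg _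
  have hAb : ∀ z : ℂ, 1 / 2 ≤ z.re → ‖A z‖ ≤ N * CR := by
    intro z hz
    change ‖DD mu N z * RA P Q δ y z‖ ≤ _
    rw [norm_mul]
    exact mul_le_mul (DD_norm_le mu_norm N (by linarith)) (RA_bound hP z hz) (norm_nonneg _)
      (by positivity)
  have hDb : ∀ z : ℂ, 1 / 2 ≤ z.re → ‖D z‖ ≤ N * (N * CR) := by
    intro z hz
    change ‖DD (fun _ => 1) N z * A z‖ ≤ _
    rw [norm_mul]
    exact mul_le_mul (DD_norm_le (fun _ => by simp) N (by linarith)) (hAb z hz) (norm_nonneg _)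
      (by positivity)
  obtain ⟨C3, hC3⟩ := zeta_sub_far N hN1
  have hDy : ∀ z : ℂ, (∑ n ∈ Icc 1 N, (n : ℂ) ^ (-z)) = DD (fun _ => 1) N z := by
    intro z
    unfold DD
    simp
  have hfar : ∀ z : ℂ, 2 ≤ z.re → ‖riemannZeta z * A z - D z‖ * (N : ℝ) ^ z.re ≤
      C3 * (N * CR) := by
    intro z hz
    have h1 := hC3 z hz
    rw [hDy] at h1
    have h2 : riemannZeta z * A z - D z = (riemannZeta z - DD (fun _ => 1) N z) * A z := by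
      change riemannZeta z * A z - DD (fun _ => 1) N z * A z = _
      ring
    rw [h2, norm_mul]
    have h3 := hAb z (by linarith)
    have h4 : 0 ≤ C3 := le_trans (by positivity) h1
    calc ‖riemannZeta z - DD (fun _ => 1) N z‖ * ‖A z‖ * (N : ℝ) ^ z.re
        = (‖riemannZeta z - DD (fun _ => 1) N z‖ * (N : ℝ) ^ z.re) * ‖A z‖ := by ring
      _ ≤ C3 * (N * CR) := mul_le_mul h1 h3 (norm_nonneg _) h4
  -- the values
  set K' : ℝ := K * Q ^ δ with hK'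
  have hK'0 : 0 ≤ K' := by positivity
  have hyd := yd_bound (δ := δ) hP hr hQ hK hδ0.le hy
  set W : ℝ := K' ^ 2 * EP P r with hW
  have hW0 : 0 ≤ W := by positivity
  have hqd0 : ∀ v : ℝ, qd A D (1 / 2) v = ‖riemannZeta (((1 / 2 : ℝ) : ℂ) + (v : ℂ) * Complex.I) *
      DD mu N (((1 / 2 : ℝ) : ℂ) + (v : ℂ) * Complex.I) -
      DD (fun _ => 1) N (((1 / 2 : ℝ) : ℂ) + (v : ℂ) * Complex.I) *
        DD mu N (((1 / 2 : ℝ) : ℂ) + (v : ℂ) * Complex.I)‖ ^ 2 *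
      ‖RS P Q (yd δ y) ((v : ℂ) * Complex.I)‖ ^ 2 := by
    intro v
    unfold qd
    rw [hDd, hAd]
    simp only
    rw [RA_line0 hP, ← mul_pow, ← norm_mul]
    congr 2
    ring
  have hqd1 : ∀ v : ℝ, qd A D (1 / 2 + δ) v =
      ‖riemannZeta (((1 / 2 + δ : ℝ) : ℂ) + (v : ℂ) * Complex.I) *
      DD mu N (((1 / 2 + δ : ℝ) : ℂ) + (v : ℂ) * Complex.I) -
      DD (fun _ => 1) N (((1 / 2 + δ : ℝ) : ℂ) + (v : ℂ) * Complex.I) *
        DD mu N (((1 / 2 + δ : ℝ) : ℂ) + (v : ℂ) * Complex.I)‖ ^ 2 *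
      ‖RS P Q y ((v : ℂ) * Complex.I)‖ ^ 2 := by
    intro v
    unfold qd
    rw [hDd, hAd]
    simp only
    rw [RA_line1 hP, ← mul_pow, ← norm_mul]
    congr 2
    ring
  have hGB : ∀ x, qd A D (1 / 2) x ≤ (625 * T * W) * (1 + x ^ 2) := by
    intro x
    rw [hqd0]
    have a1 : ‖riemannZeta (((1 / 2 : ℝ) : ℂ) + x * Complex.I)‖ ≤ 12 * (1 + |x|) :=
      Pool.Agent.W184.zn_le' (σ := 1 / 2) (by norm_num) (by norm_num)
    have a2 : ‖DD (fun _ => 1) N (((1 / 2 : ℝ) : ℂ) + x * Complex.I)‖ ≤ N :=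
      DD_norm_le (fun _ => by simp) N (by simp)
    have a3 : ‖DD mu N (((1 / 2 : ℝ) : ℂ) + x * Complex.I)‖ ≤ N :=
      DD_norm_le mu_norm N (by simp)
    have a4 := (norm_sub_le (riemannZeta (((1 / 2 : ℝ) : ℂ) + x * Complex.I))
      (DD (fun _ => 1) N (((1 / 2 : ℝ) : ℂ) + x * Complex.I))).trans (add_le_add a1 a2)
    have hx := abs_nonneg x
    have a5 : 12 * (1 + |x|) + N ≤ 13 * N * (1 + |x|) := by
      nlinarith [mul_nonneg (by linarith : (0 : ℝ) ≤ (N : ℝ) - 1) hx]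
    have a6 := pow_le_pow_left₀ (norm_nonneg _) (a4.trans a5) 2
    have a7 : (13 * (N : ℝ) * (1 + |x|)) ^ 2 ≤ 338 * (N : ℝ) ^ 2 * (1 + x ^ 2) := by
      have b1 : (1 + |x|) ^ 2 ≤ 2 * (1 + x ^ 2) := by
        nlinarith [sq_nonneg (1 - |x|), sq_abs x]
      calc (13 * (N : ℝ) * (1 + |x|)) ^ 2 = 169 * (N : ℝ) ^ 2 * (1 + |x|) ^ 2 := by ring
        _ ≤ 169 * (N : ℝ) ^ 2 * (2 * (1 + x ^ 2)) := by gcongr
        _ = _ := by ring
    have a8 := pow_le_pow_left₀ (norm_nonneg _) a3 2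
    have a9 := RS_bound hP hr hQ hK'0 hyd x
    rw [← sub_mul, norm_mul, mul_pow]
    have a10 := pow_bd2 hT1 hc0 hc1 hQ hQT hN
    calc _ ≤ (338 * (N : ℝ) ^ 2 * (1 + x ^ 2)) * (N : ℝ) ^ 2 * (K' ^ 2 * (Q * EP P r)) :=
          mul_le_mul (mul_le_mul (a6.trans a7) a8 (by positivity) (by positivity)) a9
            (by positivity) (by positivity)
      _ = 338 * (Q * (N : ℝ) ^ 4) * W * (1 + x ^ 2) := by rw [hW]; ring
      _ ≤ 625 * T * W * (1 + x ^ 2) := by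
        have : 338 * (Q * (N : ℝ) ^ 4) ≤ 625 * T := by linarith
        gcongr
  have hmain := hp_win (Q := D) (A := A) (N := N) (C1 := N * (N * CR)) (C2 := C3 * (N * CR))
    (CA := N * CR) (Δ := δ) (a := T / 2) (b := 4 * T) (U := U) (B := 625 * T * W) hN0 hAdf hAb
    hDdf hDb hfar hδ0 (by linarith) (by linarith) (by linarith) (by positivity) hGB
  have htiny := tiny_bd hT100 hU2 hδ0 hδ hL hW0
  -- the line
  have hTWa := hTW' T hTT P r Q K' (yd δ y) hP hr hQ hQη hK'0 hyd N mu hN1 hNη mu_norm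
  have hline := line_bd hA hP hr hQ hK'0 hyd hT3 hc0 hc1 hQT hN1 hN hTWa
  have hwin : ∫ t in (T / 2 - U)..(4 * T + U), qd A D (1 / 2) t ≤
      (2 * C₁ + 256) * T * (Real.log T) ^ 4 * W := by
    have g1 : T / 4 ≤ T / 2 - U := by linarith
    have g2 : T / 2 - U ≤ 4 * T + U := by linarith
    have g3 : 4 * T + U ≤ 8 * T := by linarith
    have g4 : Continuous (qd A D (1 / 2)) := qd_cont hAdf hDdf (by norm_num)
    have g5 : 0 ≤ᵐ[volume.restrict (Set.Ioc (T / 4) (8 * T))] (qd A D (1 / 2)) :=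
      Filter.Eventually.of_forall fun t => qd_nonneg A D (1 / 2) t
    have g6 := intervalIntegral.integral_mono_interval g1 g2 g3 g5 (g4.intervalIntegrable _ _)
    refine g6.trans (le_trans (le_of_eq ?_) hline)
    exact intervalIntegral.integral_congr fun v _ => hqd0 v
  have hI0 : 0 ≤ ∫ t in (T / 2)..(4 * T), qd A D (1 / 2 + δ) t :=
    intervalIntegral.integral_nonneg (by linarith) fun t _ => qd_nonneg _ _ _ _
  have hfin : (N : ℝ) ^ (2 * δ) / 36 * ∫ t in (T / 2)..(4 * T), qd A D (1 / 2 + δ) t ≤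
      C₂ * (T * Real.log T ^ 4 * W) := by
    calc _ ≤ _ := mul_le_mul_of_nonneg_right (fac_bd hN1 hδ0 hδ1) hI0
      _ ≤ _ := hmain
      _ ≤ (2 * C₁ + 256) * T * (Real.log T) ^ 4 * W + 455000 * (T * Real.log T ^ 4 * W) :=
        add_le_add hwin htiny
      _ = _ := by rw [hC₂]; ring
  have hrat := ratio hT1 hc0 hQ hQT hN2 hδ0.le hδ1
  have hI2 : ∫ t in (T / 2)..(4 * T), qd A D (1 / 2 + δ) t ≤
      72 * C₂ * (T * Real.log T ^ 4 * T ^ (-(c * δ)) * (K ^ 2 * EP P r)) := by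
    have hNp : 0 < (N : ℝ) ^ (2 * δ) := by positivity
    have hQ0 : 0 < Q := by linarith
    have e1 : W = K ^ 2 * EP P r * Q ^ (2 * δ) := by
      rw [hW, hK', mul_pow, ← Real.rpow_natCast (Q ^ δ), ← Real.rpow_mul hQ0.le]
      have : δ * ((2 : ℕ) : ℝ) = 2 * δ := by push_cast; ring
      rw [this]
      ring
    have e2 : ((N : ℝ) / Q) ^ (-(2 * δ)) = ((N : ℝ) ^ (2 * δ))⁻¹ * Q ^ (2 * δ) := by
      rw [Real.div_rpow (by positivity) hQ0.le, Real.rpow_neg (by positivity),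
        Real.rpow_neg hQ0.le, div_inv_eq_mul]
    have e3 : 0 ≤ K ^ 2 * EP P r := by positivity
    calc ∫ t in (T / 2)..(4 * T), qd A D (1 / 2 + δ) t =
        36 * (((N : ℝ) ^ (2 * δ))⁻¹ * ((N : ℝ) ^ (2 * δ) / 36 *
          ∫ t in (T / 2)..(4 * T), qd A D (1 / 2 + δ) t)) := by field_simp
      _ ≤ 36 * (((N : ℝ) ^ (2 * δ))⁻¹ * (C₂ * (T * Real.log T ^ 4 * W))) := by gcongr
      _ = 36 * C₂ * (T * Real.log T ^ 4) * (K ^ 2 * EP P r) * ((N : ℝ) / Q) ^ (-(2 * δ)) := by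
        rw [e2, e1]
        ring
      _ ≤ 36 * C₂ * (T * Real.log T ^ 4) * (K ^ 2 * EP P r) * (2 * T ^ (-(c * δ))) := by
        gcongr
      _ = _ := by ring
  have hfarI := far_bd hA hP hr hQ hK hy hT3 hc0 hc1 hQT hN1 hN hN2 hδ0.le hδ1
  -- the sum
  have c0 : Continuous fun v : ℝ => riemannZeta (((1 / 2 + δ : ℝ) : ℂ) + (v : ℂ) * Complex.I) :=
    zeta_cont (by linarith)
  have c1 := DD_cont mu N (1 / 2 + δ)
  have c3 := DD_cont (gt N) (N ^ 2) (1 / 2 + δ)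
  have c4 := RS_cont (Q := Q) (y := y) hP
  have d1 : Continuous fun v : ℝ => 2 * (‖DD (gt N) (N ^ 2) (((1 / 2 + δ : ℝ) : ℂ) +
      (v : ℂ) * Complex.I)‖ ^ 2 * ‖RS P Q y ((v : ℂ) * Complex.I)‖ ^ 2) :=
    continuous_const.mul ((c3.norm.pow 2).mul (c4.norm.pow 2))
  have d2 : Continuous fun v : ℝ => 2 * qd A D (1 / 2 + δ) v :=
    continuous_const.mul (qd_cont hAdf hDdf (by linarith))
  have hsum : ∫ v in (T / 2)..(4 * T),
      ‖1 - riemannZeta (((1 / 2 + δ : ℝ) : ℂ) + (v : ℂ) * Complex.I) *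
      DD mu N (((1 / 2 + δ : ℝ) : ℂ) + (v : ℂ) * Complex.I)‖ ^ 2 *
      ‖RS P Q y ((v : ℂ) * Complex.I)‖ ^ 2 ≤ ∫ v in (T / 2)..(4 * T),
      (2 * (‖DD (gt N) (N ^ 2) (((1 / 2 + δ : ℝ) : ℂ) +
      (v : ℂ) * Complex.I)‖ ^ 2 * ‖RS P Q y ((v : ℂ) * Complex.I)‖ ^ 2) +
      2 * qd A D (1 / 2 + δ) v) := by
    refine intervalIntegral.integral_mono_on (by linarith) ?_ ?_ fun v _ => ?_
    · exact ((((continuous_const.sub (c0.mul c1)).norm.pow 2).mul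
        (c4.norm.pow 2))).intervalIntegrable _ _
    · exact (d1.add d2).intervalIntegrable _ _
    · rw [hqd1, ← one_sub N hN1]
      set z : ℂ := riemannZeta (((1 / 2 + δ : ℝ) : ℂ) + (v : ℂ) * Complex.I)
      set m : ℂ := DD mu N (((1 / 2 + δ : ℝ) : ℂ) + (v : ℂ) * Complex.I)
      set d : ℂ := DD (fun _ => 1) N (((1 / 2 + δ : ℝ) : ℂ) + (v : ℂ) * Complex.I)
      have e0 : 1 - z * m = (1 - d * m) - (z * m - d * m) := by ring
      have e2 : ‖1 - z * m‖ ^ 2 ≤ 2 * ‖1 - d * m‖ ^ 2 + 2 * ‖z * m - d * m‖ ^ 2 := by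
        rw [e0]
        have := pow_le_pow_left₀ (norm_nonneg _) (norm_sub_le (1 - d * m) (z * m - d * m)) 2
        nlinarith [sq_nonneg (‖1 - d * m‖ - ‖z * m - d * m‖)]
      have e3 := mul_le_mul_of_nonneg_right e2 (sq_nonneg ‖RS P Q y ((v : ℂ) * Complex.I)‖)
      refine e3.trans (le_of_eq ?_)
      ring
  rw [intervalIntegral.integral_add (d1.intervalIntegrable _ _) (d2.intervalIntegrable _ _),
    intervalIntegral.integral_const_mul, intervalIntegral.integral_const_mul] at hsum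
  refine hsum.trans ?_
  have hX : 0 ≤ T * T ^ (-(c * δ)) * (K ^ 2 * EP P r) := by positivity
  have hlog : Real.log T ^ 4 ≤ (Real.log T) ^ (232 + 144 * C₂) := by
    rw [← Real.rpow_natCast]
    refine Real.rpow_le_rpow_of_exponent_le hL ?_
    push_cast
    linarith
  calc _ ≤ 2 * (116 * T * Real.log T ^ 4 * T ^ (-(c * δ)) * (K ^ 2 * EP P r)) +
        2 * (72 * C₂ * (T * Real.log T ^ 4 * T ^ (-(c * δ)) * (K ^ 2 * EP P r))) := by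
        linarith
    _ = (232 + 144 * C₂) * (T * T ^ (-(c * δ)) * (K ^ 2 * EP P r)) * Real.log T ^ 4 := by ring
    _ ≤ (232 + 144 * C₂) * (T * T ^ (-(c * δ)) * (K ^ 2 * EP P r)) *
        (Real.log T) ^ (232 + 144 * C₂) := by
        refine mul_le_mul_of_nonneg_left hlog ?_
        positivity
    _ = _ := by ring

end Pool.Agent.Y746.OM.G3L
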