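import Pool.Agent.Y746.OM.Asm10
import Pool.Agent.Y555.OM.PP
import Pool.Agent.Y365.OM.Lcm
import Pool.Agent.Y180.OM.A
import Pool.Agent.Y412.OM.TW
import Pool.Agent.Y746.OM.G3L
import Pool.Agent.Y258.OM.Cnt2
import Pool.Agent.Y884.OM.E
import Pool.Agent.Y220.OM.F
import Pool.Agent.Y363.OM.Fd
import Pool.Agent.Y555.OM.Ker
import Pool.Agent.Y576.OM.EX
import Pool.Agent.Y929.OM.Nl
import Pool.Agent.Y949.OM.WB
import Pool.Agent.Y365.OM.Pr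
import Pool.Agent.Y872.OM.Nt
import Pool.Agent.Y356.OM.Rk2

set_option autoImplicit false

/-! All together. -/

namespace Pool.Agent.Y746.OM

theorem g_A : S_A := Pool.Agent.Y180.OM.A.t_A Pool.Agent.Y555.OM.PP.t_PP

theorem g_TW : S_TW := Pool.Agent.Y412.OM.t_TW Pool.Agent.Y555.OM.PP.t_PP Pool.Agent.Y365.OM.t_LCM

theorem g_G3 : S_G3 := Pool.Agent.Y746.OM.G3L.t_G3 g_A g_TW

theorem g_E : S_E := Pool.Agent.Y884.OM.t_E g_G3

theorem g_F : S_F := Pool.Agent.Y220.OM.t_F g_E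

theorem g_Fd : S_Fd := Pool.Agent.Y363.OM.t_Fd g_E

theorem g_KER : S_KER := Pool.Agent.Y555.OM.Ker.t_KER

theorem g_EX : S_EX := Pool.Agent.Y576.OM.t_EX

theorem g_NL : S_NL := Pool.Agent.Y929.OM.t_NL g_KER

theorem g_PR : S_PR := Pool.Agent.Y365.OM.t_PR

theorem g_RK2 : S_RK2 := Pool.Agent.Y356.OM.t_RK2 Pool.Agent.Y872.OM.t_NT

theorem g_WB : S_WB := Pool.Agent.Y949.OM.t_WB

theorem g_FB : S_FB := Pool.Agent.Y949.OM.t_FB g_KER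

theorem g_CNT2 : S_CNT2 := Pool.Agent.Y258.OM2.t_CNT2 g_KER

theorem g_FIN2 : S_FIN2 := fin2 g_F g_Fd g_KER g_EX g_NL g_PR g_RK2 g_WB g_FB g_CNT2

theorem g_FIN3 : S_FIN3 := fin3 g_FIN2

end Pool.Agent.Y746.OM
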