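import Pool.Agent.Y746.OM.Stm2
import Pool.Agent.Y555.OM.PP
import Pool.Agent.Y365.OM.Lcm
import Pool.Agent.Y180.OM.A
import Pool.Agent.Y412.OM.TW
import Pool.Agent.Y746.OM.G3L
import Pool.Agent.Y884.OM.E
import Pool.Agent.Y363.OM.Fd

set_option autoImplicit false

/-! The tilted density theorem, for Dirichlet polynomials over squarefree numbers. -/

namespace Pool.Agent.Y746.OM.TD

open Finset MeasureTheory
open Pool.Agent.Y746.OM
open H370 (zset mult NN Zf zz)

theorem h_Fd : S_Fd := Pool.Agent.Y363.OM.t_Fd (Pool.Agent.Y884.OM.t_E (Pool.Agent.Y746.OM.G3L.t_G3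
  (Pool.Agent.Y180.OM.A.t_A Pool.Agent.Y555.OM.PP.t_PP)
  (Pool.Agent.Y412.OM.t_TW Pool.Agent.Y555.OM.PP.t_PP Pool.Agent.Y365.OM.t_LCM)))

/-- the primes up to `N` -/
def PN (N : ℕ) : Finset ℕ := (Icc 1 N).filter Nat.Prime

lemma qS_sq {N : ℕ} {S : Finset ℕ} (hS : S ⊆ PN N) : Squarefree (qS S) ∧ (qS S).primeFactors = S := by
  have hp : ∀ p ∈ S, p.Prime := fun p hp => (mem_filter.1 (hS hp)).2
  constructor
  · unfold qS
    induction S using Finset.induction_on with
    | empty => simp
    | insert q S hq ih =>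
      rw [prod_insert hq]
      have hq' : q.Prime := hp q (mem_insert_self _ _)
      have ih' := ih ((subset_insert _ _).trans hS) (fun p h => hp p (mem_insert_of_mem h))
      rw [Nat.squarefree_mul]
      · exact ⟨hq'.squarefree, ih'⟩
      · refine Nat.Coprime.prod_right fun p h => ?_
        rw [Nat.coprime_primes hq' (hp p (mem_insert_of_mem h))]
        rintro rfl
        exact hq h
  · exact Nat.primeFactors_prod hp

/-- the Dirichlet polynomial over squarefree numbers as a resonator -/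
lemma RS_eq (N : ℕ) (a : ℕ → ℂ) (s : ℂ) :
    RS (PN N) N (fun S => a (qS S)) s = ∑ n ∈ (Icc 1 N).filter Squarefree, a n * (n : ℂ) ^ (-s) := by
  unfold RS
  refine sum_bij' (fun S _ => qS S) (fun n _ => n.primeFactors) ?_ ?_ ?_ ?_ ?_
  · intro S hS
    rw [FS, mem_filter, mem_powerset] at hS
    have h1 := qS_sq hS.1
    rw [mem_filter, mem_Icc]
    exact ⟨⟨Nat.pos_of_ne_zero h1.1.ne_zero, by exact_mod_cast hS.2⟩, h1.1⟩
  · intro n hn
    rw [mem_filter, mem_Icc] at hn
    rw [FS, mem_filter, mem_powerset]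
    refine ⟨fun p hp => ?_, ?_⟩
    · have h2 := Nat.prime_of_mem_primeFactors hp
      rw [PN, mem_filter, mem_Icc]
      exact ⟨⟨h2.one_le, (Nat.le_of_dvd (by omega) (Nat.dvd_of_mem_primeFactors hp)).trans hn.1.2⟩, h2⟩
    · have : qS n.primeFactors = n := Nat.prod_primeFactors_of_squarefree hn.2
      rw [this]
      exact_mod_cast hn.1.2
  · intro S hS
    rw [FS, mem_filter, mem_powerset] at hS
    exact (qS_sq hS.1).2
  · intro n hn
    rw [mem_filter, mem_Icc] at hn
    exact Nat.prod_primeFactors_of_squarefree hn.2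
  · intro S hS
    rfl

end Pool.Agent.Y746.OM.TD
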