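import Pool.Agent.Y746.OM.Stm

set_option autoImplicit false

/-!
Project OM (helper746), second part: stronger statements.
-/

namespace Pool.Agent.Y746.OM

open Finset Filter Topology MeasureTheory
open H370 (zset mult NN Zf zz)

noncomputable section

/-- all zeros at distance at least `δ` from the line against the resonator -/
def S_Fd : Prop := ∃ c C T0 : ℝ, 0 < c ∧ c ≤ 1 / 100 ∧ 0 < C ∧ 10 ≤ T0 ∧ ∀ T : ℝ, T0 ≤ T →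
  ∀ δ : ℝ, 2 / Real.log T ≤ δ → δ ≤ 1 / 32 →
  ∀ (P : Finset ℕ) (r : ℕ → ℝ) (Q : ℝ) (y : Finset ℕ → ℂ),
  (∀ p ∈ P, p.Prime) → (∀ p ∈ P, 0 ≤ r p) → 1 ≤ Q → Q ≤ T ^ c →
  (∀ S ∈ FS P Q, ‖y S‖ ≤ ∏ p ∈ S, r p) →
  ∫ t in T..(2 * T), ‖RS P Q y ((t : ℂ) * Complex.I)‖ ^ 2 *
      ∑ s ∈ (Zf riemannZeta T (2 * T)).filter (fun s => δ ≤ |s.re - 1 / 2|),
        (mult riemannZeta s : ℝ) * Real.exp (-(s.im - t) ^ 2 / 2) ≤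
    C * T * (Real.log T) ^ C * T ^ (-(c * δ)) * EP P r

/-- the choice of the resonator, with the sharp cost -/
def S_RK2 : Prop := ∀ h η : ℝ, 0 < h → 0 < η → ∃ c C T0 : ℝ, 0 < c ∧ 0 < C ∧ 10 ≤ T0 ∧
  ∀ T : ℝ, T0 ≤ T → ∃ (P : Finset ℕ) (r : ℕ → ℝ),
    (∀ p ∈ P, p.Prime ∧ Real.log T ≤ p ∧ (p : ℝ) ≤ (Real.log T) ^ 2) ∧ (∀ p ∈ P, 0 ≤ r p) ∧
    c * Real.sqrt (Real.log T / Real.log (Real.log T)) * N0 P r (T ^ η) ≤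
      ∑ p ∈ P, |Real.sin (h * Real.log p / 2)| / Real.sqrt p * r p * N1 P r (T ^ η) p ∧
    EP P r ≤ Real.exp (C * Real.sqrt (Real.log T / Real.log (Real.log T))) * N0 P r (T ^ η)

/-- the set of points near `t` where the count of zeros exceeds `M` -/
def hiS (h t L M : ℝ) : Set ℝ := {τ : ℝ | |τ - t| ≤ L ∧ M < (NN riemannZeta τ (τ + h) : ℝ)}

/-- the set of points near `t` where the count of zeros is below `M` -/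
def loS (h t L M : ℝ) : Set ℝ := {τ : ℝ | |τ - t| ≤ L ∧ (NN riemannZeta τ (τ + h) : ℝ) < M}

/-- comparison with the number of zeros in intervals, with measures -/
def S_CNT2 : Prop := ∀ h : ℝ, 0 < h → ∃ C T0 : ℝ, 0 < C ∧ 10 ≤ T0 ∧ ∀ T : ℝ, T0 ≤ T →
  ∀ U1 U2 : ℝ, T ≤ U1 → U1 ≤ T + 1 → 2 * T - 1 ≤ U2 → U2 ≤ 2 * T →
  ∀ B : ℝ, 1 ≤ B → B ≤ Real.log T → ∀ t M : ℝ, T + 2 * Real.log T ≤ t →
    t ≤ 2 * T - 2 * Real.log T - h → 0 ≤ M → M ≤ (Real.log T) ^ 2 →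
    (volume (hiS h t (Real.log T) M) ≤ ENNReal.ofReal ((Real.log T) ^ (-(4 : ℝ))) →
      ∫ v in (0 : ℝ)..h, ∑ s ∈ Zf riemannZeta U1 U2, (mult riemannZeta s : ℝ) *
        KR B (s.im - (t + v)) ≤ (∫ x : ℝ, KR B x) * M + C) ∧
    (volume (loS h t (Real.log T) M) ≤ ENNReal.ofReal ((Real.log T) ^ (-(4 : ℝ))) →
      (∫ x : ℝ, KR B x) * M - C ≤
        ∫ v in (0 : ℝ)..h, ∑ s ∈ Zf riemannZeta U1 U2, (mult riemannZeta s : ℝ) *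
        KR B (s.im - (t + v)))

/-- the weights are bounded -/
def S_WB : Prop := ∀ (P : Finset ℕ) (r : ℕ → ℝ) (Q : ℝ) (y : Finset ℕ → ℂ),
  (∀ p ∈ P, p.Prime) → (∀ p ∈ P, 0 ≤ r p) → 1 ≤ Q →
  (∀ S ∈ FS P Q, ‖y S‖ ≤ ∏ p ∈ S, r p) → ∀ t : ℝ,
    ‖RS P Q y ((t : ℂ) * Complex.I)‖ ^ 2 ≤ Q * N0 P r Q

/-- crude bound for the sums over ordinates -/
def S_FB : Prop := ∃ C T0 : ℝ, 0 < C ∧ 10 ≤ T0 ∧ ∀ T : ℝ, T0 ≤ T →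
  ∀ U1 U2 : ℝ, T ≤ U1 → U1 ≤ U2 → U2 ≤ 2 * T → ∀ B t : ℝ, 1 ≤ B → B ≤ Real.log T →
    ∑ s ∈ Zf riemannZeta U1 U2, (mult riemannZeta s : ℝ) * KR B (s.im - t) ≤
      C * (Real.log T) ^ 2

end

end Pool.Agent.Y746.OM
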