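import Pool.Agent.Y746.OM.Asm4
import Pool.Agent.Y746.OM.Stm2

set_option autoImplicit false

/-! Assembly, part 7: sets of large measure, basic lemmas. -/

namespace Pool.Agent.Y746.OM

open Finset Filter Topology MeasureTheory
open H370 (zset mult NN Zf zz)

noncomputable section

/-- passing from averages to measures -/
lemma meas_lem {W g V : ℝ → ℝ} {G : Set ℝ} (hW : Continuous W) (hg : Continuous g)
    (hV : Continuous V) (hW0 : ∀ t, 0 ≤ W t) (hV0 : ∀ t, 0 ≤ V t) {A B c gm Wm : ℝ}
    (hAB : A ≤ B) (hG : MeasurableSet G) (hGs : G ⊆ Set.Icc A B) (hgm0 : 0 ≤ gm)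
    (hgm : ∀ t, A ≤ t → t ≤ B → g t - c ≤ gm) (hWm : ∀ t, W t ≤ Wm)
    (hbad : ∀ t, A ≤ t → t ≤ B → t ∉ G → c < g t → 1 / 2 ≤ V t) :
    (∫ t in A..B, W t * (g t - c)) ≤ 2 * gm * (∫ t in A..B, W t * V t) +
      gm * Wm * (volume G).toReal := by
  have hWm0 : 0 ≤ Wm := (hW0 0).trans (hWm 0)
  have hfin : volume G ≠ ⊤ := by
    refine ne_top_of_le_ne_top ?_ (measure_mono hGs)
    rw [Real.volume_Icc]
    exact ENNReal.ofReal_ne_top
  have hi : IntervalIntegrable (G.indicator fun _ => (1 : ℝ)) volume A B := by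
    rw [intervalIntegrable_iff_integrableOn_Ioc_of_le hAB]
    exact ((integrable_indicator_iff hG).2 (integrableOn_const hfin)).integrableOn
  have h1 : (∫ t in A..B, W t * (g t - c)) ≤
      ∫ t in A..B, (2 * gm * (W t * V t) + gm * Wm * G.indicator (fun _ => (1 : ℝ)) t) := by
    refine intervalIntegral.integral_mono_on hAB
      ((hW.mul (hg.sub continuous_const)).intervalIntegrable _ _)
      (((continuous_const.mul (hW.mul hV)).intervalIntegrable _ _).add (hi.const_mul _)) fun t ht => ?_
    have a0 := hW0 t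
    have a1 := hV0 t
    have a2 := hgm t ht.1 ht.2
    have a3 : 0 ≤ 2 * gm * (W t * V t) := by positivity
    by_cases hc : c < g t
    · by_cases htG : t ∈ G
      · rw [Set.indicator_of_mem htG]
        have : W t * (g t - c) ≤ Wm * gm :=
          mul_le_mul (hWm t) a2 (by linarith) hWm0
        linarith
      · rw [Set.indicator_of_notMem htG]
        have a4 := hbad t ht.1 ht.2 htG hc
        have : W t * (g t - c) ≤ W t * gm := mul_le_mul_of_nonneg_left a2 a0
        have a5 : W t * gm * (1 / 2) ≤ W t * gm * V t :=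
          mul_le_mul_of_nonneg_left a4 (by positivity)
        nlinarith
    · have a4 : W t * (g t - c) ≤ 0 := mul_nonpos_of_nonneg_of_nonpos a0 (by linarith)
      have a5 : 0 ≤ gm * Wm * G.indicator (fun _ => (1 : ℝ)) t := by
        apply mul_nonneg (by positivity)
        exact Set.indicator_nonneg (fun _ _ => zero_le_one) _
      linarith
  refine h1.trans (le_of_eq ?_)
  have hc1 : Continuous fun t : ℝ => 2 * gm * (W t * V t) := continuous_const.mul (hW.mul hV)
  rw [intervalIntegral.integral_add (hc1.intervalIntegrable _ _)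
    (hi.const_mul _), intervalIntegral.integral_const_mul, intervalIntegral.integral_const_mul]
  congr 2
  rw [intervalIntegral.integral_of_le hAB, setIntegral_indicator hG, setIntegral_const,
    smul_eq_mul, mul_one]
  have : (volume.real (Set.Ioc A B ∩ G)) = volume.real G := by
    apply le_antisymm
    · exact measureReal_mono Set.inter_subset_right hfin
    · have h2 : volume G ≤ volume (Set.Ioc A B ∩ G) := by
        calc volume G ≤ volume ((Set.Ioc A B ∩ G) ∪ {A}) := by
              apply measure_mono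
              intro x hx
              rcases eq_or_lt_of_le (hGs hx).1 with h | h
              · right; rw [Set.mem_singleton_iff]; exact h.symm
              · left; exact ⟨⟨h, (hGs hx).2⟩, hx⟩
          _ ≤ volume (Set.Ioc A B ∩ G) + volume {A} := measure_union_le _ _
          _ = _ := by rw [Real.volume_singleton, add_zero]
      exact ENNReal.toReal_mono (ne_top_of_le_ne_top hfin (measure_mono Set.inter_subset_right)) h2
  exact this

/-- from a set of good centres to a set of good points -/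
lemma cover_lem {G E : Set ℝ} (hG : MeasurableSet G) {L m : ℝ} (hL : 0 < L) (hm : 0 ≤ m)
    (h : ∀ t ∈ G, ENNReal.ofReal m ≤ volume (E ∩ Set.Icc (t - L) (t + L))) :
    ENNReal.ofReal m * volume G ≤ ENNReal.ofReal (2 * L) * volume E := by
  set E' := toMeasurable volume E with hE'
  have hE'm : MeasurableSet E' := measurableSet_toMeasurable _ _
  have hvE : volume E' = volume E := measure_toMeasurable E
  rw [← hvE]
  set f : ℝ → ℝ → ENNReal := fun t τ => G.indicator (fun _ => 1) t *
    (E'.indicator (fun _ => 1) τ * (Set.Icc (-L) L).indicator (fun _ => 1) (τ - t)) with hf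
  have hfm : Measurable (Function.uncurry f) := by
    apply Measurable.mul
    · exact ((measurable_const.indicator hG).comp measurable_fst)
    · apply Measurable.mul
      · exact ((measurable_const.indicator hE'm).comp measurable_snd)
      · exact ((measurable_const.indicator measurableSet_Icc).comp (measurable_snd.sub measurable_fst))
  have h1 : ENNReal.ofReal m * volume G ≤ ∫⁻ t, ∫⁻ τ, f t τ := by
    rw [← lintegral_indicator_const hG]
    apply lintegral_mono
    intro t
    by_cases ht : t ∈ G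
    · simp only [hf, Set.indicator_of_mem ht, one_mul]
      refine (h t ht).trans ?_
      have e : ∀ τ : ℝ, E'.indicator (fun _ => (1 : ENNReal)) τ *
          (Set.Icc (-L) L).indicator (fun _ => 1) (τ - t) =
          (E' ∩ Set.Icc (t - L) (t + L)).indicator (fun _ => 1) τ := by
        intro τ
        have hiff : τ - t ∈ Set.Icc (-L) L ↔ τ ∈ Set.Icc (t - L) (t + L) := by
          simp only [Set.mem_Icc]
          constructor <;> rintro ⟨a, b⟩ <;> constructor <;> linarith
        by_cases h1 : τ ∈ E' <;> by_cases h2 : τ ∈ Set.Icc (t - L) (t + L)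
        · rw [Set.indicator_of_mem h1, Set.indicator_of_mem (hiff.2 h2),
            Set.indicator_of_mem (show τ ∈ E' ∩ Set.Icc (t - L) (t + L) from ⟨h1, h2⟩), one_mul]
        · rw [Set.indicator_of_notMem (fun hc => h2 (hiff.1 hc)),
            Set.indicator_of_notMem (show τ ∉ E' ∩ Set.Icc (t - L) (t + L) from fun hc => h2 hc.2),
            mul_zero]
        · rw [Set.indicator_of_notMem h1,
            Set.indicator_of_notMem (show τ ∉ E' ∩ Set.Icc (t - L) (t + L) from fun hc => h1 hc.1),
            zero_mul]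
        · rw [Set.indicator_of_notMem h1,
            Set.indicator_of_notMem (show τ ∉ E' ∩ Set.Icc (t - L) (t + L) from fun hc => h1 hc.1),
            zero_mul]
      simp_rw [e]
      rw [lintegral_indicator_const (hE'm.inter measurableSet_Icc), one_mul]
      exact measure_mono (Set.inter_subset_inter_left _ (subset_toMeasurable _ _))
    · simp only [Set.indicator_of_notMem ht]
      exact zero_le
  refine h1.trans ?_
  rw [lintegral_lintegral_swap hfm.aemeasurable]
  calc ∫⁻ τ, ∫⁻ t, f t τ ≤ ∫⁻ τ, E'.indicator (fun _ => ENNReal.ofReal (2 * L)) τ := by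
        apply lintegral_mono
        intro τ
        by_cases hτ : τ ∈ E'
        · rw [Set.indicator_of_mem hτ]
          calc ∫⁻ t, f t τ ≤ ∫⁻ t, (Set.Icc (τ - L) (τ + L)).indicator (fun _ => 1) t := by
                apply lintegral_mono
                intro t
                simp only [hf, Set.indicator_of_mem hτ, one_mul]
                have hiff : τ - t ∈ Set.Icc (-L) L ↔ t ∈ Set.Icc (τ - L) (τ + L) := by
                  simp only [Set.mem_Icc]
                  constructor <;> rintro ⟨a, b⟩ <;> constructor <;> linarith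
                by_cases h2 : t ∈ Set.Icc (τ - L) (τ + L)
                · rw [Set.indicator_of_mem (hiff.2 h2), Set.indicator_of_mem h2, mul_one]
                  exact Set.indicator_le (fun _ _ => le_rfl) t
                · rw [Set.indicator_of_notMem (fun hc => h2 (hiff.1 hc)), mul_zero]
                  exact zero_le
            _ = ENNReal.ofReal (2 * L) := by
                rw [lintegral_indicator_const measurableSet_Icc, Real.volume_Icc, one_mul]
                congr 1; ring
        · rw [Set.indicator_of_notMem hτ]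
          simp [hf, Set.indicator_of_notMem hτ]
    _ = ENNReal.ofReal (2 * L) * volume E' := lintegral_indicator_const hE'm _

/-- the weighted sum over the zeros at distance at least `δ` -/
def ZZd (T δ t : ℝ) : ℝ := ∑ s ∈ (Zf riemannZeta T (2 * T)).filter
        (fun s => δ ≤ |s.re - 1 / 2|),
        (mult riemannZeta s : ℝ) * Real.exp (-(s.im - t) ^ 2 / 2)

lemma ZZd_cont (T δ : ℝ) : Continuous (ZZd T δ) := by
  unfold ZZd; fun_prop

lemma ZZd_nonneg (T δ t : ℝ) : 0 ≤ ZZd T δ t :=
  Finset.sum_nonneg fun s _ => by positivity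

lemma farWd {c C T δ : ℝ} (hT : 0 ≤ T)
    (hF : ∀ (P : Finset ℕ) (r : ℕ → ℝ) (Q : ℝ) (y : Finset ℕ → ℂ),
      (∀ p ∈ P, p.Prime) → (∀ p ∈ P, 0 ≤ r p) → 1 ≤ Q → Q ≤ T ^ c →
      (∀ S ∈ FS P Q, ‖y S‖ ≤ ∏ p ∈ S, r p) →
      ∫ t in T..(2 * T), ‖RS P Q y ((t : ℂ) * Complex.I)‖ ^ 2 * ZZd T δ t ≤ C * EP P r)
    {P : Finset ℕ} {r φ : ℕ → ℝ} {Q : ℝ} (hP : ∀ p ∈ P, p.Prime) (hr : ∀ p ∈ P, 0 ≤ r p)
    (hQ : 1 ≤ Q) (hQT : Q ≤ T ^ c) {A B v : ℝ} (h1 : T ≤ A + v) (h2 : A ≤ B) (h3 : B + v ≤ 2 * T) :
    ∫ t in A..B, ‖RS P Q (yc r φ) ((t : ℂ) * Complex.I)‖ ^ 2 * ZZd T δ (t + v) ≤ C * EP P r := by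
  set y' : Finset ℕ → ℂ := fun S => yc r φ S * ((qS S : ℕ) : ℂ) ^ ((v : ℂ) * Complex.I) with hy'
  have hy1 : ∀ S ∈ FS P Q, ‖y' S‖ ≤ ∏ p ∈ S, r p := by
    intro S hS
    have hSP := FS_sub hS
    have hq : qS S ≠ 0 := by
      unfold qS
      rw [Finset.prod_ne_zero_iff]
      intro p hp
      exact (hP p (hSP hp)).ne_zero
    rw [hy', norm_mul, norm_qI _ hq, mul_one, norm_yc r φ hr hSP]
  have h4 := hF P r Q y' hP hr hQ hQT hy1
  refine le_trans ?_ h4
  have hc : Continuous fun t : ℝ => ‖RS P Q y' ((t : ℂ) * Complex.I)‖ ^ 2 * ZZd T δ t :=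
    (W_cont P Q y' hP).mul (ZZd_cont T δ)
  have e1 : ∫ t in A..B, ‖RS P Q (yc r φ) ((t : ℂ) * Complex.I)‖ ^ 2 * ZZd T δ (t + v) =
      ∫ t in (A + v)..(B + v), ‖RS P Q y' ((t : ℂ) * Complex.I)‖ ^ 2 * ZZd T δ t := by
    rw [← intervalIntegral.integral_comp_add_right (fun t : ℝ =>
      ‖RS P Q y' ((t : ℂ) * Complex.I)‖ ^ 2 * ZZd T δ t) v]
    refine intervalIntegral.integral_congr fun t _ => ?_
    have := RS_shift P Q (yc r φ) hP (t + v) v
    rw [add_sub_cancel_right] at this
    rw [this]
  rw [e1]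
  exact intervalIntegral.integral_mono_interval h1 (by linarith) h3
    (Eventually.of_forall fun t => mul_nonneg (by positivity) (ZZd_nonneg T δ t))
    (hc.intervalIntegrable _ _)

/-- the sum over shifts -/
def VV (T δ : ℝ) (J : ℕ) (t : ℝ) : ℝ := ∑ j ∈ Icc (-(J : ℤ)) J, ZZd T δ (t + (j : ℝ))

lemma VV_cont (T δ : ℝ) (J : ℕ) : Continuous (VV T δ J) := by
  unfold VV
  exact continuous_finsetSum _ fun j _ => (ZZd_cont T δ).comp (by fun_prop)

lemma VV_nonneg (T δ : ℝ) (J : ℕ) (t : ℝ) : 0 ≤ VV T δ J t :=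
  Finset.sum_nonneg fun j _ => ZZd_nonneg _ _ _

lemma VV_ge {T δ t : ℝ} {J : ℕ} (hT : 1 ≤ T) {s : ℂ} (hs : s ∈ Zf riemannZeta T (2 * T))
    (hδ : δ ≤ |s.re - 1 / 2|) (ht : |s.im - t| ≤ J - 1 / 2) : 1 / 2 ≤ VV T δ J t := by
  set j : ℤ := round (s.im - t) with hj
  have h1 : |s.im - t - j| ≤ 1 / 2 := abs_sub_round _
  have hjJ : j ∈ Icc (-(J : ℤ)) J := by
    rw [abs_le] at h1 ht
    rw [Finset.mem_Icc]
    constructor
    · have : (-(J : ℝ)) ≤ j := by linarith [h1.2, ht.1]
      exact_mod_cast this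
    · have : (j : ℝ) ≤ J := by linarith [h1.1, ht.2]
      exact_mod_cast this
  have hm : 1 ≤ mult riemannZeta s := by
    rw [H370.mem_Zf H370.good_zeta hT] at hs
    obtain ⟨a1, a2, a3, a4, a5⟩ := hs
    exact H370.Loc.mult_pos' H370.good_zeta (by linarith) a5
  have h2 : Real.exp (-(s.im - (t + j)) ^ 2 / 2) ≤ ZZd T δ (t + j) := by
    unfold ZZd
    have hmem : s ∈ (Zf riemannZeta T (2 * T)).filter (fun s => δ ≤ |s.re - 1 / 2|) := by
      rw [Finset.mem_filter]; exact ⟨hs, hδ⟩
    refine le_trans ?_ (Finset.single_le_sum (f := fun s : ℂ => (mult riemannZeta s : ℝ) *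
      Real.exp (-(s.im - (t + j)) ^ 2 / 2)) (fun s _ => by positivity) hmem)
    have : (1 : ℝ) ≤ mult riemannZeta s := by exact_mod_cast hm
    have he := Real.exp_pos (-(s.im - (t + j)) ^ 2 / 2)
    nlinarith
  have h3 : ZZd T δ (t + j) ≤ VV T δ J t := by
    unfold VV
    exact Finset.single_le_sum (f := fun j : ℤ => ZZd T δ (t + (j : ℝ)))
      (fun j _ => ZZd_nonneg _ _ _) hjJ
  refine le_trans ?_ (h2.trans h3)
  have h4 : (s.im - (t + j)) ^ 2 ≤ 1 / 4 := by
    have e : s.im - (t + j) = s.im - t - j := by ring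
    rw [e, ← sq_abs]
    have := abs_nonneg (s.im - t - j)
    nlinarith
  have h5 : 1 / 2 ≤ -(s.im - (t + j)) ^ 2 / 2 + 1 := by linarith
  exact h5.trans (Real.add_one_le_exp _)

end

end Pool.Agent.Y746.OM
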