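import Pool.Agent.Y746.OM.Asm8a

set_option autoImplicit false

/-! Assembly, part 8: many good centres. -/

namespace Pool.Agent.Y746.OM

open Finset Filter Topology MeasureTheory
open H370 (zset mult NN Zf zz)

noncomputable section

theorem core2 (hF : S_F) (hFd : S_Fd) (hKER : S_KER) (hEX : S_EX) (hNL : S_NL) (hPR : S_PR)
    (hRK : S_RK2) (hWB : S_WB) (hFB : S_FB)
    (h η0 : ℝ) (hh : 0 < h) (hη0 : 0 < η0) : ∃ c0 C5 T0 : ℝ, 0 < c0 ∧ 0 < C5 ∧ 10 ≤ T0 ∧
    ∀ T : ℝ, T0 ≤ T →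
    ∃ U1 U2 : ℝ, T ≤ U1 ∧ U1 ≤ T + 1 ∧ 2 * T - 1 ≤ U2 ∧ U2 ≤ 2 * T ∧
    ∀ ε : ℝ, (ε = 1 ∨ ε = -1) → ∃ G : Set ℝ, MeasurableSet G ∧
      G ⊆ Set.Icc (T + 6 * Real.log T) (2 * T - 6 * Real.log T - h) ∧
      T ^ (1 - 2 * η0) ≤ (volume G).toReal ∧
      ∀ t ∈ G, c0 * Real.sqrt (Real.log T / Real.log (Real.log T)) ≤
        ε * ((∫ v in (0 : ℝ)..h, FF U1 U2 (8 * Real.log (Real.log T)) (t + v)) -
          (∫ x : ℝ, KR (8 * Real.log (Real.log T)) x) * (h / (2 * Real.pi) * Real.log T)) ∧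
        ∀ s ∈ Zf riemannZeta T (2 * T), |s.im - t| ≤ 3 * Real.log T →
          |s.re - 1 / 2| ≤ C5 / Real.sqrt (Real.log T * Real.log (Real.log T)) := by
  obtain ⟨cF, C, T1, hcF, hcF1, hC, hT1, hF⟩ := hF
  obtain ⟨cD, CD, TD, hcD, hcD1, hCD, hTD, hFd⟩ := hFd
  obtain ⟨CB, TB, hCB, hTB, hFB⟩ := hFB
  set c : ℝ := min η0 (min cF cD) with hcdef
  have hc : 0 < c := lt_min hη0 (lt_min hcF hcD)
  have hcη : c ≤ η0 := min_le_left _ _
  have hccF : c ≤ cF := (min_le_right _ _).trans (min_le_left _ _)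
  have hccD : c ≤ cD := (min_le_right _ _).trans (min_le_right _ _)
  have hc1 : c ≤ 1 / 100 := hccF.trans hcF1
  obtain ⟨CK, hCK, hKER⟩ := hKER
  obtain ⟨C2, T2, hC2, hT2, hEX⟩ := hEX
  obtain ⟨C3, T3, hC3, hT3, hNL⟩ := hNL
  obtain ⟨c1, C1, T4, hc10, hC1, hT4, hRK⟩ := hRK h c hh hc
  have hll : Tendsto (fun T : ℝ => Real.log (Real.log T)) atTop atTop :=
    Real.tendsto_log_atTop.comp Real.tendsto_log_atTop
  -- the asymptotic conditions
  have ev1 := Real.tendsto_log_atTop.eventually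
    (asym1 (c1 / 100) (2 * h * (C2 + C3) + 2) (by positivity) (by positivity))
  have ev2 := Real.tendsto_log_atTop.eventually
    (asym2 (h * C3 * C) cF C C1 (by positivity) hcF hC hC1)
  have ev3 : ∀ᶠ T : ℝ in atTop, 12 * Real.log T + h ≤ T / 2 := by
    have h1 := Real.isLittleO_log_id_atTop.bound (show (0 : ℝ) < 1 / 48 by norm_num)
    filter_upwards [h1, eventually_ge_atTop (4 * h), eventually_ge_atTop 1] with T a1 a2 a3
    have a4 := Real.log_nonneg a3
    simp only [id_eq] at a1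
    rw [Real.norm_of_nonneg a4, Real.norm_of_nonneg (by linarith)] at a1
    linarith
  have ev4 : ∀ᶠ T : ℝ in atTop, 12 * (T ^ (1 / 8 : ℝ)) ^ 2 * (T ^ c) ^ 2 ≤ T := by
    have h1 : Tendsto (fun T : ℝ => T ^ (1 / 2 : ℝ)) atTop atTop := tendsto_rpow_atTop (by norm_num)
    filter_upwards [h1.eventually_ge_atTop 12, eventually_ge_atTop 1] with T a1 a2
    have hT0 : 0 < T := by linarith
    calc 12 * (T ^ (1 / 8 : ℝ)) ^ 2 * (T ^ c) ^ 2 ≤ T ^ (1 / 2 : ℝ) * (T ^ (1 / 8 : ℝ)) ^ 2 * (T ^ c) ^ 2 := by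
          gcongr
      _ = T ^ (1 / 2 + (1 / 8) * 2 + c * 2) := by
          rw [← Real.rpow_natCast (T ^ (1 / 8 : ℝ)), ← Real.rpow_natCast (T ^ c),
            ← Real.rpow_mul hT0.le, ← Real.rpow_mul hT0.le, ← Real.rpow_add hT0,
            ← Real.rpow_add hT0]
          norm_num
      _ ≤ T ^ (1 : ℝ) := Real.rpow_le_rpow_of_exponent_le a2 (by linarith)
      _ = T := Real.rpow_one T
  have ev5 : ∀ᶠ T : ℝ in atTop, (Real.log T) ^ 2 ≤ ((⌊T ^ (1 / 8 : ℝ)⌋₊ : ℕ) : ℝ) := by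
    have h1 : (fun x : ℝ => Real.log x ^ (2 : ℝ)) =o[atTop] fun x => x ^ (1 / 8 : ℝ) :=
      isLittleO_log_rpow_rpow_atTop 2 (by norm_num)
    have h2 := h1.bound (show (0 : ℝ) < 1 / 2 by norm_num)
    have h3 : Tendsto (fun T : ℝ => T ^ (1 / 8 : ℝ)) atTop atTop := tendsto_rpow_atTop (by norm_num)
    filter_upwards [h2, h3.eventually_ge_atTop 2, eventually_ge_atTop 1] with T a1 a2 a3
    have a4 := Real.log_nonneg a3
    rw [Real.norm_of_nonneg (by positivity), Real.norm_of_nonneg (by positivity)] at a1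
    have e4 : Real.log T ^ (2 : ℝ) = Real.log T ^ 2 := by
      rw [← Real.rpow_natCast]; norm_num
    rw [e4] at a1
    have := Nat.sub_one_lt_floor (T ^ (1 / 8 : ℝ))
    linarith
  have ev6 := hll.eventually_ge_atTop 1
  have ev7 := Real.tendsto_log_atTop.eventually_ge_atTop 3
  -- the constant in the distance of the zeros from the line
  set C5 : ℝ := (C1 + 1) / cD + 2 with hC5
  have hC50 : 2 ≤ C5 := by
    have : 0 ≤ (C1 + 1) / cD := by positivity
    linarith
  set Kg : ℝ := (CB + 13) * h + 1 with hKg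
  have hKg0 : 1 ≤ Kg := by
    have : 0 ≤ (CB + 13) * h := by positivity
    linarith
  have ev8 := Real.tendsto_log_atTop.eventually
    (asym3 (2 * Kg * 9 * CD) (3 + CD) (by positivity) (by positivity))
  have ev9 : ∀ᶠ T : ℝ in atTop, 32 * C5 ≤ Real.sqrt (Real.log T) :=
    (Real.tendsto_sqrt_atTop.comp Real.tendsto_log_atTop).eventually_ge_atTop (32 * C5)
  have ev10 := Real.tendsto_log_atTop.eventually
    (asym1 (c1 / 200) 8 (by positivity) (by norm_num))
  have ev11 : ∀ᶠ T : ℝ in atTop, Kg * (Real.log T) ^ 2 ≤ T ^ c := by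
    have h1 : (fun x : ℝ => Real.log x ^ (2 : ℝ)) =o[atTop] fun x => x ^ c :=
      isLittleO_log_rpow_rpow_atTop 2 hc
    have h2 := h1.bound (show (0 : ℝ) < 1 / Kg by positivity)
    filter_upwards [h2, eventually_ge_atTop 1] with T a1 a3
    have a4 := Real.log_nonneg a3
    rw [Real.norm_of_nonneg (by positivity), Real.norm_of_nonneg (by positivity)] at a1
    have e4 : Real.log T ^ (2 : ℝ) = Real.log T ^ 2 := by
      rw [← Real.rpow_natCast]; norm_num
    rw [e4] at a1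
    calc Kg * (Real.log T) ^ 2 ≤ Kg * (1 / Kg * T ^ c) := by gcongr
      _ = T ^ c := by field_simp
  have ev12 : ∀ᶠ T : ℝ in atTop, 8 * Real.log (Real.log T) ≤ Real.log T := by
    have h1 := Real.isLittleO_log_id_atTop.bound (show (0 : ℝ) < 1 / 8 by norm_num)
    have h2 := Real.tendsto_log_atTop.eventually h1
    filter_upwards [h2, ev6, ev7] with T a1 a2 a3
    simp only [id_eq] at a1
    rw [Real.norm_of_nonneg (by linarith), Real.norm_of_nonneg (by linarith)] at a1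
    linarith
  obtain ⟨T5, hT5⟩ := eventually_atTop.1 (ev1.and (ev2.and (ev3.and (ev4.and (ev5.and (ev6.and
    (ev7.and (ev8.and (ev9.and (ev10.and (ev11.and ev12)))))))))))
  refine ⟨c1 / 200, C5, max (max (max T1 T2) (max T3 T4)) (max T5 (max TD TB)), by positivity,
    by linarith,
    hT1.trans ((le_max_left _ _).trans ((le_max_left _ _).trans (le_max_left _ _))),
    fun T hT => ?_⟩
  have hTr := (le_max_right _ _).trans hT
  obtain ⟨b1, b2, b3, b4, b5, b6, b7, b8, b9, b10, b11, b12⟩ := hT5 T ((le_max_left _ _).trans hTr)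
  have hTTD : TD ≤ T := ((le_max_left _ _).trans (le_max_right _ _)).trans hTr
  have hTTB : TB ≤ T := ((le_max_right _ _).trans (le_max_right _ _)).trans hTr
  have hTT := (le_max_left _ _).trans hT
  have hTa := (le_max_left _ _).trans hTT
  have hTb := (le_max_right _ _).trans hTT
  have hTT1 : T1 ≤ T := (le_max_left _ _).trans hTa
  have hTT2 : T2 ≤ T := (le_max_right _ _).trans hTa
  have hTT3 : T3 ≤ T := (le_max_left _ _).trans hTb
  have hTT4 : T4 ≤ T := (le_max_right _ _).trans hTb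
  have hT10 : 10 ≤ T := hT1.trans hTT1
  have hT0 : 0 < T := by linarith
  obtain ⟨U1, U2, hU1, hU1', hU2, hU2', hEX⟩ := hEX T hTT2
  refine ⟨U1, U2, hU1, hU1', hU2, hU2', fun ε hε => ?_⟩
  set L := Real.log T with hL
  set LL := Real.log L with hLL
  set B := 8 * LL with hB
  have hB1 : 1 ≤ B := by linarith
  obtain ⟨P, r, hP, hr, hRK1, hRK2⟩ := hRK T hTT4
  set Q := T ^ c with hQ
  have hQ1 : 1 ≤ Q := Real.one_le_rpow (by linarith) hc.le
  have hQ0 : 0 < Q := by linarith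
  have hQF : Q ≤ T ^ cF := Real.rpow_le_rpow_of_exponent_le (by linarith) hccF
  have hQD : Q ≤ T ^ cD := Real.rpow_le_rpow_of_exponent_le (by linarith) hccD
  obtain ⟨k1, k2, k3, k4, -, -, -, k8, k9, k10, k11⟩ := hKER B hB1
  have hPp : ∀ p ∈ P, p.Prime := fun p hp => (hP p hp).1
  have hpi := Real.pi_pos
  have hspi : 0 < Real.sqrt (2 * Real.pi) := by positivity
  have hs3 : Real.sqrt (2 * Real.pi) ≤ 8 / 3 := by
    rw [Real.sqrt_le_left (by norm_num)]
    have := Real.pi_lt_d2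
    norm_num
    linarith
  have hs2 : 2 ≤ Real.sqrt (2 * Real.pi) := by
    apply Real.le_sqrt_of_sq_le
    have := Real.pi_gt_three
    linarith
  have hG : ∀ n : ℕ, 0 ≤ GB B n ∧ GB B n ≤ 3 := fun n => ⟨(k9 n).1, (k9 n).2.trans (by linarith)⟩
  set φ := ph h ε with hφ
  set W : ℝ → ℝ := fun t => ‖RS P Q (yc r φ) ((t : ℂ) * Complex.I)‖ ^ 2 with hW
  have hWc : Continuous W := W_cont P Q _ hPp
  have hW0 : ∀ t, 0 ≤ W t := fun t => by positivity
  set A := T + 6 * L with hA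
  set B' := 2 * T - 6 * L - h with hB'
  set X := ⌊T ^ (1 / 8 : ℝ)⌋₊ with hX
  have hL3 : 3 ≤ L := b7
  have hAB : A ≤ B' := by linarith
  have hlen1 : T / 2 ≤ B' - A := by linarith
  have hlen2 : B' - A ≤ T := by linarith
  have hPX : ∀ p ∈ P, p ≤ X := by
    intro p hp
    have := (hP p hp).2.2
    exact_mod_cast this.trans b5
  have hN01 : 1 ≤ N0 P r Q := N0_ge_one hQ1
  have hXle : (X : ℝ) ≤ T ^ (1 / 8 : ℝ) := Nat.floor_le (by positivity)
  have hX2 : 12 * (X : ℝ) ^ 2 * Q ^ 2 ≤ T := by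
    calc 12 * (X : ℝ) ^ 2 * Q ^ 2 ≤ 12 * (T ^ (1 / 8 : ℝ)) ^ 2 * Q ^ 2 := by gcongr
      _ ≤ T := b4
  have hQ2 : 2 * Q ^ 2 ≤ T := hX_aux b5 hL3 hX2
  -- the mean of the weight
  have hmean := (hPR P r φ Q A B' hPp hr hQ1 hAB).1
  rw [abs_le] at hmean
  have hIW2 : (∫ t in A..B', W t) ≤ 2 * T * N0 P r Q := by
    refine IW_le (Q2 := Q ^ 2) ?_ hlen2 hQ2 (by linarith)
    exact hmean.2
  have hIW0 : 0 ≤ ∫ t in A..B', W t := intervalIntegral.integral_nonneg hAB fun t _ => hW0 t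
  -- the comparison
  have hFFc := FF_cont (U1 := U1) (U2 := U2) k3
  have hcomp := cmpI (W := W) (F := FF U1 U2 B) (D := Dm L B X) (Z := ZZ T) hWc hFFc (Dm_cont L B X)
    (ZZ_cont T) hW0 (A := A) (B := B') (h := h) (K1 := C2 + C3 * L ^ (1 / 3 : ℝ) * LL ^ 3)
    (K2 := C3 * L ^ 5) (Bd := C * T * L ^ C * Real.exp (-(cF * L ^ (2 / 3 : ℝ))) * EP P r)
    hAB hh.le (by positivity) (by
      intro t ht1 ht2
      have a1 := hEX B t hB1 le_rfl (by linarith) (by linarith)
      have a2 := hNL T hTT3 U1 U2 hU1 (by linarith) hU2' t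
      rw [abs_le] at a1 a2 ⊢
      change -_ ≤ FF U1 U2 B t - Dm L B X t ∧ FF U1 U2 B t - Dm L B X t ≤ _
      have e1 : FF U1 U2 B t = ∑ s ∈ Zf riemannZeta U1 U2, (mult riemannZeta s : ℝ) *
        KR B (s.im - t) := rfl
      have e2 : Dm L B X t = 2 / Real.sqrt (2 * Real.pi) * (L * GB B 1 -
        ∑ n ∈ Icc 2 X, ArithmeticFunction.vonMangoldt n / Real.sqrt n *
          GB B n * Real.cos (t * Real.log n)) := rfl
      have e3 : ZZ T t = ∑ s ∈ (Zf riemannZeta T (2 * T)).filter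
        (fun s => L ^ (-(1 / 3) : ℝ) ≤ |s.re - 1 / 2|),
        (mult riemannZeta s : ℝ) * Real.exp (-(s.im - t) ^ 2 / 2) := rfl
      rw [e1, e2, e3]
      constructor
      · linarith [a1.1, a2.2]
      · linarith [a1.2, a2.1])
    (by
      intro v hv0 hvh
      have a1 := farW (c := cF) (C := C * T * L ^ C * Real.exp (-(cF * L ^ (2 / 3 : ℝ)))) hT0.le
        (fun P r Q y h1 h2 h3 h4 h5 => hF T hTT1 P r Q y h1 h2 h3 h4 h5) (φ := φ) hPp hr hQ1
        hQF (A := A) (B := B') (v := v) (by linarith) hAB (by linarith)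
      exact a1)
  -- the main part
  have hJ := avgJ hPR P r φ Q hPp hr hQ1 hAB L B h X hG hPX
  -- the sum over the primes
  set S := ∑ p ∈ P, |Real.sin (h * Real.log p / 2)| / Real.sqrt p * r p * N1 P r Q p with hS
  have hSum : ε * ∑ p ∈ P, 1 / Real.sqrt p * GB B p * (2 * Real.sin (h * Real.log p / 2)) *
          (r p * Real.cos (φ p + h * Real.log p / 2) * N1 P r Q p) ≤ -(1 / 5) * S := by
    rw [hS, Finset.mul_sum, Finset.mul_sum]
    refine Finset.sum_le_sum fun p hp => ?_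
    have hp1 := (hP p hp).2.1
    have hp2 := (hP p hp).2.2
    have hp0 : (0 : ℝ) < p := by linarith
    have g1 : 1 ≤ Real.log p := by
      rw [Real.le_log_iff_exp_le hp0]
      linarith [Real.exp_one_lt_d9]
    have g2 : Real.log p ≤ B / 4 := by
      have := Real.log_le_log hp0 hp2
      rw [Real.log_pow] at this
      push_cast at this
      linarith
    have g3 := k11 p g1 g2
    have g4 := ph_spec (h := h) hε p
    have hε2 : ε * ε = 1 := by rcases hε with h | h <;> rw [h] <;> norm_num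
    have g5 : ε * (1 / Real.sqrt p * GB B p * (2 * Real.sin (h * Real.log p / 2)) *
          (r p * Real.cos (φ p + h * Real.log p / 2) * N1 P r Q p)) =
        -(2 * GB B p * (|Real.sin (h * Real.log p / 2)| / Real.sqrt p * r p * N1 P r Q p)) := by
      calc _ = ε * (1 / Real.sqrt p * GB B p * 2 * r p * N1 P r Q p *
            (Real.sin (h * Real.log p / 2) * Real.cos (φ p + h * Real.log p / 2))) := by ring
        _ = ε * (1 / Real.sqrt p * GB B p * 2 * r p * N1 P r Q p *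
            (-(ε * |Real.sin (h * Real.log p / 2)|))) := by rw [hφ, g4]
        _ = -(ε * ε) * (2 * GB B p * (|Real.sin (h * Real.log p / 2)| / Real.sqrt p * r p *
            N1 P r Q p)) := by ring
        _ = _ := by rw [hε2]; ring
    rw [g5]
    have g6 : 0 ≤ |Real.sin (h * Real.log p / 2)| / Real.sqrt p * r p * N1 P r Q p := by
      have := hr p hp
      have := N1_nonneg P r Q p
      positivity
    exact G_aux g3 g6
  have hS1 : c1 * Real.sqrt (L / LL) * N0 P r Q ≤ S := hRK1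
  -- conclusion
  set IW := ∫ t in A..B', W t with hIW
  set II := ∫ t in A..B', W t * ∫ v in (0 : ℝ)..h, FF U1 U2 B (t + v) with hII
  set κ := ∫ x : ℝ, KR B x with hκ
  set R := Real.sqrt (L / LL) with hR
  have hRL : R ≤ Real.sqrt L := RL_lem b6 (by linarith)
  have hRK3 : EP P r ≤ Real.exp (C1 * Real.sqrt L) * N0 P r Q := by
    refine hRK2.trans ?_
    gcongr
  have hR0 : 0 ≤ R := Real.sqrt_nonneg _
  have hκe : κ * (h / (2 * Real.pi) * L) = 2 / Real.sqrt (2 * Real.pi) * (h * L * GB B 1) := by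
    rw [k8]
    exact kap_eq (Real.mul_self_sqrt (by positivity)) hspi
  have hkey : c1 / 100 * R * IW < ε * (II - κ * (h / (2 * Real.pi) * L) * IW) := by
    have hEP0 : 0 ≤ EP P r := by
      unfold EP
      refine Finset.prod_nonneg fun p hp => ?_
      have := hr p hp
      positivity
    have hfin : 2 * h * (C2 + C3 * L ^ (1 / 3 : ℝ) * LL ^ 3) + 2 < c1 / 50 * R := by
      rw [mul_assoc C3]
      refine fin_aux hh hC2 hC3 (a := L ^ (1 / 3 : ℝ) * LL ^ 3) (by positivity) ?_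
      rw [← mul_assoc]
      exact b1
    have hBd : C3 * L ^ 5 * (h * (C * T * L ^ C * Real.exp (-(cF * L ^ (2 / 3 : ℝ))) * EP P r)) ≤
        T * N0 P r Q := by
      calc _ ≤ C3 * L ^ 5 * (h * (C * T * L ^ C * Real.exp (-(cF * L ^ (2 / 3 : ℝ))) *
            (Real.exp (C1 * Real.sqrt L) * N0 P r Q))) := by
              have := hRK3
              gcongr
        _ = (h * C3 * C * L ^ 5 * L ^ C * Real.exp (-(cF * L ^ (2 / 3 : ℝ))) *
            Real.exp (C1 * Real.sqrt L)) * (T * N0 P r Q) := by ring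
        _ ≤ 1 * (T * N0 P r Q) := by gcongr
        _ = _ := one_mul _
    exact key_num (G := 0) (X2 := (X : ℝ) ^ 2 * Q ^ 2) hε hcomp (by
      refine hJ.trans (le_of_eq ?_)
      ring) hκe hSum hS1 (by
        rw [div_le_div_iff₀ (by norm_num) hspi]
        linarith) (by
        rw [div_le_one hspi]
        exact hs2) hlen1 hT0 hN01 hIW2 (by linarith) hc10 hR0 hIW0 (by positivity) hh hBd hfin rfl
  -- the bad centres
  have hLLL : LL ≤ L := by
    have := Real.log_le_sub_one_of_pos (show 0 < L by linarith)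
    linarith
  obtain ⟨hsq0, hsqL, hsqL2⟩ := sq_lem b6 hLLL
  set δ : ℝ := C5 / Real.sqrt (L * LL) with hδ
  have hδ1 : 2 / L ≤ δ := by
    rw [hδ]
    exact div_le_div₀ (by linarith) hC50 hsq0 hsqL
  have hδ2 : δ ≤ 1 / 32 := by
    rw [hδ, div_le_div_iff₀ hsq0 (by norm_num)]
    linarith
  set J : ℕ := ⌊4 * L⌋₊ with hJd
  have hJ1 : 3 * L + 1 / 2 ≤ J := by
    have := Nat.sub_one_lt_floor (4 * L)
    linarith
  have hJ2 : (J : ℝ) ≤ 4 * L := Nat.floor_le (by linarith)
  have hEP0 : 0 ≤ EP P r := by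
    unfold EP
    refine Finset.prod_nonneg fun p hp => ?_
    have := hr p hp
    positivity
  have hL0 : 0 < L := by linarith
  have hWV := WV_le (W := W) (T := T) (δ := δ) (L := L) (A := A) (B' := B')
    (Bd := CD * T * L ^ CD * T ^ (-(cD * δ)) * EP P r) (J := J) hWc (by linarith) (by positivity)
    hJ2 (fun j j1 j2 => farWd (c := cD) (C := CD * T * L ^ CD * T ^ (-(cD * δ))) hT0.le
        (fun P r Q y h1 h2 h3 h4 h5 => hFd T hTTD δ hδ1 hδ2 P r Q y h1 h2 h3 h4 h5) (φ := φ) hPp hr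
        hQ1 hQD (A := A) (B := B') (v := j) (by linarith) hAB (by linarith))
  have hWV2 : 2 * (Kg * L ^ 2) * (∫ t in A..B', W t * VV T δ J t) ≤ T * N0 P r Q := by
    calc 2 * (Kg * L ^ 2) * (∫ t in A..B', W t * VV T δ J t) ≤
          2 * (Kg * L ^ 2) * ((9 * L) * (CD * T * L ^ CD * T ^ (-(cD * δ)) *
            (Real.exp (C1 * R) * N0 P r Q))) := by
              refine mul_le_mul_of_nonneg_left (hWV.trans ?_) (by positivity)
              refine mul_le_mul_of_nonneg_left ?_ (by positivity)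
              exact mul_le_mul_of_nonneg_left hRK2 (by positivity)
        _ = (2 * Kg * 9 * CD * (L ^ (3 : ℝ) * L ^ CD) * (Real.exp (-(cD * C5 * R)) *
              Real.exp (C1 * R))) * (T * N0 P r Q) := by
              rw [hδ, Td_lem hT0 hL hL0 (by linarith)]
              have : L ^ (3 : ℝ) = L ^ 3 := by rw [← Real.rpow_natCast]; norm_num
              rw [this]
              ring
        _ ≤ (2 * Kg * 9 * CD * L ^ (3 + CD) * Real.exp (-R)) * (T * N0 P r Q) := by
              rw [← Real.rpow_add hL0, ← Real.exp_add]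
              have := ex_lem (R := R) hcD hR0 hC5
              have h2 : 0 ≤ T * N0 P r Q := by positivity
              refine mul_le_mul_of_nonneg_right ?_ h2
              refine mul_le_mul_of_nonneg_left (Real.exp_le_exp.2 this) (by positivity)
        _ ≤ 1 * (T * N0 P r Q) := by
              apply mul_le_mul_of_nonneg_right b8 (by positivity)
        _ = _ := one_mul _
  have hκ0 : 0 ≤ κ := integral_nonneg fun x => (k2 x).1
  have hκ13 : κ ≤ 13 := kap_le k8 (k9 1).2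
  have hκL0 : 0 ≤ κ * (h / (2 * Real.pi) * L) := by positivity
  have hκL := kL_lem hκ13 hh (show 1 ≤ L by linarith)
  have h8 : 8 ≤ c1 / 200 * R := by
    have : 0 ≤ 8 * L ^ (1 / 3 : ℝ) * LL ^ 3 := by positivity
    linarith
  have hvol := GG_vol (W := W) (F := FF U1 U2 B) (T := T) (L := L) (h := h) (ε := ε)
    (κL := κ * (h / (2 * Real.pi) * L)) (c0 := c1 / 200) (R := R) (δ := δ) (A := A) (B' := B')
    (IW := IW) (II := II) (CB := CB) (Kg := Kg) (Q := Q) (N0v := N0 P r Q) (WV := 0) (J := J)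
    hWc hFFc hW0 (fun t => FF_nonneg (fun x => (k2 x).1) t)
    (fun t => hFB T hTTB U1 U2 hU1 (by linarith) hU2' B t hB1 b12)
    (by linarith) (by linarith) hh hAB hε hκL0 hκL hCB hKg (by positivity) hR0 hIW hII
    (by refine lt_of_le_of_lt (le_of_eq ?_) hkey; ring)
    (fun t => hWB P r Q (yc r φ) hPp hr hQ1 (fun S hS => (norm_yc r φ hr (FS_sub hS)).le) t)
    hJ1 hWV2 (IW_ge hmean.1 hlen1 (hX_aux2 b5 hL3 hX2) (by linarith)) h8 (by linarith)
  refine ⟨GG (FF U1 U2 B) T L h ε (κ * (h / (2 * Real.pi) * L)) (c1 / 200 * R) δ A B',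
    GG_meas hFFc _ _ _ _ _ _ _ _ _, fun t ht => ⟨ht.1, ht.2.1⟩, ?_,
    fun t ht => ⟨ht.2.2.1, fun s hs hst => ?_⟩⟩
  · refine vol_fin (by linarith) hcη ?_
    refine hvol.trans ?_
    have hv0 : 0 ≤ (volume (GG (FF U1 U2 B) T L h ε (κ * (h / (2 * Real.pi) * L))
      (c1 / 200 * R) δ A B')).toReal := ENNReal.toReal_nonneg
    exact mul_le_mul_of_nonneg_right (mul_le_mul_of_nonneg_right b11 hQ0.le) hv0
  · by_contra hcon
    push Not at hcon
    have := ht.2.2.2 s (by rw [Finset.mem_filter]; exact ⟨hs, hcon.le⟩)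
    linarith

end

end Pool.Agent.Y746.OM
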