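import Pool.Agent.Y746.OM.Asm7

set_option autoImplicit false

/-! Assembly, part 8: many good centres. -/

namespace Pool.Agent.Y746.OM

open Finset Filter Topology MeasureTheory
open H370 (zset mult NN Zf zz)

noncomputable section

lemma asym3 (K c : ℝ) (hK : 0 < K) (hc : 0 < c) : ∀ᶠ x : ℝ in atTop,
    K * x ^ c * Real.exp (-Real.sqrt (x / Real.log x)) ≤ 1 := by
  have h1 : (fun x : ℝ => Real.log x ^ (2 : ℝ)) =o[atTop] fun x => x ^ (1 / 2 : ℝ) :=
    isLittleO_log_rpow_rpow_atTop 2 (by norm_num)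
  have h2 := h1.bound (show (0 : ℝ) < 1 / (2 * (c + 1)) by positivity)
  have h5 : Tendsto (fun x : ℝ => Real.log x) atTop atTop := Real.tendsto_log_atTop
  have h6 := h5.eventually_ge_atTop (|Real.log K| + 1)
  filter_upwards [h2, h6, eventually_ge_atTop 1] with x hx hl hx1
  have hx0 : 0 < x := by linarith
  set l := Real.log x with hl'
  have hl1 : 1 ≤ l := by have := abs_nonneg (Real.log K); linarith
  have hl0 : 0 < l := by linarith
  have e4 : l ^ (2 : ℝ) = l ^ 2 := by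
    rw [← Real.rpow_natCast]; norm_num
  rw [Real.norm_of_nonneg (by positivity), Real.norm_of_nonneg (by positivity), e4,
    ← Real.sqrt_eq_rpow] at hx
  have hs : Real.sqrt x / l ≤ Real.sqrt (x / l) := by
    rw [Real.sqrt_div hx0.le]
    apply div_le_div_of_nonneg_left (Real.sqrt_nonneg _) (Real.sqrt_pos.2 hl0)
    rw [Real.sqrt_le_left hl0.le]
    nlinarith
  have h7 : (c + 1) * l ≤ Real.sqrt (x / l) := by
    refine le_trans ?_ hs
    rw [le_div_iff₀ hl0]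
    have : (c + 1) * l * l = (c + 1) * l ^ 2 := by ring
    rw [this]
    calc (c + 1) * l ^ 2 ≤ (c + 1) * (1 / (2 * (c + 1)) * Real.sqrt x) := by gcongr
      _ = Real.sqrt x / 2 := by field_simp
      _ ≤ Real.sqrt x := by linarith [Real.sqrt_nonneg x]
  have e1 : K * x ^ c * Real.exp (-Real.sqrt (x / l)) =
      Real.exp (Real.log K + c * l - Real.sqrt (x / l)) := by
    have a1 : K = Real.exp (Real.log K) := (Real.exp_log hK).symm
    have a2 : x ^ c = Real.exp (c * l) := by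
      rw [Real.rpow_def_of_pos hx0]
      congr 1; ring
    rw [a2]
    nth_rewrite 1 [a1]
    rw [← Real.exp_add, ← Real.exp_add]
    congr 1
  rw [e1, Real.exp_le_one_iff]
  have := le_abs_self (Real.log K)
  nlinarith

lemma vol_num {c0R IW Wg WV gm Q v T N0v : ℝ} (h1 : 2 * c0R * IW < Wg)
    (h2 : Wg - c0R * IW ≤ 2 * gm * WV + gm * (Q * N0v) * v) (h3 : T / 4 * N0v ≤ IW)
    (h4 : 2 * gm * WV ≤ T * N0v) (h5 : 8 ≤ c0R) (hN : 0 < N0v) (hT : 0 < T) :
    T ≤ gm * Q * v := by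
  have a1 : 2 * (T * N0v) ≤ c0R * IW := by
    calc 2 * (T * N0v) = 8 * (T / 4 * N0v) := by ring
      _ ≤ c0R * IW := mul_le_mul h5 h3 (by positivity) (by linarith)
  have a2 : T * N0v ≤ (gm * Q * v) * N0v := by
    have : gm * (Q * N0v) * v = (gm * Q * v) * N0v := by ring
    rw [this] at h2
    linarith
  exact le_of_mul_le_mul_right a2 hN

lemma IW_ge {IW len N Q2 T : ℝ} (h1 : -(2 * Q2 * N) ≤ IW - len * N) (h2 : T / 2 ≤ len)
    (h3 : 2 * Q2 ≤ T / 4) (h4 : 0 ≤ N) : T / 4 * N ≤ IW := by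
  have a1 := mul_le_mul_of_nonneg_right h2 h4
  have a2 := mul_le_mul_of_nonneg_right h3 h4
  linarith

lemma hX_aux2 {X Q T L : ℝ} (h1 : L ^ 2 ≤ X) (hL : 3 ≤ L) (h : 12 * X ^ 2 * Q ^ 2 ≤ T) :
    2 * Q ^ 2 ≤ T / 4 := by
  have h1 : (1 : ℝ) ≤ X := by nlinarith
  have h2 : (1 : ℝ) ≤ (X : ℝ) ^ 2 := one_le_pow₀ h1
  nlinarith [sq_nonneg Q]

lemma FF_nonneg {U1 U2 B : ℝ} (hK : ∀ x, 0 ≤ KR B x) (t : ℝ) : 0 ≤ FF U1 U2 B t :=
  Finset.sum_nonneg fun _ _ => mul_nonneg (Nat.cast_nonneg _) (hK _)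

lemma sq_lem {L LL : ℝ} (h1 : 1 ≤ LL) (h2 : LL ≤ L) : 0 < Real.sqrt (L * LL) ∧
    Real.sqrt (L * LL) ≤ L ∧ Real.sqrt L ≤ Real.sqrt (L * LL) := by
  refine ⟨?_, ?_, ?_⟩
  · apply Real.sqrt_pos.2; nlinarith
  · rw [Real.sqrt_le_left (by linarith)]
    nlinarith
  · apply Real.sqrt_le_sqrt; nlinarith

lemma RL_lem {L LL : ℝ} (h1 : 1 ≤ LL) (h2 : 0 ≤ L) : Real.sqrt (L / LL) ≤ Real.sqrt L := by
  apply Real.sqrt_le_sqrt
  rw [div_le_iff₀ (by linarith)]
  nlinarith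

lemma kL_lem {κ h L : ℝ} (h1 : κ ≤ 13) (hh : 0 < h) (hL : 1 ≤ L) :
    κ * (h / (2 * Real.pi) * L) ≤ 13 * h * L ^ 2 := by
  have h2 : h / (2 * Real.pi) ≤ h := div_le_self hh.le (by linarith [Real.pi_gt_three])
  have h0 : 0 ≤ h / (2 * Real.pi) := by positivity
  have h3 : h / (2 * Real.pi) * L ≤ h * L ^ 2 := by
    calc h / (2 * Real.pi) * L ≤ h * L := mul_le_mul_of_nonneg_right h2 (by linarith)
      _ ≤ h * L ^ 2 := mul_le_mul_of_nonneg_left (by nlinarith) hh.le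
  calc κ * (h / (2 * Real.pi) * L) ≤ 13 * (h * L ^ 2) :=
        mul_le_mul h1 h3 (by positivity) (by norm_num)
    _ = _ := by ring

lemma ex_lem {cD C5 C1 R : ℝ} (hcD : 0 < cD) (hR : 0 ≤ R) (h : C5 = (C1 + 1) / cD + 2) :
    -(cD * C5 * R) + C1 * R ≤ -R := by
  have e : cD * C5 = C1 + 1 + 2 * cD := by
    rw [h]; field_simp
  rw [e]
  nlinarith [mul_nonneg hcD.le hR]

lemma kap_le {κ G : ℝ} (h8 : κ = 2 * Real.sqrt (2 * Real.pi) * G)
    (h9 : G ≤ Real.sqrt (2 * Real.pi)) : κ ≤ 13 := by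
  rw [h8]
  have e : Real.sqrt (2 * Real.pi) * Real.sqrt (2 * Real.pi) = 2 * Real.pi :=
    Real.mul_self_sqrt (by positivity)
  have h3 := Real.pi_lt_d2
  calc 2 * Real.sqrt (2 * Real.pi) * G ≤ 2 * Real.sqrt (2 * Real.pi) *
        Real.sqrt (2 * Real.pi) := by gcongr
    _ = 2 * (2 * Real.pi) := by rw [mul_assoc, e]
    _ ≤ 13 := by linarith

lemma Td_lem {T L LL cD C5 : ℝ} (hT : 0 < T) (hL : L = Real.log T) (hL0 : 0 < L) (hLL : 0 < LL) :
    T ^ (-(cD * (C5 / Real.sqrt (L * LL)))) = Real.exp (-(cD * C5 * Real.sqrt (L / LL))) := by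
  rw [Real.rpow_def_of_pos hT, ← hL]
  congr 1
  have e1 : L * (1 / Real.sqrt (L * LL)) = Real.sqrt (L / LL) := by
    rw [Real.sqrt_div hL0.le, Real.sqrt_mul hL0.le]
    have hs1 : Real.sqrt L * Real.sqrt L = L := Real.mul_self_sqrt hL0.le
    have hs2 : 0 < Real.sqrt L := Real.sqrt_pos.2 hL0
    have hs3 : 0 < Real.sqrt LL := Real.sqrt_pos.2 hLL
    field_simp
    linarith
  rw [← e1]
  ring

/-- the good centres -/
def GG (F : ℝ → ℝ) (T L h ε κL cR δ A B' : ℝ) : Set ℝ :=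
  {t : ℝ | A ≤ t ∧ t ≤ B' ∧ cR ≤ ε * ((∫ v in (0 : ℝ)..h, F (t + v)) - κL) ∧
    ∀ s ∈ (Zf riemannZeta T (2 * T)).filter (fun s => δ ≤ |s.re - 1 / 2|), 3 * L < |s.im - t|}

lemma GG_meas {F : ℝ → ℝ} (hF : Continuous F) (T L h ε κL cR δ A B' : ℝ) :
    MeasurableSet (GG F T L h ε κL cR δ A B') := by
  have hIc : Continuous fun t : ℝ => ∫ v in (0 : ℝ)..h, F (t + v) :=
      intervalIntegral.continuous_parametric_intervalIntegral_of_continuous' (by fun_prop) _ _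
  have hcG : Continuous fun t : ℝ => ε * ((∫ v in (0 : ℝ)..h, F (t + v)) - κL) := by fun_prop
  have e : GG F T L h ε κL cR δ A B' = (Set.Icc A B' ∩
      {t : ℝ | cR ≤ ε * ((∫ v in (0 : ℝ)..h, F (t + v)) - κL)}) ∩
      ⋂ s ∈ (Zf riemannZeta T (2 * T)).filter (fun s => δ ≤ |s.re - 1 / 2|),
        {t : ℝ | 3 * L < |s.im - t|} := by
    ext t
    simp only [GG, Set.mem_setOf_eq, Set.mem_inter_iff, Set.mem_Icc, Set.mem_iInter]
    tauto
  rw [e]
  refine (measurableSet_Icc.inter (measurableSet_le measurable_const hcG.measurable)).inter ?_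
  refine Finset.measurableSet_biInter _ fun s _ => ?_
  exact measurableSet_lt measurable_const (by fun_prop)

lemma GG_vol {W F : ℝ → ℝ} {T L h ε κL c0 R δ A B' IW II CB Kg Q N0v WV : ℝ} {J : ℕ}
    (hWc : Continuous W) (hF : Continuous F) (hW0 : ∀ t, 0 ≤ W t) (hF0 : ∀ t, 0 ≤ F t)
    (hFB : ∀ t, F t ≤ CB * L ^ 2) (hT : 1 ≤ T) (hL : 1 ≤ L) (hh : 0 < h) (hAB : A ≤ B')
    (hε : ε = 1 ∨ ε = -1) (hκ0 : 0 ≤ κL) (hκ : κL ≤ 13 * h * L ^ 2) (hCB : 0 < CB)
    (hKg : Kg = (CB + 13) * h + 1) (hc0 : 0 < c0) (hR : 0 ≤ R)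
    (hIW : IW = ∫ t in A..B', W t)
    (hII : II = ∫ t in A..B', W t * ∫ v in (0 : ℝ)..h, F (t + v))
    (hkey : 2 * (c0 * R) * IW < ε * (II - κL * IW))
    (hWm : ∀ t, W t ≤ Q * N0v) (hJ : 3 * L + 1 / 2 ≤ J)
    (hWV : 2 * (Kg * L ^ 2) * (∫ t in A..B', W t * VV T δ J t) ≤ T * N0v)
    (hIWg : T / 4 * N0v ≤ IW) (h8 : 8 ≤ c0 * R) (hN : 0 < N0v) :
    T ≤ Kg * L ^ 2 * Q * (volume (GG F T L h ε κL (c0 * R) δ A B')).toReal := by
  set g : ℝ → ℝ := fun t => ε * ((∫ v in (0 : ℝ)..h, F (t + v)) - κL) with hg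
  have hIc : Continuous fun t : ℝ => ∫ v in (0 : ℝ)..h, F (t + v) :=
      intervalIntegral.continuous_parametric_intervalIntegral_of_continuous' (by fun_prop) _ _
  have hcG : Continuous g := by
    rw [hg]; fun_prop
  have hWg : ∫ t in A..B', W t * g t = ε * (II - κL * IW) := by
    have e1 : ∀ t : ℝ, W t * g t = ε * ((W t * ∫ v in (0 : ℝ)..h, F (t + v)) -
      κL * W t) := fun t => by rw [hg]; ring
    have c1 : Continuous fun t : ℝ => W t * ∫ v in (0 : ℝ)..h, F (t + v) := hWc.mul hIc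
    have c2 : Continuous fun t : ℝ => κL * W t := continuous_const.mul hWc
    simp_rw [e1]
    rw [intervalIntegral.integral_const_mul, intervalIntegral.integral_sub
      (c1.intervalIntegrable _ _) (c2.intervalIntegrable _ _),
      intervalIntegral.integral_const_mul, hII, hIW]
  have hc0R : 0 ≤ c0 * R := by positivity
  have hKg0 : 0 ≤ Kg := by rw [hKg]; positivity
  have hgm : ∀ t, A ≤ t → t ≤ B' → g t - c0 * R ≤ Kg * L ^ 2 := by
    intro t _ _
    have a1 : 0 ≤ ∫ v in (0 : ℝ)..h, F (t + v) :=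
      intervalIntegral.integral_nonneg hh.le fun v _ => hF0 _
    have a2 : ∫ v in (0 : ℝ)..h, F (t + v) ≤ ∫ v in (0 : ℝ)..h, CB * L ^ 2 :=
      intervalIntegral.integral_mono_on hh.le (Continuous.intervalIntegrable (by fun_prop) _ _)
        (continuous_const.intervalIntegrable _ _) fun v _ => hFB _
    rw [intervalIntegral.integral_const, sub_zero, smul_eq_mul] at a2
    have a6 : Kg * L ^ 2 = h * (CB * L ^ 2) + 13 * h * L ^ 2 + L ^ 2 := by rw [hKg]; ring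
    have a7 : 0 ≤ L ^ 2 := sq_nonneg L
    have a8 : 0 ≤ 13 * h * L ^ 2 := by positivity
    have a9 : 0 ≤ h * (CB * L ^ 2) := by positivity
    rw [a6, hg]
    rcases hε with h' | h' <;> rw [h'] <;> linarith
  have hmeas := meas_lem (G := GG F T L h ε κL (c0 * R) δ A B') hWc hcG (VV_cont T δ J) hW0
    (VV_nonneg T δ J) (c := c0 * R) (gm := Kg * L ^ 2)
    (Wm := Q * N0v) hAB (GG_meas hF _ _ _ _ _ _ _ _ _) (fun t ht => ⟨ht.1, ht.2.1⟩)
    (by positivity) hgm hWm (by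
      intro t h1 h2 h3 h4
      have h5 : ∃ s ∈ (Zf riemannZeta T (2 * T)).filter (fun s => δ ≤ |s.re - 1 / 2|),
          |s.im - t| ≤ 3 * L := by
        by_contra hcon
        push Not at hcon
        exact h3 ⟨h1, h2, h4.le, hcon⟩
      obtain ⟨s, hs, hst⟩ := h5
      rw [Finset.mem_filter] at hs
      exact VV_ge hT hs.1 hs.2 (by linarith))
  have hsub : ∫ t in A..B', W t * (g t - c0 * R) =
      (∫ t in A..B', W t * g t) - c0 * R * IW := by
    have e1 : ∀ t : ℝ, W t * (g t - c0 * R) = W t * g t - c0 * R * W t := fun t => by ring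
    simp_rw [e1]
    have c1' : Continuous fun t : ℝ => W t * g t := hWc.mul hcG
    have c2' : Continuous fun t : ℝ => c0 * R * W t := continuous_const.mul hWc
    rw [intervalIntegral.integral_sub (c1'.intervalIntegrable _ _) (c2'.intervalIntegrable _ _),
      intervalIntegral.integral_const_mul, hIW]
  rw [hsub] at hmeas
  refine vol_num (c0R := c0 * R) (IW := IW) (WV := ∫ t in A..B', W t * VV T δ J t)
    (Wg := ∫ t in A..B', W t * g t) (N0v := N0v) ?_ hmeas hIWg hWV h8 hN (by linarith)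
  rw [hWg]
  exact hkey

lemma WV_le {W : ℝ → ℝ} {T δ L A B' Bd : ℝ} {J : ℕ} (hWc : Continuous W) (hL : 1 ≤ L)
    (hBd0 : 0 ≤ Bd) (hJ : (J : ℝ) ≤ 4 * L)
    (hterm : ∀ j : ℝ, -(4 * L) ≤ j → j ≤ 4 * L → ∫ t in A..B', W t * ZZd T δ (t + j) ≤ Bd) :
    ∫ t in A..B', W t * VV T δ J t ≤ (9 * L) * Bd := by
  have e1 : ∀ t, W t * VV T δ J t = ∑ j ∈ Icc (-(J : ℤ)) J, W t * ZZd T δ (t + (j : ℝ)) := by
    intro t; unfold VV; rw [Finset.mul_sum]
  simp_rw [e1]
  have hcj : ∀ j : ℤ, Continuous fun t : ℝ => W t * ZZd T δ (t + (j : ℝ)) := fun j =>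
    hWc.mul ((ZZd_cont T δ).comp (continuous_id.add continuous_const))
  rw [intervalIntegral.integral_finsetSum (fun j _ => (hcj j).intervalIntegrable _ _)]
  have hterm' : ∀ j ∈ Icc (-(J : ℤ)) J, ∫ t in A..B', W t * ZZd T δ (t + (j : ℝ)) ≤ Bd := by
    intro j hj
    rw [Finset.mem_Icc] at hj
    have j1 : (-(J : ℝ)) ≤ j := by exact_mod_cast hj.1
    have j2 : (j : ℝ) ≤ J := by exact_mod_cast hj.2
    exact hterm j (by linarith) (by linarith)
  refine (Finset.sum_le_sum hterm').trans ?_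
  rw [Finset.sum_const, nsmul_eq_mul, Int.card_Icc]
  apply mul_le_mul_of_nonneg_right _ hBd0
  have h2 : (((J : ℤ) + 1 - -(J : ℤ)).toNat : ℝ) = 2 * J + 1 := by
    have : ((J : ℤ) + 1 - -(J : ℤ)).toNat = 2 * J + 1 := by omega
    rw [this]; push_cast; ring
  rw [h2]
  linarith

lemma vol_fin {T c η0 v : ℝ} (hT : 1 ≤ T) (hc : c ≤ η0) (h : T ≤ T ^ c * T ^ c * v) :
    T ^ (1 - 2 * η0) ≤ v := by
  have hT0 : 0 < T := by linarith
  have h2 : T ^ (1 - 2 * c) * (T ^ c * T ^ c) = T := by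
    rw [← Real.rpow_add hT0, ← Real.rpow_add hT0]
    have : 1 - 2 * c + (c + c) = 1 := by ring
    rw [this, Real.rpow_one]
  have h3 : T ^ (1 - 2 * c) ≤ v := by
    have h4 : T ^ (1 - 2 * c) * (T ^ c * T ^ c) ≤ v * (T ^ c * T ^ c) := by
      rw [h2]; linarith
    exact le_of_mul_le_mul_right h4 (by positivity)
  exact (Real.rpow_le_rpow_of_exponent_le hT (by linarith)).trans h3

end

end Pool.Agent.Y746.OM
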