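import Pool.Agent.Y746.OM.Asm5
import Pool.Agent.Y746.OM.Asm8

set_option autoImplicit false

/-! Assembly, part 9: the theorem with measures. -/

namespace Pool.Agent.Y746.OM

open Finset Filter Topology MeasureTheory
open H370 (zset mult NN Zf zz)

noncomputable section

/-- all zeros near `t` are near the critical line -/
def NearL (C t : ℝ) : Prop := ∀ ρ : ℂ, 0 < ρ.re → ρ.re < 1 → riemannZeta ρ = 0 →
  |ρ.im - t| ≤ Real.log t → |ρ.re - 1 / 2| ≤ C / Real.sqrt (Real.log t * Real.log (Real.log t))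

/-- many zeros in `(t, t + h]` -/
def HiSet (h c C T : ℝ) : Set ℝ := {t : ℝ | T ≤ t ∧ t ≤ 2 * T ∧
  h / (2 * Real.pi) * Real.log (t / (2 * Real.pi)) +
    c * Real.sqrt (Real.log t / Real.log (Real.log t)) ≤ (NN riemannZeta t (t + h) : ℝ) ∧
  NearL C t}

/-- few zeros in `(t, t + h]` -/
def LoSet (h c C T : ℝ) : Set ℝ := {t : ℝ | T ≤ t ∧ t ≤ 2 * T ∧
  (NN riemannZeta t (t + h) : ℝ) ≤ h / (2 * Real.pi) * Real.log (t / (2 * Real.pi)) -
    c * Real.sqrt (Real.log t / Real.log (Real.log t)) ∧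
  NearL C t}

/-- the theorem with measures -/
def S_FIN2 : Prop := ∀ h ε : ℝ, 0 < h → 0 < ε → ∃ c C T0 : ℝ, 0 < c ∧ 0 < C ∧ 10 ≤ T0 ∧
  ∀ T : ℝ, T0 ≤ T → ENNReal.ofReal (T ^ (1 - ε)) ≤ volume (HiSet h c C T) ∧
    ENNReal.ofReal (T ^ (1 - ε)) ≤ volume (LoSet h c C T)

lemma two_sqrt (x : ℝ) : 2 * Real.sqrt x = Real.sqrt (4 * x) := by
  rw [Real.sqrt_mul (by norm_num), show (4 : ℝ) = 2 ^ 2 by norm_num, Real.sqrt_sq (by norm_num)]

lemma near_of {T τ C5 : ℝ} (hT : 10 ≤ T) (hLL : 1 ≤ Real.log (Real.log T)) (h1 : T ≤ τ)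
    (h2 : τ ≤ 2 * T) (hC : 0 < C5)
    (h : ∀ ρ : ℂ, 0 < ρ.re → ρ.re < 1 → riemannZeta ρ = 0 → |ρ.im - τ| ≤ 2 * Real.log T →
      |ρ.re - 1 / 2| ≤ C5 / Real.sqrt (Real.log T * Real.log (Real.log T))) :
    NearL (2 * C5) τ := by
  intro ρ r1 r2 r3 r4
  have hT0 : 0 < T := by linarith
  have hL0 : 0 < Real.log T := Real.log_pos (by linarith)
  have a1 : Real.log τ ≤ 2 * Real.log T := by
    have : Real.log τ ≤ Real.log (T ^ 2) := Real.log_le_log (by linarith) (by nlinarith)
    rw [Real.log_pow] at this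
    exact_mod_cast this
  have a2 : Real.log T ≤ Real.log τ := Real.log_le_log hT0 h1
  have a4 : Real.log (Real.log τ) ≤ 2 * Real.log (Real.log T) := by
    have : Real.log (Real.log τ) ≤ Real.log (2 * Real.log T) :=
      Real.log_le_log (by linarith) a1
    rw [Real.log_mul (by norm_num) hL0.ne'] at this
    have := Real.log_two_lt_d9
    linarith
  have a5 : Real.log (Real.log T) ≤ Real.log (Real.log τ) := Real.log_le_log hL0 a2
  refine (h ρ r1 r2 r3 (r4.trans a1)).trans ?_
  have hs : 0 < Real.sqrt (Real.log T * Real.log (Real.log T)) := by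
    apply Real.sqrt_pos.2; nlinarith
  have hs2 : 0 < Real.sqrt (Real.log τ * Real.log (Real.log τ)) := by
    apply Real.sqrt_pos.2
    have : 0 < Real.log τ := by linarith
    have : 0 < Real.log (Real.log τ) := by linarith
    positivity
  have h3 : Real.sqrt (Real.log τ * Real.log (Real.log τ)) ≤
      2 * Real.sqrt (Real.log T * Real.log (Real.log T)) := by
    rw [two_sqrt]
    apply Real.sqrt_le_sqrt
    have : 0 ≤ Real.log (Real.log τ) := by linarith
    calc Real.log τ * Real.log (Real.log τ) ≤ (2 * Real.log T) * (2 * Real.log (Real.log T)) := by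
          gcongr
      _ = _ := by ring
  rw [div_le_div_iff₀ hs hs2]
  calc C5 * Real.sqrt (Real.log τ * Real.log (Real.log τ)) ≤
      C5 * (2 * Real.sqrt (Real.log T * Real.log (Real.log T))) := by gcongr
    _ = _ := by ring

lemma vol_last {G E : Set ℝ} {T L ε : ℝ} (hT : 1 ≤ T) (hL : 1 ≤ L)
    (hG : T ^ (1 - 2 * (ε / 4)) ≤ (volume G).toReal)
    (hcov : ENNReal.ofReal (L ^ (-(4 : ℝ))) * volume G ≤ ENNReal.ofReal (2 * L) * volume E)
    (hbig : 2 * L ^ 5 < T ^ (ε / 2)) : ENNReal.ofReal (T ^ (1 - ε)) ≤ volume E := by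
  have hT0 : 0 < T := by linarith
  have hL0 : 0 < L := by linarith
  by_contra hcon
  push Not at hcon
  have h1 : ENNReal.ofReal (T ^ (1 - 2 * (ε / 4))) ≤ volume G :=
    ENNReal.ofReal_le_of_le_toReal hG
  have h2 : ENNReal.ofReal (L ^ (-(4 : ℝ)) * T ^ (1 - 2 * (ε / 4))) ≤
      ENNReal.ofReal (2 * L * T ^ (1 - ε)) := by
    rw [ENNReal.ofReal_mul (by positivity), ENNReal.ofReal_mul (by positivity : 0 ≤ 2 * L)]
    exact (mul_le_mul_right h1 _).trans (hcov.trans (mul_le_mul_right hcon.le _))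
  rw [ENNReal.ofReal_le_ofReal_iff (by positivity)] at h2
  have e1 : L ^ (-(4 : ℝ)) = (L ^ 4)⁻¹ := by
    rw [Real.rpow_neg hL0.le, ← Real.rpow_natCast]; norm_num
  have e2 : T ^ (1 - 2 * (ε / 4)) = T ^ (1 - ε) * T ^ (ε / 2) := by
    rw [← Real.rpow_add hT0]; congr 1; ring
  rw [e1, e2, inv_mul_le_iff₀ (by positivity)] at h2
  have h3 : 0 < T ^ (1 - ε) := by positivity
  have h4 : T ^ (1 - ε) * T ^ (ε / 2) ≤ T ^ (1 - ε) * (2 * L ^ 5) := by
    refine h2.trans (le_of_eq ?_)
    ring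
  have h5 := le_of_mul_le_mul_left h4 h3
  linarith

theorem fin2 (hF : S_F) (hFd : S_Fd) (hKER : S_KER) (hEX : S_EX) (hNL : S_NL) (hPR : S_PR)
    (hRK : S_RK2) (hWB : S_WB) (hFB : S_FB) (hCNT : S_CNT2) : S_FIN2 := by
  intro h ε hh hε
  obtain ⟨c0, C5, T1, hc0, hC5, hT1, hcore⟩ := core2 hF hFd hKER hEX hNL hPR hRK hWB hFB h (ε / 4)
    hh (by positivity)
  obtain ⟨C4, T2, hC4, hT2, hcnt⟩ := hCNT h hh
  obtain ⟨CK, hCK, hKER⟩ := hKER
  have hpi := Real.pi_pos
  have hpi3 := Real.pi_gt_three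
  have hll : Tendsto (fun T : ℝ => Real.log (Real.log T)) atTop atTop :=
    Real.tendsto_log_atTop.comp Real.tendsto_log_atTop
  have ev1 := Real.tendsto_log_atTop.eventually
    (asym1 (c0 / 4) (C4 + 13 * h) (by positivity) (by positivity))
  have ev2 : ∀ᶠ T : ℝ in atTop, 2 * (c0 / 100) * Real.sqrt (Real.log T) ≤
      h / (2 * Real.pi) * (Real.log T - 2) := by
    have h1 : Tendsto (fun x : ℝ => Real.sqrt x) atTop atTop := Real.tendsto_sqrt_atTop
    have h2 := h1.eventually_ge_atTop (2 * (2 * (c0 / 100)) / (h / (2 * Real.pi)))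
    have h3 : ∀ᶠ x : ℝ in atTop, 2 * (c0 / 100) * Real.sqrt x ≤ h / (2 * Real.pi) * (x - 2) := by
      filter_upwards [h2, eventually_ge_atTop 4] with x hx hx4
      have hk : 0 < h / (2 * Real.pi) := by positivity
      rw [div_le_iff₀ hk] at hx
      have e : Real.sqrt x * Real.sqrt x = x := Real.mul_self_sqrt (by linarith)
      have hs : 0 ≤ Real.sqrt x := Real.sqrt_nonneg x
      have a1 := mul_le_mul_of_nonneg_right hx hs
      have a2 : Real.sqrt x * (h / (2 * Real.pi)) * Real.sqrt x = h / (2 * Real.pi) * x := by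
        rw [mul_comm (Real.sqrt x) (h / (2 * Real.pi)), mul_assoc, e]
      rw [a2] at a1
      nlinarith
    exact Real.tendsto_log_atTop.eventually h3
  have ev3 := hll.eventually_ge_atTop 1
  have ev4 := Real.tendsto_log_atTop.eventually (eventually_ge_atTop (10 + h + c0))
  have ev5 : ∀ᶠ T : ℝ in atTop, 8 * Real.log (Real.log T) ≤ Real.log T := by
    have h1 := Real.isLittleO_log_id_atTop.bound (show (0 : ℝ) < 1 / 8 by norm_num)
    have h2 := Real.tendsto_log_atTop.eventually h1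
    filter_upwards [h2, ev3, ev4] with T a1 a2 a3
    simp only [id_eq] at a1
    rw [Real.norm_of_nonneg (by linarith), Real.norm_of_nonneg (by linarith)] at a1
    linarith
  have ev6 : ∀ᶠ T : ℝ in atTop, 2 * (Real.log T) ^ 5 < T ^ (ε / 2) := by
    have h1 : (fun x : ℝ => Real.log x ^ (5 : ℝ)) =o[atTop] fun x => x ^ (ε / 2) :=
      isLittleO_log_rpow_rpow_atTop 5 (by positivity)
    have h2 := h1.bound (show (0 : ℝ) < 1 / 4 by norm_num)
    filter_upwards [h2, eventually_ge_atTop 1] with T a1 a3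
    have a4 := Real.log_nonneg a3
    rw [Real.norm_of_nonneg (by positivity), Real.norm_of_nonneg (by positivity)] at a1
    have e4 : Real.log T ^ (5 : ℝ) = Real.log T ^ 5 := by
      rw [← Real.rpow_natCast]; norm_num
    rw [e4] at a1
    have : 0 < T ^ (ε / 2) := by positivity
    linarith
  obtain ⟨T5, hT5⟩ := eventually_atTop.1 (ev1.and (ev2.and (ev3.and (ev4.and (ev5.and ev6)))))
  refine ⟨c0 / 100, 2 * C5, max (max T1 T2) T5, by positivity, by positivity,
    hT1.trans ((le_max_left _ _).trans (le_max_left _ _)), fun T hT => ?_⟩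
  obtain ⟨b1, b2, b3, b4, b5, b6⟩ := hT5 T ((le_max_right _ _).trans hT)
  have hTT := (le_max_left _ _).trans hT
  have hTT1 : T1 ≤ T := (le_max_left _ _).trans hTT
  have hTT2 : T2 ≤ T := (le_max_right _ _).trans hTT
  have hT10 : 10 ≤ T := hT1.trans hTT1
  have hT0 : 0 < T := by linarith
  obtain ⟨U1, U2, hU1, hU1', hU2, hU2', hcore⟩ := hcore T hTT1
  set L := Real.log T with hL
  set LL := Real.log L with hLL
  set B := 8 * LL with hB
  obtain ⟨-, k2, -, -, -, -, -, k8, k9, k10, -⟩ := hKER B (by linarith)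
  set κ := ∫ x : ℝ, KR B x with hκ
  set R := Real.sqrt (L / LL) with hR
  have hL0 : 0 < L := by linarith
  have hR0 : 0 ≤ R := Real.sqrt_nonneg _
  have hRL : R ≤ Real.sqrt L := RL_lem b3 (by linarith)
  have hsL : Real.sqrt L ≤ L := by
    rw [Real.sqrt_le_left (by linarith)]
    nlinarith
  have hκ0 : 0 ≤ κ := integral_nonneg fun x => (k2 x).1
  have hκ13 : κ ≤ 13 := kap_le k8 (k9 1).2
  have hbig : C4 + 13 * h ≤ c0 / 4 * R := by
    have : 0 ≤ (C4 + 13 * h) * L ^ (1 / 3 : ℝ) * LL ^ 3 := by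
      have : 0 ≤ LL := by linarith
      positivity
    linarith
  have hh2 : 0 < h / (2 * Real.pi) := by positivity
  have hh3 : h / (2 * Real.pi) ≤ h / 2 := by
    apply div_le_div_of_nonneg_left hh.le (by norm_num) (by linarith)
  have hc0R : 0 ≤ 2 * (c0 / 100) * R := by positivity
  have h4 : 0 < c0 * R := by nlinarith
  have h2 : κ * (2 * (c0 / 100) * R) ≤ 13 * (2 * (c0 / 100) * R) :=
      mul_le_mul_of_nonneg_right hκ13 hc0R
  have hMup : h / (2 * Real.pi) * L + 2 * (c0 / 100) * R ≤ L ^ 2 := by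
    have a1 : h / (2 * Real.pi) * L ≤ h * L := by
      apply mul_le_mul_of_nonneg_right _ (by linarith)
      linarith
    have a2 : 2 * (c0 / 100) * R ≤ c0 * L := by
      calc 2 * (c0 / 100) * R ≤ c0 * R := by
            apply mul_le_mul_of_nonneg_right _ hR0; linarith
        _ ≤ c0 * L := by
            apply mul_le_mul_of_nonneg_left _ hc0.le; linarith
    have a3 : (h + c0) * L ≤ L * L := by
      apply mul_le_mul_of_nonneg_right _ (by linarith); linarith
    nlinarith
  -- the inclusion, common part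
  have hloc : ∀ t τ : ℝ, T + 6 * L ≤ t → t ≤ 2 * T - 6 * L - h → |τ - t| ≤ L →
      (∀ s ∈ Zf riemannZeta T (2 * T), |s.im - t| ≤ 3 * L →
          |s.re - 1 / 2| ≤ C5 / Real.sqrt (L * LL)) →
      T ≤ τ ∧ τ ≤ 2 * T ∧ NearL (2 * C5) τ := by
    intro t τ t1 t2 t3 t4
    rw [abs_le] at t3
    have r1 : T ≤ τ := by linarith [t3.1]
    have r2 : τ ≤ 2 * T := by linarith [t3.2]
    refine ⟨r1, r2, near_of hT10 b3 r1 r2 hC5 fun ρ q1 q2 q3 q4 => ?_⟩
    rw [← hL] at q4
    rw [abs_le] at q4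
    apply t4 ρ
    · rw [H370.mem_Zf H370.good_zeta (by linarith)]
      exact ⟨q1, q2, by linarith [q4.1, t3.1], by linarith [q4.2, t3.2], q3⟩
    · rw [abs_le]
      constructor
      · linarith [q4.1, t3.1]
      · linarith [q4.2, t3.2]
  constructor
  · obtain ⟨G, hGm, hGs, hGv, hG⟩ := hcore 1 (Or.inl rfl)
    set M : ℝ := h / (2 * Real.pi) * L + 2 * (c0 / 100) * R with hM
    have hM0 : 0 ≤ M := by positivity
    refine vol_last (L := L) (by linarith) (by linarith) hGv ?_ b6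
    refine cover_lem hGm (by linarith) (by positivity) fun t ht => ?_
    obtain ⟨ht1, ht2⟩ := hGs ht
    obtain ⟨g1, g2⟩ := hG t ht
    have hv : ENNReal.ofReal (L ^ (-(4 : ℝ))) ≤ volume (hiS h t L M) := by
      by_contra hcon
      push Not at hcon
      have h1 := (hcnt T hTT2 U1 U2 hU1 hU1' hU2 hU2' B (by linarith) b5 t M (by linarith)
        (by linarith) hM0 hMup).1 hcon.le
      change ∫ v in (0 : ℝ)..h, FF U1 U2 B (t + v) ≤ κ * M + C4 at h1
      rw [hM] at h1
      rw [one_mul] at g1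
      have h3 : c0 * R ≤ 13 * (2 * (c0 / 100) * R) + C4 := by linarith
      linarith
    refine hv.trans (measure_mono ?_)
    rintro τ ⟨q1, q2⟩
    obtain ⟨r1, r2, r3⟩ := hloc t τ ht1 ht2 q1 g2
    refine ⟨⟨r1, r2, ?_, r3⟩, ?_⟩
    · refine le_trans ?_ q2.le
      have a1 := dev_le hT10 b3 r1 r2
      have a2 : Real.log (τ / (2 * Real.pi)) ≤ L := by
        apply Real.log_le_log (div_pos (by linarith) (by positivity))
        rw [div_le_iff₀ (by positivity)]
        nlinarith
      have a3 := mul_le_mul_of_nonneg_left a2 hh2.le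
      have a4 := mul_le_mul_of_nonneg_left a1 (show 0 ≤ c0 / 100 by positivity)
      have a5 : c0 / 100 * (2 * Real.sqrt (Real.log T / Real.log (Real.log T))) =
        2 * (c0 / 100) * R := by rw [hR]; ring
      rw [a5] at a4
      exact add_le_add a3 a4
    · rw [abs_le] at q1
      exact ⟨by linarith [q1.1], by linarith [q1.2]⟩
  · obtain ⟨G, hGm, hGs, hGv, hG⟩ := hcore (-1) (Or.inr rfl)
    set M : ℝ := h / (2 * Real.pi) * (L - 2) - 2 * (c0 / 100) * R with hM
    have hM0 : 0 ≤ M := by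
      have := mul_le_mul_of_nonneg_left hRL (show 0 ≤ 2 * (c0 / 100) by positivity)
      linarith
    have hMup' : M ≤ L ^ 2 := by
      have : h / (2 * Real.pi) * (L - 2) ≤ h / (2 * Real.pi) * L :=
        mul_le_mul_of_nonneg_left (by linarith) hh2.le
      linarith
    refine vol_last (L := L) (by linarith) (by linarith) hGv ?_ b6
    refine cover_lem hGm (by linarith) (by positivity) fun t ht => ?_
    obtain ⟨ht1, ht2⟩ := hGs ht
    obtain ⟨g1, g2⟩ := hG t ht
    have hv : ENNReal.ofReal (L ^ (-(4 : ℝ))) ≤ volume (loS h t L M) := by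
      by_contra hcon
      push Not at hcon
      have h1 := (hcnt T hTT2 U1 U2 hU1 hU1' hU2 hU2' B (by linarith) b5 t M (by linarith)
        (by linarith) hM0 hMup').2 hcon.le
      change κ * M - C4 ≤ ∫ v in (0 : ℝ)..h, FF U1 U2 B (t + v) at h1
      rw [hM] at h1
      have h5 : κ * (h / (2 * Real.pi) * 2) ≤ 13 * (h / 2 * 2) :=
        mul_le_mul hκ13 (by linarith) (by positivity) (by norm_num)
      have h3 : c0 * R ≤ 13 * (2 * (c0 / 100) * R) + 13 * (h / 2 * 2) + C4 := by linarith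
      linarith
    refine hv.trans (measure_mono ?_)
    rintro τ ⟨q1, q2⟩
    obtain ⟨r1, r2, r3⟩ := hloc t τ ht1 ht2 q1 g2
    refine ⟨⟨r1, r2, ?_, r3⟩, ?_⟩
    · refine le_trans q2.le ?_
      have a1 := dev_le hT10 b3 r1 r2
      have a2 : L - 2 ≤ Real.log (τ / (2 * Real.pi)) := by
        rw [Real.log_div (by linarith) (by positivity)]
        have b1 : L ≤ Real.log τ := Real.log_le_log hT0 r1
        have b2 : Real.log (2 * Real.pi) ≤ 2 := by
          rw [Real.log_le_iff_le_exp (by positivity)]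
          have := Real.pi_lt_d2
          have e2 : Real.exp 2 = Real.exp 1 * Real.exp 1 := by rw [← Real.exp_add]; norm_num
          have e1 := Real.exp_one_gt_d9
          rw [e2]
          nlinarith
        linarith
      have a3 := mul_le_mul_of_nonneg_left a2 hh2.le
      have a4 := mul_le_mul_of_nonneg_left a1 (show 0 ≤ c0 / 100 by positivity)
      have a5 : c0 / 100 * (2 * Real.sqrt (Real.log T / Real.log (Real.log T))) =
        2 * (c0 / 100) * R := by rw [hR]; ring
      rw [a5] at a4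
      exact sub_le_sub a3 a4
    · rw [abs_le] at q1
      exact ⟨by linarith [q1.1], by linarith [q1.2]⟩

end

end Pool.Agent.Y746.OM
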