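import Pool.Agent.H370R2.PC1
import Pool.Agent.H370R2.Defs2

set_option autoImplicit false

/-!
Project OM (helper746): omega theorems for the number of zeros of zeta in intervals of fixed length,
without any hypothesis. Statements.
-/

namespace Pool.Agent.Y746.OM

open Finset Filter Topology MeasureTheory
open H370 (zset mult NN Zf zz)

noncomputable section

/-- the product of the elements of a finite set of primes -/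
def qS (S : Finset ℕ) : ℕ := ∏ p ∈ S, p

/-- the subsets of `P` whose product is at most `Q` -/
def FS (P : Finset ℕ) (Q : ℝ) : Finset (Finset ℕ) :=
  P.powerset.filter (fun S => (qS S : ℝ) ≤ Q)

/-- the resonator -/
def RS (P : Finset ℕ) (Q : ℝ) (y : Finset ℕ → ℂ) (s : ℂ) : ℂ :=
  ∑ S ∈ FS P Q, y S * ((qS S : ℕ) : ℂ) ^ (-s)

/-- a Dirichlet polynomial -/
def DD (g : ℕ → ℂ) (N : ℕ) (s : ℂ) : ℂ := ∑ n ∈ Icc 1 N, g n * (n : ℂ) ^ (-s)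

/-- the coefficients of the mollifier -/
def mu (n : ℕ) : ℂ := ((ArithmeticFunction.moebius n : ℤ) : ℂ)

/-- the number of divisors -/
def dv (n : ℕ) : ℝ := (n.divisors.card : ℝ)

/-- the majorant of the twisted means -/
def EP (P : Finset ℕ) (r : ℕ → ℝ) : ℝ := ∏ p ∈ P, (1 + r p ^ 2 + 8 * r p / Real.sqrt p)

/-- sum over pairs of subsets -/
def S_PP : Prop := ∀ (P : Finset ℕ) (r a : ℕ → ℝ),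
  ∑ S ∈ P.powerset, ∑ S' ∈ P.powerset, (∏ p ∈ S, r p) * (∏ p ∈ S', r p) *
    ((∏ p ∈ S \ S', a p) * (∏ p ∈ S' \ S, a p)) = ∏ p ∈ P, (1 + r p ^ 2 + 2 * r p * a p)

/-- sum of reciprocals of least common multiples -/
def S_LCM : Prop := ∀ u v N : ℕ, Squarefree u → Squarefree v → Nat.Coprime u v → 1 ≤ N →
  ∑ n ∈ Icc 1 N, ∑ m ∈ Icc 1 N, (1 : ℝ) / (Nat.lcm (n * u) (m * v) : ℝ) ≤
    4 ^ (u * v).primeFactors.card * (1 + Real.log N) ^ 3 / ((u : ℝ) * v)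

/-- mean square of a Dirichlet polynomial against the resonator -/
def S_A : Prop := ∀ (P : Finset ℕ) (r : ℕ → ℝ) (Q K : ℝ) (y : Finset ℕ → ℂ),
  (∀ p ∈ P, p.Prime) → (∀ p ∈ P, 0 ≤ r p) → 1 ≤ Q → 0 ≤ K →
  (∀ S ∈ FS P Q, ‖y S‖ ≤ K * ∏ p ∈ S, r p) →
  ∀ (N1 N2 : ℕ) (g : ℕ → ℂ), 1 ≤ N2 → (∀ k, ‖g k‖ ≤ dv k) → (∀ k, k ≤ N1 → g k = 0) →
  ∀ (σ A B : ℝ), 1 / 2 ≤ σ → A ≤ B →
  ∫ v in A..B, ‖DD g N2 ((σ : ℂ) + (v : ℂ) * Complex.I)‖ ^ 2 *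
      ‖RS P Q y ((v : ℂ) * Complex.I)‖ ^ 2 ≤
    K ^ 2 * EP P r * ((B - A) * (∑ k ∈ (Icc 1 N2).filter (fun k : ℕ => (N1 : ℝ) < (k : ℝ) * Q),
      dv k ^ 2 * (k : ℝ) ^ (-(2 * σ))) + 4 * Q ^ 2 * (N2 : ℝ) ^ 5)

/-- second moment of zeta against a Dirichlet polynomial and the resonator -/
def S_TW : Prop := ∃ η C T0 : ℝ, 0 < η ∧ η ≤ 1 / 100 ∧ 0 < C ∧ 10 ≤ T0 ∧ ∀ T : ℝ, T0 ≤ T →
  ∀ (P : Finset ℕ) (r : ℕ → ℝ) (Q K : ℝ) (y : Finset ℕ → ℂ),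
  (∀ p ∈ P, p.Prime) → (∀ p ∈ P, 0 ≤ r p) → 1 ≤ Q → Q ≤ T ^ η → 0 ≤ K →
  (∀ S ∈ FS P Q, ‖y S‖ ≤ K * ∏ p ∈ S, r p) →
  ∀ (N : ℕ) (g : ℕ → ℂ), 1 ≤ N → (N : ℝ) ≤ T ^ η → (∀ k, ‖g k‖ ≤ 1) →
  ∫ v in (T / 4)..(8 * T), ‖riemannZeta (((1 / 2 : ℝ) : ℂ) + (v : ℂ) * Complex.I)‖ ^ 2 *
      ‖DD g N (((1 / 2 : ℝ) : ℂ) + (v : ℂ) * Complex.I)‖ ^ 2 *
      ‖RS P Q y ((v : ℂ) * Complex.I)‖ ^ 2 ≤
    C * T * (Real.log T) ^ 4 * (K ^ 2 * EP P r)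

/-- mean square of `1 - ζ M` against the resonator -/
def S_G3 : Prop := ∃ η c C T0 : ℝ, 0 < η ∧ η ≤ 1 / 100 ∧ 0 < c ∧ c ≤ 1 / 100 ∧ 0 < C ∧ 10 ≤ T0 ∧
  ∀ T : ℝ, T0 ≤ T → ∀ δ : ℝ, 1 / Real.log T ≤ δ → δ ≤ 1 / 16 →
  ∀ (P : Finset ℕ) (r : ℕ → ℝ) (Q K : ℝ) (y : Finset ℕ → ℂ),
  (∀ p ∈ P, p.Prime) → (∀ p ∈ P, 0 ≤ r p) → 1 ≤ Q → Q ≤ T ^ c → 0 ≤ K →
  (∀ S ∈ FS P Q, ‖y S‖ ≤ K * ∏ p ∈ S, r p) →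
  ∫ v in (T / 2)..(4 * T), ‖1 - riemannZeta (((1 / 2 + δ : ℝ) : ℂ) + (v : ℂ) * Complex.I) *
      DD mu ⌊T ^ η⌋₊ (((1 / 2 + δ : ℝ) : ℂ) + (v : ℂ) * Complex.I)‖ ^ 2 *
      ‖RS P Q y ((v : ℂ) * Complex.I)‖ ^ 2 ≤
    C * T * (Real.log T) ^ C * T ^ (-(c * δ)) * (K ^ 2 * EP P r)

/-- zeros near the critical line against the resonator -/
def S_E : Prop := ∃ c C T0 : ℝ, 0 < c ∧ c ≤ 1 / 100 ∧ 0 < C ∧ 10 ≤ T0 ∧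
  ∀ T : ℝ, T0 ≤ T → ∀ δ : ℝ, 2 / Real.log T ≤ δ → δ ≤ 1 / 32 →
  ∀ (P : Finset ℕ) (r : ℕ → ℝ) (Q : ℝ) (y : Finset ℕ → ℂ),
  (∀ p ∈ P, p.Prime) → (∀ p ∈ P, 0 ≤ r p) → 1 ≤ Q → Q ≤ T ^ c →
  (∀ S ∈ FS P Q, ‖y S‖ ≤ ∏ p ∈ S, r p) →
  ∫ t in T..(2 * T), ‖RS P Q y ((t : ℂ) * Complex.I)‖ ^ 2 *
      ∑ s ∈ (Zf riemannZeta T (2 * T)).filter (fun s => δ ≤ s.re - 1 / 2 ∧ s.re - 1 / 2 ≤ 1 / 32),
        (mult riemannZeta s : ℝ) * Real.exp (-(s.im - t) ^ 2 / 2) ≤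
    C * T * (Real.log T) ^ C * T ^ (-(c * δ)) * EP P r

/-- all zeros off the line against the resonator -/
def S_F : Prop := ∃ c C T0 : ℝ, 0 < c ∧ c ≤ 1 / 100 ∧ 0 < C ∧ 10 ≤ T0 ∧ ∀ T : ℝ, T0 ≤ T →
  ∀ (P : Finset ℕ) (r : ℕ → ℝ) (Q : ℝ) (y : Finset ℕ → ℂ),
  (∀ p ∈ P, p.Prime) → (∀ p ∈ P, 0 ≤ r p) → 1 ≤ Q → Q ≤ T ^ c →
  (∀ S ∈ FS P Q, ‖y S‖ ≤ ∏ p ∈ S, r p) →
  ∫ t in T..(2 * T), ‖RS P Q y ((t : ℂ) * Complex.I)‖ ^ 2 *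
      ∑ s ∈ (Zf riemannZeta T (2 * T)).filter
        (fun s => (Real.log T) ^ (-(1 / 3) : ℝ) ≤ |s.re - 1 / 2|),
        (mult riemannZeta s : ℝ) * Real.exp (-(s.im - t) ^ 2 / 2) ≤
    C * T * (Real.log T) ^ C * Real.exp (-(c * (Real.log T) ^ (2 / 3 : ℝ))) * EP P r

/-- the kernel at complex arguments -/
def KB (B : ℝ) (z : ℂ) : ℂ :=
  Complex.exp (-z ^ 2 / 2) * ∫ u in (0 : ℝ)..B, ((1 - u / B : ℝ) : ℂ) * (2 * Complex.cos (u * z))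

/-- the kernel at real arguments -/
def KR (B x : ℝ) : ℝ :=
  Real.exp (-x ^ 2 / 2) * ∫ u in (0 : ℝ)..B, (1 - u / B) * (2 * Real.cos (u * x))

/-- the transform of the kernel at `log n` -/
def GB (B : ℝ) (n : ℕ) : ℝ :=
  ∫ u in (0 : ℝ)..B, (1 - u / B) * Real.exp (-(u - Real.log n) ^ 2 / 2)

/-- properties of the kernel -/
def S_KER : Prop := ∃ C : ℝ, 0 < C ∧ ∀ B : ℝ, 1 ≤ B →
  (∀ x : ℝ, KB B (x : ℂ) = (KR B x : ℂ)) ∧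
  (∀ x : ℝ, 0 ≤ KR B x ∧ KR B x ≤ B * Real.exp (-x ^ 2 / 2)) ∧
  Continuous (KR B) ∧ Continuous (KB B) ∧ Integrable (KR B) ∧
  (∀ z : ℂ, |z.im| ≤ 1 / 2 → ‖KB B z‖ ≤ 2 * B * Real.exp (B / 2) * Real.exp (-z.re ^ 2 / 2)) ∧
  (∀ z : ℂ, |z.im| * B ≤ 1 →
    |(KB B z).re - KR B z.re| ≤ C * z.im ^ 2 * B ^ 3 * Real.exp (-z.re ^ 2 / 4)) ∧
  (∫ x : ℝ, KR B x) = 2 * Real.sqrt (2 * Real.pi) * GB B 1 ∧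
  (∀ n : ℕ, 0 ≤ GB B n ∧ GB B n ≤ Real.sqrt (2 * Real.pi)) ∧
  1 / 10 ≤ GB B 1 ∧
  (∀ n : ℕ, 1 ≤ Real.log n → Real.log n ≤ B / 4 → 1 / 10 ≤ GB B n)

/-- the explicit formula for the kernel -/
def S_EX : Prop := ∃ C T0 : ℝ, 0 < C ∧ 10 ≤ T0 ∧ ∀ T : ℝ, T0 ≤ T →
  ∃ U1 U2 : ℝ, T ≤ U1 ∧ U1 ≤ T + 1 ∧ 2 * T - 1 ≤ U2 ∧ U2 ≤ 2 * T ∧
    ∀ B t : ℝ, 1 ≤ B → B ≤ 8 * Real.log (Real.log T) →
      T + Real.log T ≤ t → t ≤ 2 * T - Real.log T →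
      |(∑ s ∈ Zf riemannZeta U1 U2, (mult riemannZeta s : ℝ) * (KB B (zz s - t)).re) -
        2 / Real.sqrt (2 * Real.pi) * (Real.log T * GB B 1 -
          ∑ n ∈ Icc 2 ⌊T ^ (1 / 8 : ℝ)⌋₊, ArithmeticFunction.vonMangoldt n / Real.sqrt n *
            GB B n * Real.cos (t * Real.log n))| ≤ C

/-- reduction to the ordinates -/
def S_NL : Prop := ∃ C T0 : ℝ, 0 < C ∧ 10 ≤ T0 ∧ ∀ T : ℝ, T0 ≤ T →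
  ∀ U1 U2 : ℝ, T ≤ U1 → U1 ≤ U2 → U2 ≤ 2 * T → ∀ t : ℝ,
    |(∑ s ∈ Zf riemannZeta U1 U2, (mult riemannZeta s : ℝ) *
          (KB (8 * Real.log (Real.log T)) (zz s - t)).re) -
      ∑ s ∈ Zf riemannZeta U1 U2, (mult riemannZeta s : ℝ) *
          KR (8 * Real.log (Real.log T)) (s.im - t)| ≤
      C * (Real.log T) ^ (1 / 3 : ℝ) * (Real.log (Real.log T)) ^ 3 +
      C * (Real.log T) ^ 5 * ∑ s ∈ (Zf riemannZeta T (2 * T)).filter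
        (fun s => (Real.log T) ^ (-(1 / 3) : ℝ) ≤ |s.re - 1 / 2|),
        (mult riemannZeta s : ℝ) * Real.exp (-(s.im - t) ^ 2 / 2)

/-- comparison with the number of zeros in intervals -/
def S_CNT : Prop := ∀ h : ℝ, 0 < h → ∃ C T0 : ℝ, 0 < C ∧ 10 ≤ T0 ∧ ∀ T : ℝ, T0 ≤ T →
  ∀ U1 U2 : ℝ, T ≤ U1 → U1 ≤ T + 1 → 2 * T - 1 ≤ U2 → U2 ≤ 2 * T →
  ∀ B : ℝ, 1 ≤ B → B ≤ Real.log T → ∀ t M : ℝ, T + 2 * Real.log T ≤ t →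
    t ≤ 2 * T - 2 * Real.log T - h → 0 ≤ M →
    ((∀ τ : ℝ, T ≤ τ → τ ≤ 2 * T → (NN riemannZeta τ (τ + h) : ℝ) ≤ M) →
      ∫ v in (0 : ℝ)..h, ∑ s ∈ Zf riemannZeta U1 U2, (mult riemannZeta s : ℝ) *
        KR B (s.im - (t + v)) ≤ (∫ x : ℝ, KR B x) * M + C) ∧
    ((∀ τ : ℝ, T ≤ τ → τ ≤ 2 * T → M ≤ (NN riemannZeta τ (τ + h) : ℝ)) →
      (∫ x : ℝ, KR B x) * M - C ≤
        ∫ v in (0 : ℝ)..h, ∑ s ∈ Zf riemannZeta U1 U2, (mult riemannZeta s : ℝ) *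
        KR B (s.im - (t + v)))

/-- the total weight of the resonator -/
def N0 (P : Finset ℕ) (r : ℕ → ℝ) (Q : ℝ) : ℝ := ∑ S ∈ FS P Q, ∏ p ∈ S, r p ^ 2

/-- the weight of the sets which can be multiplied by `p` -/
def N1 (P : Finset ℕ) (r : ℕ → ℝ) (Q : ℝ) (p : ℕ) : ℝ :=
  ∑ S ∈ (FS P (Q / p)).filter (fun S => p ∉ S), ∏ q ∈ S, r q ^ 2

/-- the coefficients of the resonator -/
def yc (r φ : ℕ → ℝ) (S : Finset ℕ) : ℂ :=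
  ∏ p ∈ S, ((r p : ℂ) * Complex.exp ((φ p : ℂ) * Complex.I))

open Classical in
/-- the averages with the resonator -/
def S_PR : Prop := ∀ (P : Finset ℕ) (r φ : ℕ → ℝ) (Q A B : ℝ),
  (∀ p ∈ P, p.Prime) → (∀ p ∈ P, 0 ≤ r p) → 1 ≤ Q → A ≤ B →
  |(∫ t in A..B, ‖RS P Q (yc r φ) ((t : ℂ) * Complex.I)‖ ^ 2) - (B - A) * N0 P r Q| ≤
    2 * Q ^ 2 * N0 P r Q ∧
  ∀ (n : ℕ) (ψ : ℝ), IsPrimePow n →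
    |(∫ t in A..B, ‖RS P Q (yc r φ) ((t : ℂ) * Complex.I)‖ ^ 2 *
        Real.cos (t * Real.log n - ψ)) -
      (if n ∈ P then (B - A) * (r n * Real.cos (φ n - ψ) * N1 P r Q n) else 0)| ≤
      2 * n * Q ^ 2 * N0 P r Q

/-- primes between `L` and `L ^ 2` -/
def S_NT : Prop := ∀ h : ℝ, 0 < h → ∃ c X0 : ℝ, 0 < c ∧ 10 ≤ X0 ∧ ∀ L : ℝ, X0 ≤ L →
  c ≤ ∑ p ∈ (Icc 1 ⌊L ^ 2⌋₊).filter (fun p : ℕ => p.Prime ∧ L < (p : ℝ)),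
      |Real.sin (h * Real.log p / 2)| / p ∧
  ∑ p ∈ (Icc 1 ⌊L ^ 2⌋₊).filter (fun p : ℕ => p.Prime ∧ L < (p : ℝ)), (1 : ℝ) / p ≤ 1 ∧
  ∑ p ∈ (Icc 1 ⌊L ^ 2⌋₊).filter (fun p : ℕ => p.Prime ∧ L < (p : ℝ)), Real.log p / p ≤ 2 * Real.log L

/-- the choice of the resonator -/
def S_RK : Prop := ∀ h η : ℝ, 0 < h → 0 < η → ∃ c C T0 : ℝ, 0 < c ∧ 0 < C ∧ 10 ≤ T0 ∧
  ∀ T : ℝ, T0 ≤ T → ∃ (P : Finset ℕ) (r : ℕ → ℝ),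
    (∀ p ∈ P, p.Prime ∧ Real.log T ≤ p ∧ (p : ℝ) ≤ (Real.log T) ^ 2) ∧ (∀ p ∈ P, 0 ≤ r p) ∧
    c * Real.sqrt (Real.log T / Real.log (Real.log T)) * N0 P r (T ^ η) ≤
      ∑ p ∈ P, |Real.sin (h * Real.log p / 2)| / Real.sqrt p * r p * N1 P r (T ^ η) p ∧
    EP P r ≤ Real.exp (C * Real.sqrt (Real.log T)) * N0 P r (T ^ η)

/-- the theorem -/
def S_FIN : Prop := ∀ h : ℝ, 0 < h → ∃ c T0 : ℝ, 0 < c ∧ 10 ≤ T0 ∧ ∀ T : ℝ, T0 ≤ T →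
  (∃ t : ℝ, T ≤ t ∧ t ≤ 2 * T ∧ h / (2 * Real.pi) * Real.log (t / (2 * Real.pi)) +
    c * Real.sqrt (Real.log t / Real.log (Real.log t)) ≤ (NN riemannZeta t (t + h) : ℝ)) ∧
  (∃ t : ℝ, T ≤ t ∧ t ≤ 2 * T ∧ (NN riemannZeta t (t + h) : ℝ) ≤
    h / (2 * Real.pi) * Real.log (t / (2 * Real.pi)) -
    c * Real.sqrt (Real.log t / Real.log (Real.log t)))

end

end Pool.Agent.Y746.OM
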